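import Pool.Agent.helper15.XE.SpecL

/-! # Row xe:BIM (MP_5628fe_nt) -/

set_option autoImplicit false

namespace Pool.Agent.XE

open Finset ArithmeticFunction
open Pool.Agent.EC (cvl)
open Pool.Agent.CH (Mo)
open GD (kp)

private lemma BIM_pow (a : ℕ) (c η : ℝ) (hη : 0 < η) : ∃ N₀ : ℕ, ∀ N : ℕ, N₀ ≤ N →
    c * Real.log N ^ a ≤ (N : ℝ) ^ η := by
  have h1 := isLittleO_log_rpow_rpow_atTop (a : ℝ) hη
  have h2 := h1.bound (show (0 : ℝ) < 1 / (|c| + 1) by positivity)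
  have h3 := (tendsto_natCast_atTop_atTop (R := ℝ)).eventually h2
  obtain ⟨N₀, hN₀⟩ := Filter.eventually_atTop.1 h3
  refine ⟨max N₀ 1, fun N hN => ?_⟩
  have h4 := hN₀ N (le_trans (le_max_left _ _) hN)
  have hN1 : (1 : ℝ) ≤ N := by exact_mod_cast le_trans (le_max_right _ _) hN
  have hL : 0 ≤ Real.log N := Real.log_nonneg hN1
  rw [Real.rpow_natCast, Real.norm_of_nonneg (pow_nonneg hL a),
    Real.norm_of_nonneg (Real.rpow_nonneg (by positivity) η)] at h4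
  have h5 : c * Real.log N ^ a ≤ (|c| + 1) * Real.log N ^ a :=
    mul_le_mul_of_nonneg_right (by linarith [le_abs_self c]) (pow_nonneg hL a)
  refine h5.trans ?_
  rw [one_div, ← div_eq_inv_mul, le_div_iff₀ (by positivity)] at h4
  linarith

private lemma BIM_dyadic (g : ℕ → ℝ) (I : ℕ) :
    ∑ a ∈ Ioc 1 (2 ^ I), g a = ∑ i ∈ range I, ∑ a ∈ Ioc (2 ^ i) (2 * 2 ^ i), g a := by
  induction I with
  | zero => simp
  | succ I ih =>
    rw [sum_range_succ, ← ih, pow_succ, mul_comm (2 ^ I) 2]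
    exact (sum_Ioc_consecutive g (Nat.one_le_two_pow) (by omega)).symm

/-- one block, numbers only -/
private lemma BIM_num (x s L R M K Sa Sb : ℝ) (C' E : ℕ) (hs : s ^ 2 = x) (hs0 : 0 < s) (hL : 1 ≤ L)
    (hR : 1 ≤ R) (hM : 0 ≤ M) (_hK : 0 ≤ K) (hMK : M * K ≤ 8 * x ^ 3)
    (hM2 : M ≤ 16 * x ^ 2 / L ^ (2 * C')) (hK2 : K ≤ 16 * x ^ 2 / L ^ (2 * C'))
    (hSa0 : 0 ≤ Sa) (hSb0 : 0 ≤ Sb) (hSa : Sa ≤ 2 * M * L ^ E) (hSb : Sb ≤ 2 * K * L ^ E) :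
    √((M / x + R ^ 2) * (K / x + R ^ 2) * Sa * Sb) / R ≤
      6 * L ^ E * (3 * x ^ 2 / R + 6 * x ^ 2 / L ^ C' + R * s ^ 3) := by
  have hx : 0 < x := by rw [← hs]; positivity
  have hL0 : 0 < L := by linarith
  have hR0 : 0 < R := by linarith
  have hLC : 0 < L ^ C' := pow_pos hL0 _
  have hLE : 0 < L ^ E := pow_pos hL0 _
  set T := 6 * s ^ 3 * L ^ E * (3 * s + 6 * R * s / L ^ C' + R ^ 2) with hT
  have hT0 : 0 ≤ T := by positivity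
  have h1 : (M / x + R ^ 2) * (K / x + R ^ 2) ≤ 8 * x + 32 * R ^ 2 * x / L ^ (2 * C') + R ^ 4 := by
    have e1 : (M / x + R ^ 2) * (K / x + R ^ 2) = M * K / x ^ 2 + R ^ 2 * (M + K) / x + R ^ 4 := by
      field_simp
      ring
    rw [e1]
    have e2 : M * K / x ^ 2 ≤ 8 * x := by
      rw [div_le_iff₀ (by positivity)]
      calc M * K ≤ 8 * x ^ 3 := hMK
        _ = 8 * x * x ^ 2 := by ring
    have e3 : R ^ 2 * (M + K) / x ≤ 32 * R ^ 2 * x / L ^ (2 * C') := by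
      rw [div_le_iff₀ hx]
      calc R ^ 2 * (M + K) ≤ R ^ 2 * (16 * x ^ 2 / L ^ (2 * C') + 16 * x ^ 2 / L ^ (2 * C')) :=
            mul_le_mul_of_nonneg_left (add_le_add hM2 hK2) (by positivity)
        _ = 32 * R ^ 2 * x / L ^ (2 * C') * x := by ring
    linarith
  have h2 : Sa * Sb ≤ 32 * x ^ 3 * (L ^ E) ^ 2 := by
    calc Sa * Sb ≤ (2 * M * L ^ E) * (2 * K * L ^ E) := mul_le_mul hSa hSb hSb0 (by positivity)
      _ = 4 * (L ^ E) ^ 2 * (M * K) := by ring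
      _ ≤ 4 * (L ^ E) ^ 2 * (8 * x ^ 3) := mul_le_mul_of_nonneg_left hMK (by positivity)
      _ = _ := by ring
  have h3 : (M / x + R ^ 2) * (K / x + R ^ 2) * Sa * Sb ≤ T ^ 2 := by
    have e1 : (M / x + R ^ 2) * (K / x + R ^ 2) * Sa * Sb =
        ((M / x + R ^ 2) * (K / x + R ^ 2)) * (Sa * Sb) := by ring
    rw [e1]
    refine (mul_le_mul h1 h2 (mul_nonneg hSa0 hSb0) (by positivity)).trans ?_
    have e2 : T ^ 2 = 36 * x ^ 3 * (L ^ E) ^ 2 * (3 * s + 6 * R * s / L ^ C' + R ^ 2) ^ 2 := by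
      rw [hT, ← hs]; ring
    rw [e2]
    have e3 : 8 * x + 32 * R ^ 2 * x / L ^ (2 * C') + R ^ 4 ≤ (3 * s + 6 * R * s / L ^ C' + R ^ 2) ^ 2 := by
      have e4 : 32 * R ^ 2 * x / L ^ (2 * C') = 32 * (R * s / L ^ C') ^ 2 := by
        rw [← hs, mul_comm 2 C', pow_mul]
        field_simp
      rw [e4, ← hs]
      have e5 : 0 ≤ R * s / L ^ C' := by positivity
      have e6 : 6 * R * s / L ^ C' = 6 * (R * s / L ^ C') := by ring
      rw [e6]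
      set v := R * s / L ^ C' with hv
      nlinarith [mul_nonneg hs0.le e5, mul_nonneg hs0.le (sq_nonneg R), mul_nonneg e5 (sq_nonneg R), sq_nonneg v,
        sq_nonneg s]
    calc (8 * x + 32 * R ^ 2 * x / L ^ (2 * C') + R ^ 4) * (32 * x ^ 3 * (L ^ E) ^ 2)
        ≤ (3 * s + 6 * R * s / L ^ C' + R ^ 2) ^ 2 * (36 * x ^ 3 * (L ^ E) ^ 2) :=
          mul_le_mul e3 (by gcongr; norm_num) (by positivity) (by positivity)
      _ = _ := by ring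
  have h4 : √((M / x + R ^ 2) * (K / x + R ^ 2) * Sa * Sb) ≤ T := by
    rw [← Real.sqrt_sq hT0]
    exact Real.sqrt_le_sqrt h3
  calc √((M / x + R ^ 2) * (K / x + R ^ 2) * Sa * Sb) / R ≤ T / R := div_le_div_of_nonneg_right h4 hR0.le
    _ = 6 * L ^ E * (3 * x ^ 2 / R + 6 * x ^ 2 / L ^ C' + R * s ^ 3) := by
      rw [hT, ← hs]
      field_simp

private lemma BIM_pairs (N I : ℕ) (hI : 64 * N ^ 3 ≤ 2 ^ I) (α β F : ℕ → ℝ)
    (hα : ∀ a ≤ 1, α a = 0) (hβ : ∀ b ≤ 1, β b = 0) (hF : ∀ j, j ∉ Z3 N → F j = 0) :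
    ∑ j ∈ Z3 N, cvl α β j * F j =
      ∑ a ∈ Ioc 1 (2 ^ I), ∑ b ∈ Ioc 1 (2 ^ I), α a * β b * F (a * b) := by
  have h1 : ∑ j ∈ Z3 N, cvl α β j * F j =
      ∑ j ∈ Z3 N, ∑ w ∈ j.divisorsAntidiagonal, α w.1 * β w.2 * F (w.1 * w.2) := by
    refine sum_congr rfl fun j _ => ?_
    unfold cvl
    rw [sum_mul]
    refine sum_congr rfl fun w hw => ?_
    rw [(Nat.mem_divisorsAntidiagonal.1 hw).1]
  rw [h1, ← sum_product', sum_sigma']
  have hW : ∀ j ∈ Z3 N, 0 < j ∧ j ≤ 2 ^ I := by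
    intro j hj
    unfold Z3 at hj
    rw [mem_Ioc] at hj
    exact ⟨by omega, hj.2.trans hI⟩
  have h2 : ∑ w ∈ Ioc 1 (2 ^ I) ×ˢ Ioc 1 (2 ^ I), α w.1 * β w.2 * F (w.1 * w.2) =
      ∑ w ∈ (Ioc 1 (2 ^ I) ×ˢ Ioc 1 (2 ^ I)).filter (fun w => w.1 * w.2 ∈ Z3 N),
        α w.1 * β w.2 * F (w.1 * w.2) := by
    rw [sum_filter]
    refine sum_congr rfl fun w _ => ?_
    split_ifs with h
    · rfl
    · rw [hF _ h, mul_zero]
  rw [h2]
  have h3 : ∑ x ∈ (Z3 N).sigma fun j => j.divisorsAntidiagonal, α x.2.1 * β x.2.2 * F (x.2.1 * x.2.2) =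
      ∑ x ∈ ((Z3 N).sigma fun j => j.divisorsAntidiagonal).filter (fun x => 1 < x.2.1 ∧ 1 < x.2.2),
        α x.2.1 * β x.2.2 * F (x.2.1 * x.2.2) := by
    rw [sum_filter]
    refine sum_congr rfl fun x _ => ?_
    split_ifs with h
    · rfl
    · rw [not_and_or, not_lt, not_lt] at h
      rcases h with h | h
      · rw [hα _ h]; ring
      · rw [hβ _ h]; ring
  rw [h3]
  refine sum_nbij' (fun x => x.2) (fun w => ⟨w.1 * w.2, w⟩) ?_ ?_ ?_ ?_ ?_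
  · rintro ⟨j, w⟩ hx
    simp only [mem_filter, mem_sigma, Nat.mem_divisorsAntidiagonal] at hx
    simp only [mem_filter, mem_product, mem_Ioc]
    obtain ⟨⟨hj, hw, hj0⟩, h4, h5⟩ := hx
    have h6 := hW j hj
    have h7 : w.1 ≤ j := by rw [← hw]; exact Nat.le_mul_of_pos_right _ (by omega)
    have h8 : w.2 ≤ j := by rw [← hw]; exact Nat.le_mul_of_pos_left _ (by omega)
    exact ⟨⟨⟨h4, h7.trans h6.2⟩, h5, h8.trans h6.2⟩, by rw [hw]; exact hj⟩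
  · rintro w hw
    simp only [mem_filter, mem_product, mem_Ioc] at hw
    simp only [mem_filter, mem_sigma, Nat.mem_divisorsAntidiagonal]
    obtain ⟨⟨⟨h4, _⟩, h5, _⟩, h6⟩ := hw
    exact ⟨⟨h6, trivial, (hW _ h6).1.ne'⟩, h4, h5⟩
  · rintro ⟨j, w⟩ hx
    simp only [mem_filter, mem_sigma, Nat.mem_divisorsAntidiagonal] at hx
    obtain ⟨⟨hj, hw, hj0⟩, h4, h5⟩ := hx
    subst hw
    rfl
  · rintro w _
    rfl
  · rintro ⟨j, w⟩ _
    rfl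

theorem BIM (h1 : Pool.Agent.EC.BIL_stmt) (h2 : WVB_stmt) : BIM_stmt := by
  classical
  intro A E
  obtain ⟨C₀, hC₀, hB⟩ := h1
  obtain ⟨N₁, hN₁, hW⟩ := h2
  obtain ⟨ε, hεd⟩ : ∃ ε : ℝ, ε = 1 / 100 := ⟨_, rfl⟩
  have hε : 0 < ε := by rw [hεd]; norm_num
  obtain ⟨N₂, hN₂⟩ := BIM_pow (A + E + 3) (25920 * C₀) ε hε
  set C' := A + E + 4 with hC'
  refine ⟨C', 2 * C', max N₁ (max N₂ (max 4 ⌈Real.exp (10 + 7776 * C₀)⌉₊)), fun N hN' v hv r R hRL hRU α β hα hβ hα2 hβ2 => ?_⟩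
  have hN1 : N₁ ≤ N := le_trans (le_max_left _ _) hN'
  have hN : max N₂ (max 4 ⌈Real.exp (10 + 7776 * C₀)⌉₊) ≤ N := le_trans (le_max_right _ _) hN'
  have hWv := ((hW N hN1).1 v hv).2.2.2
  have hNa : N₂ ≤ N := le_trans (le_max_left _ _) hN
  have hN4 : 4 ≤ N := le_trans (le_trans (le_max_left _ _) (le_max_right _ _)) hN
  have hNe : ⌈Real.exp (10 + 7776 * C₀)⌉₊ ≤ N := le_trans (le_trans (le_max_right _ _) (le_max_right _ _)) hN
  have hx1 : (1 : ℝ) ≤ (N : ℝ) := by exact_mod_cast (by omega : 1 ≤ N)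
  have hx0 : (0 : ℝ) < (N : ℝ) := by linarith
  have hL : 10 + 7776 * C₀ ≤ Real.log N := by
    rw [Real.le_log_iff_exp_le hx0]
    exact le_trans (Nat.le_ceil _) (by exact_mod_cast hNe)
  have hP := hN₂ N hNa
  set L := Real.log N with hLdef
  have hL10 : 10 ≤ L := by linarith [hC₀]
  have hL1 : 1 ≤ L := by linarith
  have hL0 : 0 < L := by linarith
  set Q := QV N with hQdef
  have hQ1 : 1 ≤ Q := Real.one_le_rpow hx1 (by norm_num)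
  have hQx : Q ≤ N := by
    calc Q ≤ (N : ℝ) ^ (1 : ℝ) := Real.rpow_le_rpow_of_exponent_le hx1 (by norm_num)
      _ = N := Real.rpow_one _
  have hlogQ0 : 0 ≤ Real.log Q := Real.log_nonneg hQ1
  have hlogQ : Real.log Q ≤ L := Real.log_le_log (by linarith) hQx
  have hMo : ∀ m ∈ Mo Q, 1 ≤ m ∧ (m : ℝ) ≤ Q := by
    intro m hm
    unfold Mo at hm
    rw [mem_filter, mem_Icc] at hm
    exact ⟨hm.1.1, (Nat.le_floor_iff (by linarith)).1 hm.1.2⟩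
  have hLA : 0 < L ^ A := pow_pos hL0 A
  have hR1' : (1 : ℝ) ≤ (R : ℝ) := le_trans (one_le_pow₀ hL1) hRL
  have hR1 : 1 ≤ R := by exact_mod_cast hR1'
  -- dyadic
  set I := Nat.clog 2 (64 * N ^ 3) with hI
  have h2I : 64 * N ^ 3 ≤ 2 ^ I := Nat.le_pow_clog (by norm_num) _
  have hIL : (I : ℝ) ≤ 6 * L := by
    have hpos : 1 < 64 * N ^ 3 := by
      have : 1 ≤ N ^ 3 := Nat.one_le_pow _ _ (by omega)
      omega
    have h3 : 2 ^ (I - 1) < 64 * N ^ 3 := Nat.pow_pred_clog_lt_self (by norm_num) hpos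
    have hIp : 0 < I := Nat.clog_pos (by norm_num) (by omega)
    have h4 : ((2 : ℝ)) ^ (I - 1) < 64 * (N : ℝ) ^ 3 := by exact_mod_cast h3
    have h5 := Real.log_lt_log (by positivity) h4
    rw [Real.log_pow, Real.log_mul (by norm_num) (by positivity), Real.log_pow,
      show (64 : ℝ) = 2 ^ 6 by norm_num, Real.log_pow] at h5
    have h6 := Real.log_two_gt_d9
    have h7 := Real.log_two_lt_d9
    have h8 : ((I - 1 : ℕ) : ℝ) = (I : ℝ) - 1 := by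
      rw [Nat.cast_sub hIp]; norm_num
    rw [h8] at h5
    push_cast at h5
    rw [← hLdef] at h5
    nlinarith
  have hLC1 : 1 ≤ L ^ (2 * C') := one_le_pow₀ hL1
  have hNL : (N : ℝ) ≤ N * L ^ (2 * C') := by nlinarith
  have hα0 : ∀ a ≤ 1, α a = 0 := by
    intro a ha
    by_contra h
    have h3 := hα a h
    have h4 : (a : ℝ) ≤ 1 := by exact_mod_cast ha
    have h5 : (4 : ℝ) ≤ N := by exact_mod_cast hN4
    linarith
  have hβ0 : ∀ a ≤ 1, β a = 0 := by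
    intro a ha
    by_contra h
    have h3 := hβ a h
    have h4 : (a : ℝ) ≤ 1 := by exact_mod_cast ha
    have h5 : (4 : ℝ) ≤ N := by exact_mod_cast hN4
    linarith
  have hF0 : ∀ m j, j ∉ Z3 N → wv N v j * kp R (30 * m) (r m) j = 0 := by
    intro m j hj
    have h6 : wv N v j = 0 := by
      by_contra h7
      have h8 := (hWv j).2.2.1 h7
      apply hj
      unfold Z3
      rw [mem_Ioc]
      omega
    rw [h6, zero_mul]
  set s := √(N : ℝ) with hs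
  have hs2 : s ^ 2 = N := Real.sq_sqrt hx0.le
  have hs0 : 0 < s := Real.sqrt_pos.2 hx0
  set Bk := C₀ * (1 + Real.log Q) * (6 * L ^ E * (3 * (N : ℝ) ^ 2 / R + 6 * (N : ℝ) ^ 2 / L ^ C' + R * s ^ 3)) with hBk
  have hBk0 : 0 ≤ Bk := by positivity
  have hblock : ∀ i ∈ range I, ∀ l ∈ range I,
      ∑ m ∈ Mo Q, |∑ a ∈ Ioc (2 ^ i) (2 * 2 ^ i), ∑ b ∈ Ioc (2 ^ l) (2 * 2 ^ l),
        α a * β b * (wv N v (a * b) * kp R (30 * m) (r m) (a * b))| ≤ Bk := by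
    intro i _ l _
    have hzero : (∀ m ∈ Mo Q, ∀ a ∈ Ioc (2 ^ i) (2 * 2 ^ i), ∀ b ∈ Ioc (2 ^ l) (2 * 2 ^ l),
        α a * β b * (wv N v (a * b) * kp R (30 * m) (r m) (a * b)) = 0) →
        ∑ m ∈ Mo Q, |∑ a ∈ Ioc (2 ^ i) (2 * 2 ^ i), ∑ b ∈ Ioc (2 ^ l) (2 * 2 ^ l),
        α a * β b * (wv N v (a * b) * kp R (30 * m) (r m) (a * b))| ≤ Bk := by
      intro h3
      refine le_trans (le_of_eq (sum_eq_zero fun m hm => ?_)) hBk0
      rw [abs_eq_zero]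
      exact sum_eq_zero fun a ha => sum_eq_zero fun b hb => h3 m hm a ha b hb
    by_cases hMK : 8 * N ^ 3 < 2 ^ i * 2 ^ l
    · apply hzero
      intro m _ a ha b hb
      rw [mem_Ioc] at ha hb
      have h4 : 2 ^ i * 2 ^ l ≤ a * b := Nat.mul_le_mul ha.1.le hb.1.le
      have h5 : wv N v (a * b) = 0 := by
        by_contra h7
        have h8 := ((hWv (a * b)).2.2.1 h7).2
        omega
      rw [h5, zero_mul, mul_zero]
    rw [not_lt] at hMK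
    by_cases hM : ((2 * 2 ^ i : ℕ) : ℝ) < N * L ^ (2 * C')
    · apply hzero
      intro m _ a ha b _
      rw [mem_Ioc] at ha
      have h4 : α a = 0 := by
        by_contra h
        have h5 := hα a h
        have h6 : (a : ℝ) ≤ ((2 * 2 ^ i : ℕ) : ℝ) := by exact_mod_cast ha.2
        linarith
      rw [h4]; ring
    by_cases hK : ((2 * 2 ^ l : ℕ) : ℝ) < N * L ^ (2 * C')
    · apply hzero
      intro m _ a _ b hb
      rw [mem_Ioc] at hb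
      have h4 : β b = 0 := by
        by_contra h
        have h5 := hβ b h
        have h6 : (b : ℝ) ≤ ((2 * 2 ^ l : ℕ) : ℝ) := by exact_mod_cast hb.2
        linarith
      rw [h4]; ring
    rw [not_lt] at hM hK
    have h5 := hB N Q v R r α β (2 ^ i) (2 ^ l) (by omega) hQ1 hR1 Nat.one_le_two_pow Nat.one_le_two_pow
    have h6 : ∑ m ∈ Mo Q, |∑ a ∈ Ioc (2 ^ i) (2 * 2 ^ i), ∑ b ∈ Ioc (2 ^ l) (2 * 2 ^ l),
        α a * β b * (wv N v (a * b) * kp R (30 * m) (r m) (a * b))| ≤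
        C₀ * (1 + Real.log Q) / R * √((((2 ^ i : ℕ) : ℝ) / N + (R : ℝ) ^ 2) * (((2 ^ l : ℕ) : ℝ) / N + (R : ℝ) ^ 2) *
      (∑ a ∈ Ioc (2 ^ i) (2 * 2 ^ i), α a ^ 2) * (∑ b ∈ Ioc (2 ^ l) (2 * 2 ^ l), β b ^ 2)) := h5
    refine h6.trans ?_
    have hMKr : ((2 ^ i : ℕ) : ℝ) * ((2 ^ l : ℕ) : ℝ) ≤ 8 * (N : ℝ) ^ 3 := by exact_mod_cast hMK
    have hMp : (0 : ℝ) < ((2 ^ i : ℕ) : ℝ) := by positivity
    have hKp : (0 : ℝ) < ((2 ^ l : ℕ) : ℝ) := by positivity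
    have hLCp : 0 < L ^ (2 * C') := pow_pos hL0 _
    rw [Nat.cast_mul, Nat.cast_ofNat] at hM hK
    have hMle : ((2 ^ i : ℕ) : ℝ) ≤ 16 * (N : ℝ) ^ 2 / L ^ (2 * C') := by
      rw [le_div_iff₀ hLCp]
      have h7 : ((2 ^ i : ℕ) : ℝ) * (N * L ^ (2 * C')) ≤ 16 * (N : ℝ) ^ 3 := by
        calc ((2 ^ i : ℕ) : ℝ) * (N * L ^ (2 * C')) ≤ ((2 ^ i : ℕ) : ℝ) * (2 * ((2 ^ l : ℕ) : ℝ)) :=
              mul_le_mul_of_nonneg_left hK hMp.le
          _ ≤ 16 * (N : ℝ) ^ 3 := by linarith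
      have h8 : ((2 ^ i : ℕ) : ℝ) * L ^ (2 * C') * N ≤ 16 * (N : ℝ) ^ 2 * N := by
        calc _ = ((2 ^ i : ℕ) : ℝ) * (N * L ^ (2 * C')) := by ring
          _ ≤ 16 * (N : ℝ) ^ 3 := h7
          _ = _ := by ring
      exact le_of_mul_le_mul_right h8 hx0
    have hKle : ((2 ^ l : ℕ) : ℝ) ≤ 16 * (N : ℝ) ^ 2 / L ^ (2 * C') := by
      rw [le_div_iff₀ hLCp]
      have h7 : ((2 ^ l : ℕ) : ℝ) * (N * L ^ (2 * C')) ≤ 16 * (N : ℝ) ^ 3 := by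
        calc ((2 ^ l : ℕ) : ℝ) * (N * L ^ (2 * C')) ≤ ((2 ^ l : ℕ) : ℝ) * (2 * ((2 ^ i : ℕ) : ℝ)) :=
              mul_le_mul_of_nonneg_left hM hKp.le
          _ ≤ 16 * (N : ℝ) ^ 3 := by linarith
      have h8 : ((2 ^ l : ℕ) : ℝ) * L ^ (2 * C') * N ≤ 16 * (N : ℝ) ^ 2 * N := by
        calc _ = ((2 ^ l : ℕ) : ℝ) * (N * L ^ (2 * C')) := by ring
          _ ≤ 16 * (N : ℝ) ^ 3 := h7
          _ = _ := by ring
      exact le_of_mul_le_mul_right h8 hx0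
    have hsum : ∀ (γ : ℕ → ℝ) (t : ℕ), ((2 ^ t : ℕ) : ℝ) ≤ 16 * (N : ℝ) ^ 2 / L ^ (2 * C') →
        (∀ Y : ℕ, Y ≤ 64 * N ^ 3 → ∑ a ∈ Ioc 0 Y, γ a ^ 2 ≤ Y * L ^ E) →
        0 ≤ ∑ a ∈ Ioc (2 ^ t) (2 * 2 ^ t), γ a ^ 2 ∧
          ∑ a ∈ Ioc (2 ^ t) (2 * 2 ^ t), γ a ^ 2 ≤ 2 * ((2 ^ t : ℕ) : ℝ) * L ^ E := by
      intro γ t ht hγ
      refine ⟨sum_nonneg fun _ _ => sq_nonneg _, ?_⟩
      have h7 : ((2 * 2 ^ t : ℕ) : ℝ) ≤ ((64 * N ^ 3 : ℕ) : ℝ) := by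
        push_cast
        push_cast at ht
        have h8 : 16 * (N : ℝ) ^ 2 / L ^ (2 * C') ≤ 16 * (N : ℝ) ^ 2 := div_le_self (by positivity) hLC1
        have h9 : (N : ℝ) ^ 2 ≤ (N : ℝ) ^ 3 := pow_le_pow_right₀ hx1 (by norm_num)
        linarith
      have h8 := hγ (2 * 2 ^ t) (by exact_mod_cast h7)
      rw [Nat.cast_mul, Nat.cast_ofNat] at h8
      refine le_trans (sum_le_sum_of_subset_of_nonneg ?_ fun _ _ _ => sq_nonneg _) h8
      exact Ioc_subset_Ioc_left (Nat.zero_le _)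
    obtain ⟨hSa0, hSa⟩ := hsum α i hMle hα2
    obtain ⟨hSb0, hSb⟩ := hsum β l hKle hβ2
    have h7 := BIM_num N s L R ((2 ^ i : ℕ) : ℝ) ((2 ^ l : ℕ) : ℝ) _ _ C' E hs2 hs0 hL1 hR1' hMp.le hKp.le hMKr hMle hKle
      hSa0 hSb0 hSa hSb
    have h8 := mul_le_mul_of_nonneg_left h7 (show 0 ≤ C₀ * (1 + Real.log Q) by positivity)
    refine le_trans (le_of_eq ?_) h8
    ring
  have hone : ∀ m ∈ Mo Q, |∑ j ∈ Z3 N, cvl α β j * wv N v j * kp R (30 * m) (r m) j| ≤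
      ∑ i ∈ range I, ∑ l ∈ range I, |∑ a ∈ Ioc (2 ^ i) (2 * 2 ^ i), ∑ b ∈ Ioc (2 ^ l) (2 * 2 ^ l),
        α a * β b * (wv N v (a * b) * kp R (30 * m) (r m) (a * b))| := by
    intro m _
    have h3 : ∑ j ∈ Z3 N, cvl α β j * wv N v j * kp R (30 * m) (r m) j =
        ∑ j ∈ Z3 N, cvl α β j * (wv N v j * kp R (30 * m) (r m) j) :=
      sum_congr rfl fun j _ => by ring
    rw [h3, BIM_pairs N I h2I α β (fun j => wv N v j * kp R (30 * m) (r m) j) hα0 hβ0 (hF0 m),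
      BIM_dyadic]
    refine (abs_sum_le_sum_abs _ _).trans (sum_le_sum fun i _ => ?_)
    rw [sum_congr rfl (fun a _ => BIM_dyadic _ I), sum_comm]
    exact abs_sum_le_sum_abs _ _
  calc ∑ m ∈ Mo Q, |∑ j ∈ Z3 N, cvl α β j * wv N v j * kp R (30 * m) (r m) j|
      ≤ ∑ m ∈ Mo Q, ∑ i ∈ range I, ∑ l ∈ range I, |∑ a ∈ Ioc (2 ^ i) (2 * 2 ^ i), ∑ b ∈ Ioc (2 ^ l) (2 * 2 ^ l),
        α a * β b * (wv N v (a * b) * kp R (30 * m) (r m) (a * b))| := sum_le_sum hone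
    _ = ∑ i ∈ range I, ∑ l ∈ range I, ∑ m ∈ Mo Q, |∑ a ∈ Ioc (2 ^ i) (2 * 2 ^ i), ∑ b ∈ Ioc (2 ^ l) (2 * 2 ^ l),
        α a * β b * (wv N v (a * b) * kp R (30 * m) (r m) (a * b))| := by
        rw [sum_comm]
        exact sum_congr rfl fun i _ => sum_comm
    _ ≤ ∑ i ∈ range I, ∑ l ∈ range I, Bk := sum_le_sum fun i hi => sum_le_sum fun l hl => hblock i hi l hl
    _ = (I : ℝ) * (I * Bk) := by simp only [sum_const, card_range, nsmul_eq_mul]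
    _ ≤ (6 * L) * ((6 * L) * Bk) := by gcongr
    _ ≤ (6 * L) * ((6 * L) * (C₀ * (2 * L) * (6 * L ^ E * (3 * (N : ℝ) ^ 2 / L ^ C' + 6 * (N : ℝ) ^ 2 / L ^ C' +
          30 * ((N : ℝ) ^ 2 / (N : ℝ) ^ ε))))) := by
        rw [hBk]
        have h3 : (R : ℝ) * s ^ 3 ≤ 30 * ((N : ℝ) ^ 2 / (N : ℝ) ^ ε) := by
          have e1 : s ^ 3 = (N : ℝ) ^ (3 / 2 : ℝ) := by
            rw [hs, Real.sqrt_eq_rpow, ← Real.rpow_natCast, ← Real.rpow_mul hx0.le]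
            norm_num
          have e2 : (N : ℝ) ^ (49 / 100 : ℝ) * s ^ 3 = (N : ℝ) ^ 2 / (N : ℝ) ^ ε := by
            have e3 : (N : ℝ) ^ 2 = (N : ℝ) ^ (2 : ℝ) := by norm_num
            rw [e1, e3, ← Real.rpow_sub hx0, ← Real.rpow_add hx0, hεd]
            congr 1
            norm_num
          calc (R : ℝ) * s ^ 3 ≤ (N : ℝ) ^ (49 / 100 : ℝ) * s ^ 3 := mul_le_mul_of_nonneg_right hRU (by positivity)
            _ = (N : ℝ) ^ 2 / (N : ℝ) ^ ε := e2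
            _ ≤ 30 * ((N : ℝ) ^ 2 / (N : ℝ) ^ ε) := by
              have : 0 ≤ (N : ℝ) ^ 2 / (N : ℝ) ^ ε := by positivity
              linarith
        have h4 : 3 * (N : ℝ) ^ 2 / R ≤ 3 * (N : ℝ) ^ 2 / L ^ C' :=
          div_le_div_of_nonneg_left (by positivity) (pow_pos hL0 _) hRL
        gcongr
        linarith
    _ = 3888 * C₀ * (N : ℝ) ^ 2 * L ^ (E + 3) / L ^ C' + 12960 * C₀ * L ^ (E + 3) * ((N : ℝ) ^ 2 / (N : ℝ) ^ ε) := by
        ring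
    _ ≤ (N : ℝ) ^ 2 / L ^ A / 2 + (N : ℝ) ^ 2 / L ^ A / 2 := by
        refine add_le_add ?_ ?_
        · have h6 : L ^ C' = L ^ A * L ^ (E + 3) * L := by rw [hC']; ring
          have hp2 : 0 < L ^ (E + 3) := pow_pos hL0 _
          rw [h6, div_div, div_le_div_iff₀ (by positivity) (by positivity)]
          have h7 : 7776 * C₀ ≤ L := by linarith
          calc 3888 * C₀ * (N : ℝ) ^ 2 * L ^ (E + 3) * (L ^ A * 2) =
                (N : ℝ) ^ 2 * (L ^ A * L ^ (E + 3)) * (7776 * C₀) := by ring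
            _ ≤ (N : ℝ) ^ 2 * (L ^ A * L ^ (E + 3)) * L := mul_le_mul_of_nonneg_left h7 (by positivity)
            _ = _ := by ring
        · have hNp : 0 < (N : ℝ) ^ ε := Real.rpow_pos_of_pos hx0 _
          rw [← mul_div_assoc, div_div, div_le_div_iff₀ hNp (by positivity)]
          have h7 : 12960 * C₀ * L ^ (E + 3) * (N : ℝ) ^ 2 * (L ^ A * 2) =
              (N : ℝ) ^ 2 * (25920 * C₀ * L ^ (A + E + 3)) := by ring
          rw [h7]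
          exact mul_le_mul_of_nonneg_left hP (by positivity)
    _ = (N : ℝ) ^ 2 / L ^ A := by ring

end Pool.Agent.XE
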