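import Pool.Agent.helper15.XE.SpecL

/-! # Row xe:BLM (MP_5628fe_nt) -/

set_option autoImplicit false

namespace Pool.Agent.XE

open Finset ArithmeticFunction
open Pool.Agent.EC (cvl)
open Pool.Agent.CH (Mo)
open GD (kp)

private lemma BLM_pow (a : ℕ) (c η : ℝ) (hη : 0 < η) : ∃ N₀ : ℕ, ∀ N : ℕ, N₀ ≤ N →
    c * Real.log N ^ a ≤ (N : ℝ) ^ η := by
  have h1 := isLittleO_log_rpow_rpow_atTop (a : ℝ) hη
  have h2 := h1.bound (show (0 : ℝ) < 1 / (|c| + 1) by positivity)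
  have h3 := (tendsto_natCast_atTop_atTop (R := ℝ)).eventually h2
  obtain ⟨N₀, hN₀⟩ := Filter.eventually_atTop.1 h3
  refine ⟨max N₀ 1, fun N hN => ?_⟩
  have h4 := hN₀ N (le_trans (le_max_left _ _) hN)
  have hN1 : (1 : ℝ) ≤ N := by exact_mod_cast le_trans (le_max_right _ _) hN
  have hL : 0 ≤ Real.log N := Real.log_nonneg hN1
  rw [Real.rpow_natCast, Real.norm_of_nonneg (pow_nonneg hL a),
    Real.norm_of_nonneg (Real.rpow_nonneg (by positivity) η)] at h4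
  have h5 : c * Real.log N ^ a ≤ (|c| + 1) * Real.log N ^ a :=
    mul_le_mul_of_nonneg_right (by linarith [le_abs_self c]) (pow_nonneg hL a)
  refine h5.trans ?_
  rw [one_div, ← div_eq_inv_mul, le_div_iff₀ (by positivity)] at h4
  linarith

private lemma BLM_dyadic (g : ℕ → ℝ) (I : ℕ) :
    ∑ a ∈ Ioc 1 (2 ^ I), g a = ∑ i ∈ range I, ∑ a ∈ Ioc (2 ^ i) (2 * 2 ^ i), g a := by
  induction I with
  | zero => simp
  | succ I ih =>
    rw [sum_range_succ, ← ih, pow_succ, mul_comm (2 ^ I) 2]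
    exact (sum_Ioc_consecutive g (Nat.one_le_two_pow) (by omega)).symm

private lemma BLM_large (Q : ℝ) (R m a j : ℕ) (hm : 0 < m) (hmQ : (m : ℝ) ≤ Q) (hR : 30 * Q ≤ R) :
    kp R (30 * m) a j = 0 := by
  classical
  unfold GD.kp
  have h1 : (univ : Finset (DirichletCharacter ℂ (30 * m))).filter
      (fun χ => R < χ.conductor ∧ χ.conductor ≤ 2 * R) = ∅ := by
    rw [filter_eq_empty_iff]
    rintro χ _ ⟨h2, _⟩
    have h3 : χ.conductor ≤ 30 * m := Nat.le_of_dvd (by omega) χ.conductor_dvd_level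
    have h4 : ((30 * m : ℕ) : ℝ) ≤ R := by push_cast; linarith
    have h5 : 30 * m ≤ R := by exact_mod_cast h4
    omega
  rw [h1, sum_empty]
  simp

private lemma BLM_pairs (N I : ℕ) (hI : 64 * N ^ 3 ≤ 2 ^ I) (α β F : ℕ → ℝ)
    (hα : ∀ a ≤ 1, α a = 0) (hβ : ∀ b ≤ 1, β b = 0) (hF : ∀ j, j ∉ Z3 N → F j = 0) :
    ∑ j ∈ Z3 N, cvl α β j * F j =
      ∑ a ∈ Ioc 1 (2 ^ I), ∑ b ∈ Ioc 1 (2 ^ I), α a * β b * F (a * b) := by
  have h1 : ∑ j ∈ Z3 N, cvl α β j * F j =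
      ∑ j ∈ Z3 N, ∑ w ∈ j.divisorsAntidiagonal, α w.1 * β w.2 * F (w.1 * w.2) := by
    refine sum_congr rfl fun j _ => ?_
    unfold cvl
    rw [sum_mul]
    refine sum_congr rfl fun w hw => ?_
    rw [(Nat.mem_divisorsAntidiagonal.1 hw).1]
  rw [h1, ← sum_product', sum_sigma']
  have hW : ∀ j ∈ Z3 N, 0 < j ∧ j ≤ 2 ^ I := by
    intro j hj
    unfold Z3 at hj
    rw [mem_Ioc] at hj
    exact ⟨by omega, hj.2.trans hI⟩
  have h2 : ∑ w ∈ Ioc 1 (2 ^ I) ×ˢ Ioc 1 (2 ^ I), α w.1 * β w.2 * F (w.1 * w.2) =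
      ∑ w ∈ (Ioc 1 (2 ^ I) ×ˢ Ioc 1 (2 ^ I)).filter (fun w => w.1 * w.2 ∈ Z3 N),
        α w.1 * β w.2 * F (w.1 * w.2) := by
    rw [sum_filter]
    refine sum_congr rfl fun w _ => ?_
    split_ifs with h
    · rfl
    · rw [hF _ h, mul_zero]
  rw [h2]
  have h3 : ∑ x ∈ (Z3 N).sigma fun j => j.divisorsAntidiagonal, α x.2.1 * β x.2.2 * F (x.2.1 * x.2.2) =
      ∑ x ∈ ((Z3 N).sigma fun j => j.divisorsAntidiagonal).filter (fun x => 1 < x.2.1 ∧ 1 < x.2.2),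
        α x.2.1 * β x.2.2 * F (x.2.1 * x.2.2) := by
    rw [sum_filter]
    refine sum_congr rfl fun x _ => ?_
    split_ifs with h
    · rfl
    · rw [not_and_or, not_lt, not_lt] at h
      rcases h with h | h
      · rw [hα _ h]; ring
      · rw [hβ _ h]; ring
  rw [h3]
  refine sum_nbij' (fun x => x.2) (fun w => ⟨w.1 * w.2, w⟩) ?_ ?_ ?_ ?_ ?_
  · rintro ⟨j, w⟩ hx
    simp only [mem_filter, mem_sigma, Nat.mem_divisorsAntidiagonal] at hx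
    simp only [mem_filter, mem_product, mem_Ioc]
    obtain ⟨⟨hj, hw, hj0⟩, h4, h5⟩ := hx
    have h6 := hW j hj
    have h7 : w.1 ≤ j := by rw [← hw]; exact Nat.le_mul_of_pos_right _ (by omega)
    have h8 : w.2 ≤ j := by rw [← hw]; exact Nat.le_mul_of_pos_left _ (by omega)
    exact ⟨⟨⟨h4, h7.trans h6.2⟩, h5, h8.trans h6.2⟩, by rw [hw]; exact hj⟩
  · rintro w hw
    simp only [mem_filter, mem_product, mem_Ioc] at hw
    simp only [mem_filter, mem_sigma, Nat.mem_divisorsAntidiagonal]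
    obtain ⟨⟨⟨h4, _⟩, h5, _⟩, h6⟩ := hw
    exact ⟨⟨h6, trivial, (hW _ h6).1.ne'⟩, h4, h5⟩
  · rintro ⟨j, w⟩ hx
    simp only [mem_filter, mem_sigma, Nat.mem_divisorsAntidiagonal] at hx
    obtain ⟨⟨hj, hw, hj0⟩, h4, h5⟩ := hx
    subst hw
    rfl
  · rintro w _
    rfl
  · rintro ⟨j, w⟩ _
    rfl


/-- one block, numbers only -/
private lemma BLM_num (x G L R M K Sa Sb n : ℝ) (E : ℕ) (hx : 1 ≤ x) (hG : 0 < G) (hL : 1 ≤ L)
    (hR : 1 ≤ R) (hM : 0 ≤ M) (hK : 0 ≤ K) (hMK : M * K ≤ 8 * x ^ 3) (hM2 : M ≤ 4 * G ^ 2)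
    (hK2 : K / x ≤ 16 * G ^ 2) (hR2 : R ≤ 30 * G) (hxR : x ≤ R * G) (hn : 0 ≤ n)
    (hSa0 : 0 ≤ Sa) (hSb0 : 0 ≤ Sb) (hSa : Sa ≤ 2 * M * L ^ E) (hSb : Sb ≤ 2 * K * L ^ E) :
    √((M + R ^ 2) * (K / x + R ^ 2) * n * Sa * Sb) / R ≤ 186 * L ^ E * G * √n * √(x ^ 3) := by
  have hx0 : 0 < x := by linarith
  have hR0 : 0 < R := by linarith
  have hLE : 0 < L ^ E := pow_pos (by linarith) _
  have hKx : 0 ≤ K / x := by positivity
  have h1 : (M + R ^ 2) * (K / x + R ^ 2) ≤ 928 * R ^ 2 * G ^ 2 := by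
    have e1 : M * (K / x) ≤ 8 * (R ^ 2 * G ^ 2) := by
      have e2 : M * (K / x) = M * K / x := by ring
      rw [e2, div_le_iff₀ hx0]
      have e3 : x ^ 2 ≤ (R * G) ^ 2 := pow_le_pow_left₀ hx0.le hxR 2
      calc M * K ≤ 8 * x ^ 3 := hMK
        _ = 8 * x ^ 2 * x := by ring
        _ ≤ 8 * (R * G) ^ 2 * x := by gcongr
        _ = 8 * (R ^ 2 * G ^ 2) * x := by ring
    have e2 : M * R ^ 2 ≤ 4 * G ^ 2 * R ^ 2 := mul_le_mul_of_nonneg_right hM2 (by positivity)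
    have e3 : R ^ 2 * (K / x) ≤ R ^ 2 * (16 * G ^ 2) := mul_le_mul_of_nonneg_left hK2 (by positivity)
    have e4 : R ^ 2 * R ^ 2 ≤ R ^ 2 * (30 * G) ^ 2 :=
      mul_le_mul_of_nonneg_left (pow_le_pow_left₀ hR0.le hR2 2) (by positivity)
    calc (M + R ^ 2) * (K / x + R ^ 2) = M * (K / x) + M * R ^ 2 + R ^ 2 * (K / x) + R ^ 2 * R ^ 2 := by ring
      _ ≤ 8 * (R ^ 2 * G ^ 2) + 4 * G ^ 2 * R ^ 2 + R ^ 2 * (16 * G ^ 2) + R ^ 2 * (30 * G) ^ 2 := by linarith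
      _ = 928 * R ^ 2 * G ^ 2 := by ring
  have h2 : Sa * Sb ≤ 32 * x ^ 3 * (L ^ E) ^ 2 := by
    calc Sa * Sb ≤ (2 * M * L ^ E) * (2 * K * L ^ E) := mul_le_mul hSa hSb hSb0 (by positivity)
      _ = 4 * (L ^ E) ^ 2 * (M * K) := by ring
      _ ≤ 4 * (L ^ E) ^ 2 * (8 * x ^ 3) := mul_le_mul_of_nonneg_left hMK (by positivity)
      _ = _ := by ring
  set T := 186 * L ^ E * G * R * √n * √(x ^ 3) with hT
  have hT0 : 0 ≤ T := by positivity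
  have hn2 : √n ^ 2 = n := Real.sq_sqrt hn
  have hx32 : √(x ^ 3) ^ 2 = x ^ 3 := Real.sq_sqrt (by positivity)
  have h3 : (M + R ^ 2) * (K / x + R ^ 2) * n * Sa * Sb ≤ T ^ 2 := by
    calc (M + R ^ 2) * (K / x + R ^ 2) * n * Sa * Sb
        = n * (((M + R ^ 2) * (K / x + R ^ 2)) * (Sa * Sb)) := by ring
      _ ≤ n * ((928 * R ^ 2 * G ^ 2) * (32 * x ^ 3 * (L ^ E) ^ 2)) := by
          refine mul_le_mul_of_nonneg_left ?_ hn
          exact mul_le_mul h1 h2 (mul_nonneg hSa0 hSb0) (by positivity)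
      _ = 29696 * (n * x ^ 3 * (L ^ E * G * R) ^ 2) := by ring
      _ ≤ 34596 * (n * x ^ 3 * (L ^ E * G * R) ^ 2) := by
          refine mul_le_mul_of_nonneg_right (by norm_num) (by positivity)
      _ = (186 * L ^ E * G * R) ^ 2 * (√n ^ 2 * √(x ^ 3) ^ 2) := by rw [hn2, hx32]; ring
      _ = T ^ 2 := by rw [hT]; ring
  have h4 : √((M + R ^ 2) * (K / x + R ^ 2) * n * Sa * Sb) ≤ T := by
    rw [← Real.sqrt_sq hT0]
    exact Real.sqrt_le_sqrt h3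
  calc √((M + R ^ 2) * (K / x + R ^ 2) * n * Sa * Sb) / R ≤ T / R := div_le_div_of_nonneg_right h4 hR0.le
    _ = 186 * L ^ E * G * √n * √(x ^ 3) := by
      rw [hT]
      field_simp

theorem BLM (h1 : BIV_stmt) (h2 : WVB_stmt) : BLM_stmt := by
  classical
  intro E
  obtain ⟨C₀, hC₀, hB⟩ := h1
  obtain ⟨N₁, hN₁, hW⟩ := h2
  obtain ⟨N₂, hN₂⟩ := BLM_pow (E + 3) (13392 * C₀) ((2 - 1 / 10000) - (333 / 400 + 3 / 2 - 1 / 3)) (by norm_num)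
  refine ⟨max N₁ (max N₂ (max 16 ⌈Real.exp 10⌉₊)), fun N hN' V hAV r R hRL α β hα hβ hα2 hβ2 => ?_⟩
  have hN1 : N₁ ≤ N := le_trans (le_max_left _ _) hN'
  have hN : max N₂ (max 16 ⌈Real.exp 10⌉₊) ≤ N := le_trans (le_max_right _ _) hN'
  have hNa : N₂ ≤ N := le_trans (le_max_left _ _) hN
  have hN4 : 16 ≤ N := le_trans (le_trans (le_max_left _ _) (le_max_right _ _)) hN
  have hNe : ⌈Real.exp 10⌉₊ ≤ N := le_trans (le_trans (le_max_right _ _) (le_max_right _ _)) hN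
  obtain ⟨hV1, hV2, hV3⟩ := hAV
  have hWv := ((hW N hN1).2 V hV1 hV2).2
  have hx1 : (1 : ℝ) ≤ (N : ℝ) := by exact_mod_cast (by omega : 1 ≤ N)
  have hx0 : (0 : ℝ) < (N : ℝ) := by linarith
  have hL : 10 ≤ Real.log N := by
    rw [Real.le_log_iff_exp_le hx0]
    exact le_trans (Nat.le_ceil _) (by exact_mod_cast hNe)
  have hP := hN₂ N hNa
  set L := Real.log N with hLdef
  have hL1 : 1 ≤ L := by linarith
  have hL0 : 0 < L := by linarith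
  set Q := QV N with hQdef
  have hQ1 : 1 ≤ Q := Real.one_le_rpow hx1 (by norm_num)
  have hQx : Q ≤ N := by
    calc Q ≤ (N : ℝ) ^ (1 : ℝ) := Real.rpow_le_rpow_of_exponent_le hx1 (by norm_num)
      _ = N := Real.rpow_one _
  have hlogQ0 : 0 ≤ Real.log Q := Real.log_nonneg hQ1
  have hlogQ : Real.log Q ≤ L := Real.log_le_log (by linarith) hQx
  have hMo : ∀ m ∈ Mo Q, 1 ≤ m ∧ (m : ℝ) ≤ Q := by
    intro m hm
    unfold Mo at hm
    rw [mem_filter, mem_Icc] at hm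
    exact ⟨hm.1.1, (Nat.le_floor_iff (by linarith)).1 hm.1.2⟩
  by_cases hRQ : 30 * Q ≤ R
  · have h3 : ∑ m ∈ Mo Q, |∑ j ∈ Z3 N, cvl α β j * fV N V j * kp R (30 * m) (r m) j| = 0 := by
      refine sum_eq_zero fun m hm => ?_
      rw [abs_eq_zero]
      refine sum_eq_zero fun j _ => ?_
      rw [BLM_large Q R m (r m) j (hMo m hm).1 (hMo m hm).2 hRQ, mul_zero]
    rw [h3]
    positivity
  rw [not_le] at hRQ
  have hR1' : (1 : ℝ) ≤ (R : ℝ) := le_trans (Real.one_le_rpow hx1 (by norm_num)) hRL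
  have hR1 : 1 ≤ R := by exact_mod_cast hR1'
  -- dyadic
  set I := Nat.clog 2 (64 * N ^ 3) with hI
  have h2I : 64 * N ^ 3 ≤ 2 ^ I := Nat.le_pow_clog (by norm_num) _
  have hIL : (I : ℝ) ≤ 6 * L := by
    have hpos : 1 < 64 * N ^ 3 := by
      have : 1 ≤ N ^ 3 := Nat.one_le_pow _ _ (by omega)
      omega
    have h3 : 2 ^ (I - 1) < 64 * N ^ 3 := Nat.pow_pred_clog_lt_self (by norm_num) hpos
    have hIp : 0 < I := Nat.clog_pos (by norm_num) (by omega)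
    have h4 : ((2 : ℝ)) ^ (I - 1) < 64 * (N : ℝ) ^ 3 := by exact_mod_cast h3
    have h5 := Real.log_lt_log (by positivity) h4
    rw [Real.log_pow, Real.log_mul (by norm_num) (by positivity), Real.log_pow,
      show (64 : ℝ) = 2 ^ 6 by norm_num, Real.log_pow] at h5
    have h6 := Real.log_two_gt_d9
    have h7 := Real.log_two_lt_d9
    have h8 : ((I - 1 : ℕ) : ℝ) = (I : ℝ) - 1 := by
      rw [Nat.cast_sub hIp]; norm_num
    rw [h8] at h5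
    push_cast at h5
    rw [← hLdef] at h5
    nlinarith
  set t := (N : ℝ) ^ (67 / 200 : ℝ) with ht
  have ht0 : 0 < t := Real.rpow_pos_of_pos hx0 _
  have ht2 : 2 ≤ t := by
    have e1 : (2 : ℝ) ^ (1 : ℝ) ≤ (16 : ℝ) ^ (67 / 200 : ℝ) := by
      rw [show (16 : ℝ) = (2 : ℝ) ^ (4 : ℝ) by norm_num, ← Real.rpow_mul (by norm_num)]
      exact Real.rpow_le_rpow_of_exponent_le (by norm_num) (by norm_num)
    rw [Real.rpow_one] at e1
    refine e1.trans ?_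
    exact Real.rpow_le_rpow (by norm_num) (by exact_mod_cast hN4) (by norm_num)
  have hα0 : ∀ a ≤ 1, α a = 0 := by
    intro a ha
    by_contra h
    have h3 := hα a h
    have h4 : (a : ℝ) ≤ 1 := by exact_mod_cast ha
    linarith
  have hβ0 : ∀ a ≤ 1, β a = 0 := by
    intro a ha
    by_contra h
    have h3 := hβ a h
    have h4 : (a : ℝ) ≤ 1 := by exact_mod_cast ha
    linarith
  have hF0 : ∀ m j, j ∉ Z3 N → fV N V j * kp R (30 * m) (r m) j = 0 := by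
    intro m j hj
    have h6 : fV N V j = 0 := by
      by_contra h7
      have h8 := (hWv j).2.2 h7
      apply hj
      unfold Z3
      rw [mem_Ioc]
      omega
    rw [h6, zero_mul]
  set G := (N : ℝ) ^ (333 / 400 : ℝ) with hG
  have hG0 : 0 < G := Real.rpow_pos_of_pos hx0 _
  have hG2 : G ^ 2 = (N : ℝ) ^ (333 / 200 : ℝ) := by
    rw [hG, ← Real.rpow_natCast, ← Real.rpow_mul hx0.le]
    norm_num
  have hRG : (R : ℝ) ≤ 30 * G := by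
    have : Q ≤ G := Real.rpow_le_rpow_of_exponent_le hx1 (by norm_num)
    linarith
  have hxRG : (N : ℝ) ≤ R * G := by
    have e1 : (N : ℝ) = (N : ℝ) ^ (49 / 100 : ℝ) * (N : ℝ) ^ (51 / 100 : ℝ) := by
      rw [← Real.rpow_add hx0]
      norm_num
    have e2 : (N : ℝ) ^ (51 / 100 : ℝ) ≤ G := Real.rpow_le_rpow_of_exponent_le hx1 (by norm_num)
    calc (N : ℝ) = (N : ℝ) ^ (49 / 100 : ℝ) * (N : ℝ) ^ (51 / 100 : ℝ) := e1
      _ ≤ R * G := mul_le_mul hRL e2 (by positivity) (by positivity)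
  set n : ℝ := (#V : ℝ) with hn
  have hn0 : 0 ≤ n := Nat.cast_nonneg _
  set Bk := C₀ * (1 + Real.log Q) * (186 * L ^ E * G * √n * √((N : ℝ) ^ 3)) with hBk
  have hBk0 : 0 ≤ Bk := by positivity
  -- one block, first variable the shorter one
  have hcore : ∀ α β : ℕ → ℝ, (∀ Y : ℕ, Y ≤ 64 * N ^ 3 → ∑ a ∈ Ioc 0 Y, α a ^ 2 ≤ Y * L ^ E) →
      (∀ Y : ℕ, Y ≤ 64 * N ^ 3 → ∑ b ∈ Ioc 0 Y, β b ^ 2 ≤ Y * L ^ E) →
      ∀ i l : ℕ, 2 ^ i * 2 ^ l ≤ 8 * N ^ 3 → 2 ^ i ≤ 2 ^ l → t ≤ 2 * ((2 ^ i : ℕ) : ℝ) →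
      ∑ m ∈ Mo Q, |∑ a ∈ Ioc (2 ^ i) (2 * 2 ^ i), ∑ b ∈ Ioc (2 ^ l) (2 * 2 ^ l),
        α a * β b * (fV N V (a * b) * kp R (30 * m) (r m) (a * b))| ≤ Bk := by
    intro α β hα2 hβ2 i l hMK hil hM
    have h5 := hB N Q V R r α β (2 ^ i) (2 ^ l) (by omega) hQ1 hV2 hR1 Nat.one_le_two_pow Nat.one_le_two_pow
    refine h5.trans ?_
    have hMKr : ((2 ^ i : ℕ) : ℝ) * ((2 ^ l : ℕ) : ℝ) ≤ 8 * (N : ℝ) ^ 3 := by exact_mod_cast hMK
    have hilr : ((2 ^ i : ℕ) : ℝ) ≤ ((2 ^ l : ℕ) : ℝ) := by exact_mod_cast hil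
    have hMp : (1 : ℝ) ≤ ((2 ^ i : ℕ) : ℝ) := by exact_mod_cast Nat.one_le_two_pow
    have hKp : (1 : ℝ) ≤ ((2 ^ l : ℕ) : ℝ) := by exact_mod_cast Nat.one_le_two_pow
    have hMle : ((2 ^ i : ℕ) : ℝ) ≤ 4 * G ^ 2 := by
      have e1 : ((2 ^ i : ℕ) : ℝ) ^ 2 ≤ (4 * G ^ 2) ^ 2 := by
        have e2 : (N : ℝ) ^ 3 ≤ (G ^ 2) ^ 2 := by
          rw [hG2, ← Real.rpow_natCast, ← Real.rpow_natCast, ← Real.rpow_mul hx0.le]
          exact Real.rpow_le_rpow_of_exponent_le hx1 (by norm_num)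
        calc ((2 ^ i : ℕ) : ℝ) ^ 2 = ((2 ^ i : ℕ) : ℝ) * ((2 ^ i : ℕ) : ℝ) := by ring
          _ ≤ ((2 ^ i : ℕ) : ℝ) * ((2 ^ l : ℕ) : ℝ) := mul_le_mul_of_nonneg_left hilr (by linarith)
          _ ≤ 8 * (N : ℝ) ^ 3 := hMKr
          _ ≤ 8 * (G ^ 2) ^ 2 := by linarith
          _ ≤ (4 * G ^ 2) ^ 2 := by nlinarith [sq_nonneg (G ^ 2)]
      exact (pow_le_pow_iff_left₀ (by linarith) (by positivity) two_ne_zero).1 e1
    have hKx : ((2 ^ l : ℕ) : ℝ) / N ≤ 16 * G ^ 2 := by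
      rw [div_le_iff₀ hx0]
      have e1 : t * (16 * G ^ 2 * N) = 16 * (N : ℝ) ^ 3 := by
        rw [hG2, ht]
        have e2 : (N : ℝ) ^ (3 : ℕ) = (N : ℝ) ^ (67 / 200 : ℝ) * ((N : ℝ) ^ (333 / 200 : ℝ) * N) := by
          have e3 : (N : ℝ) ^ (333 / 200 : ℝ) * (N : ℝ) = (N : ℝ) ^ (333 / 200 + 1 : ℝ) := by
            rw [Real.rpow_add hx0, Real.rpow_one]
          rw [e3, ← Real.rpow_add hx0, ← Real.rpow_natCast]
          norm_num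
        rw [e2]
        ring
      have e4 : t * ((2 ^ l : ℕ) : ℝ) ≤ t * (16 * G ^ 2 * N) := by
        rw [e1]
        calc t * ((2 ^ l : ℕ) : ℝ) ≤ 2 * ((2 ^ i : ℕ) : ℝ) * ((2 ^ l : ℕ) : ℝ) :=
              mul_le_mul_of_nonneg_right hM (by linarith)
          _ ≤ 16 * (N : ℝ) ^ 3 := by linarith
      exact le_of_mul_le_mul_left e4 ht0
    have hsum : ∀ (γ : ℕ → ℝ) (k : ℕ), 2 ^ k ≤ 8 * N ^ 3 →
        (∀ Y : ℕ, Y ≤ 64 * N ^ 3 → ∑ a ∈ Ioc 0 Y, γ a ^ 2 ≤ Y * L ^ E) →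
        0 ≤ ∑ a ∈ Ioc (2 ^ k) (2 * 2 ^ k), γ a ^ 2 ∧
          ∑ a ∈ Ioc (2 ^ k) (2 * 2 ^ k), γ a ^ 2 ≤ 2 * ((2 ^ k : ℕ) : ℝ) * L ^ E := by
      intro γ k hk hγ
      refine ⟨sum_nonneg fun _ _ => sq_nonneg _, ?_⟩
      have h8 := hγ (2 * 2 ^ k) (by omega)
      rw [Nat.cast_mul, Nat.cast_ofNat] at h8
      refine le_trans (sum_le_sum_of_subset_of_nonneg ?_ fun _ _ _ => sq_nonneg _) h8
      exact Ioc_subset_Ioc_left (Nat.zero_le _)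
    have hi8 : 2 ^ i ≤ 8 * N ^ 3 := by
      have : 1 ≤ 2 ^ l := Nat.one_le_two_pow
      calc 2 ^ i = 2 ^ i * 1 := by ring
        _ ≤ 2 ^ i * 2 ^ l := Nat.mul_le_mul_left _ this
        _ ≤ _ := hMK
    have hl8 : 2 ^ l ≤ 8 * N ^ 3 := by
      have : 1 ≤ 2 ^ i := Nat.one_le_two_pow
      calc 2 ^ l = 1 * 2 ^ l := by ring
        _ ≤ 2 ^ i * 2 ^ l := Nat.mul_le_mul_right _ this
        _ ≤ _ := hMK
    obtain ⟨hSa0, hSa⟩ := hsum α i hi8 hα2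
    obtain ⟨hSb0, hSb⟩ := hsum β l hl8 hβ2
    have h7 := BLM_num N G L R ((2 ^ i : ℕ) : ℝ) ((2 ^ l : ℕ) : ℝ) _ _ n E hx1 hG0 hL1 hR1' (by linarith)
      (by linarith) hMKr hMle hKx hRG hxRG hn0 hSa0 hSb0 hSa hSb
    have h8 := mul_le_mul_of_nonneg_left h7 (show 0 ≤ C₀ * (1 + Real.log Q) by positivity)
    refine le_trans (le_of_eq ?_) h8
    ring
  have hblock : ∀ i ∈ range I, ∀ l ∈ range I,
      ∑ m ∈ Mo Q, |∑ a ∈ Ioc (2 ^ i) (2 * 2 ^ i), ∑ b ∈ Ioc (2 ^ l) (2 * 2 ^ l),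
        α a * β b * (fV N V (a * b) * kp R (30 * m) (r m) (a * b))| ≤ Bk := by
    intro i _ l _
    have hzero : (∀ m ∈ Mo Q, ∀ a ∈ Ioc (2 ^ i) (2 * 2 ^ i), ∀ b ∈ Ioc (2 ^ l) (2 * 2 ^ l),
        α a * β b * (fV N V (a * b) * kp R (30 * m) (r m) (a * b)) = 0) →
        ∑ m ∈ Mo Q, |∑ a ∈ Ioc (2 ^ i) (2 * 2 ^ i), ∑ b ∈ Ioc (2 ^ l) (2 * 2 ^ l),
        α a * β b * (fV N V (a * b) * kp R (30 * m) (r m) (a * b))| ≤ Bk := by
      intro h3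
      refine le_trans (le_of_eq (sum_eq_zero fun m hm => ?_)) hBk0
      rw [abs_eq_zero]
      exact sum_eq_zero fun a ha => sum_eq_zero fun b hb => h3 m hm a ha b hb
    by_cases hMK : 8 * N ^ 3 < 2 ^ i * 2 ^ l
    · apply hzero
      intro m _ a ha b hb
      rw [mem_Ioc] at ha hb
      have h4 : 2 ^ i * 2 ^ l ≤ a * b := Nat.mul_le_mul ha.1.le hb.1.le
      have h5 : fV N V (a * b) = 0 := by
        by_contra h7
        have h8 := ((hWv (a * b)).2.2 h7).2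
        omega
      rw [h5, zero_mul, mul_zero]
    rw [not_lt] at hMK
    by_cases hM : ((2 * 2 ^ i : ℕ) : ℝ) < t
    · apply hzero
      intro m _ a ha b _
      rw [mem_Ioc] at ha
      have h4 : α a = 0 := by
        by_contra h
        have h5 := hα a h
        have h6 : (a : ℝ) ≤ ((2 * 2 ^ i : ℕ) : ℝ) := by exact_mod_cast ha.2
        linarith
      rw [h4]; ring
    by_cases hK : ((2 * 2 ^ l : ℕ) : ℝ) < t
    · apply hzero
      intro m _ a _ b hb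
      rw [mem_Ioc] at hb
      have h4 : β b = 0 := by
        by_contra h
        have h5 := hβ b h
        have h6 : (b : ℝ) ≤ ((2 * 2 ^ l : ℕ) : ℝ) := by exact_mod_cast hb.2
        linarith
      rw [h4]; ring
    rw [not_lt] at hM hK
    rw [Nat.cast_mul, Nat.cast_ofNat] at hM hK
    rcases le_total (2 ^ i) (2 ^ l) with hil | hil
    · exact hcore α β hα2 hβ2 i l hMK hil hM
    · have h9 := hcore β α hβ2 hα2 l i (by rw [mul_comm]; exact hMK) hil hK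
      refine le_trans (le_of_eq ?_) h9
      refine sum_congr rfl fun m _ => ?_
      rw [sum_comm]
      congr 1
      refine sum_congr rfl fun b _ => sum_congr rfl fun a _ => ?_
      rw [mul_comm a b]
      ring
  have hone : ∀ m ∈ Mo Q, |∑ j ∈ Z3 N, cvl α β j * fV N V j * kp R (30 * m) (r m) j| ≤
      ∑ i ∈ range I, ∑ l ∈ range I, |∑ a ∈ Ioc (2 ^ i) (2 * 2 ^ i), ∑ b ∈ Ioc (2 ^ l) (2 * 2 ^ l),
        α a * β b * (fV N V (a * b) * kp R (30 * m) (r m) (a * b))| := by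
    intro m _
    have h3 : ∑ j ∈ Z3 N, cvl α β j * fV N V j * kp R (30 * m) (r m) j =
        ∑ j ∈ Z3 N, cvl α β j * (fV N V j * kp R (30 * m) (r m) j) :=
      sum_congr rfl fun j _ => by ring
    rw [h3, BLM_pairs N I h2I α β (fun j => fV N V j * kp R (30 * m) (r m) j) hα0 hβ0 (hF0 m),
      BLM_dyadic]
    refine (abs_sum_le_sum_abs _ _).trans (sum_le_sum fun i _ => ?_)
    rw [sum_congr rfl (fun a _ => BLM_dyadic _ I), sum_comm]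
    exact abs_sum_le_sum_abs _ _
  -- `√n ≤ n N^(-1/3)`
  have hsn : √n ≤ n * (N : ℝ) ^ (-(1 / 3) : ℝ) := by
    have e1 : (N : ℝ) ^ (1 / 3 : ℝ) ≤ √n := by
      refine Real.le_sqrt_of_sq_le ?_
      rw [← Real.rpow_natCast, ← Real.rpow_mul hx0.le]
      refine le_trans (le_of_eq ?_) hV3
      norm_num
    have e2 : √n * √n = n := Real.mul_self_sqrt hn0
    have e3 : (N : ℝ) ^ (1 / 3 : ℝ) * (N : ℝ) ^ (-(1 / 3) : ℝ) = 1 := by
      rw [← Real.rpow_add hx0]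
      norm_num
    calc √n = √n * ((N : ℝ) ^ (1 / 3 : ℝ) * (N : ℝ) ^ (-(1 / 3) : ℝ)) := by rw [e3, mul_one]
      _ = √n * (N : ℝ) ^ (1 / 3 : ℝ) * (N : ℝ) ^ (-(1 / 3) : ℝ) := by ring
      _ ≤ √n * √n * (N : ℝ) ^ (-(1 / 3) : ℝ) := by gcongr
      _ = n * (N : ℝ) ^ (-(1 / 3) : ℝ) := by rw [e2]
  have hs3 : √((N : ℝ) ^ 3) = (N : ℝ) ^ (3 / 2 : ℝ) := by
    rw [Real.sqrt_eq_rpow, ← Real.rpow_natCast, ← Real.rpow_mul hx0.le]
    norm_num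
  calc ∑ m ∈ Mo Q, |∑ j ∈ Z3 N, cvl α β j * fV N V j * kp R (30 * m) (r m) j|
      ≤ ∑ m ∈ Mo Q, ∑ i ∈ range I, ∑ l ∈ range I, |∑ a ∈ Ioc (2 ^ i) (2 * 2 ^ i), ∑ b ∈ Ioc (2 ^ l) (2 * 2 ^ l),
        α a * β b * (fV N V (a * b) * kp R (30 * m) (r m) (a * b))| := sum_le_sum hone
    _ = ∑ i ∈ range I, ∑ l ∈ range I, ∑ m ∈ Mo Q, |∑ a ∈ Ioc (2 ^ i) (2 * 2 ^ i), ∑ b ∈ Ioc (2 ^ l) (2 * 2 ^ l),
        α a * β b * (fV N V (a * b) * kp R (30 * m) (r m) (a * b))| := by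
        rw [sum_comm]
        exact sum_congr rfl fun i _ => sum_comm
    _ ≤ ∑ i ∈ range I, ∑ l ∈ range I, Bk := sum_le_sum fun i hi => sum_le_sum fun l hl => hblock i hi l hl
    _ = (I : ℝ) * (I * Bk) := by simp only [sum_const, card_range, nsmul_eq_mul]
    _ ≤ (6 * L) * ((6 * L) * Bk) := by gcongr
    _ ≤ (6 * L) * ((6 * L) * (C₀ * (2 * L) * (186 * L ^ E * G * (n * (N : ℝ) ^ (-(1 / 3) : ℝ)) *
          (N : ℝ) ^ (3 / 2 : ℝ)))) := by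
        rw [hBk, hs3]
        gcongr
        linarith
    _ = (13392 * C₀ * L ^ (E + 3)) * (n * (G * (N : ℝ) ^ (-(1 / 3) : ℝ) * (N : ℝ) ^ (3 / 2 : ℝ))) := by ring
    _ ≤ (N : ℝ) ^ ((2 - 1 / 10000) - (333 / 400 + 3 / 2 - 1 / 3) : ℝ) *
          (n * (G * (N : ℝ) ^ (-(1 / 3) : ℝ) * (N : ℝ) ^ (3 / 2 : ℝ))) :=
        mul_le_mul_of_nonneg_right hP (by positivity)
    _ = n * (N : ℝ) ^ (2 - 1 / 10000 : ℝ) := by
        rw [hG]
        have e1 : (N : ℝ) ^ (2 - 1 / 10000 : ℝ) =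
            (N : ℝ) ^ ((2 - 1 / 10000) - (333 / 400 + 3 / 2 - 1 / 3) : ℝ) *
              ((N : ℝ) ^ (333 / 400 : ℝ) * (N : ℝ) ^ (-(1 / 3) : ℝ) * (N : ℝ) ^ (3 / 2 : ℝ)) := by
          rw [← Real.rpow_add hx0, ← Real.rpow_add hx0, ← Real.rpow_add hx0]
          congr 1
          ring
        rw [e1]
        ring

end Pool.Agent.XE
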