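import Pool.Agent.helper15.XE.SpecC
import Pool.Agent.helper37.EC.DPR

/-! # Project XE: row DPR (the constant of the switched sets) -/

set_option autoImplicit false

namespace Pool.Agent.XE

open Finset

theorem DPR_lp (f : ℕ → ℕ) (n a : ℕ) : lp f n a = ∑ i ∈ Ico a (a + n), f i := by
  induction n generalizing a with
  | zero => simp [lp]
  | succ n ih =>
    rw [lp, ih, Finset.sum_eq_sum_Ico_succ_bot (show a < a + (n + 1) by omega)]
    congr 2
    congr 1
    omega

/-- the condition on the remaining coordinates -/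
def DPR_c {k : ℕ} (H s x : ℕ) (j : Fin k → ℕ) : Prop := s + ∑ i, j i + x ≤ H ∧ ∀ i, s + ∑ k, j k + j i ≤ H

open Classical in
/-- the sum of the remaining coordinates -/
noncomputable def DPR_B (H y r k s x P : ℕ) : ℝ :=
  ∑ j ∈ (Fintype.piFinset fun _ : Fin k => Ico y H).filter (DPR_c H s x),
    (P : ℝ) * (∏ i, (mN (j i) : ℝ)) * ((H : ℝ) / ((H : ℝ) - ((s + ∑ i, j i : ℕ) : ℝ) - r))

theorem DPR_base (H y r s x P : ℕ) (hy : r < y) (hx : y ≤ x) : DPR_B H y r 0 s x P ≤ (nst H y r 0 s x P : ℝ) := by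
  classical
  unfold DPR_B
  have hn : nst H y r 0 s x P = if Nat.ble (s + x) H then P * H / (H - s - r) + 1 else 0 := rfl
  rw [hn, Finset.sum_filter]
  by_cases h : s + x ≤ H
  · rw [if_pos (Nat.ble_eq_true_of_le h)]
    have h1 : ∀ j ∈ (Fintype.piFinset fun _ : Fin 0 => Ico y H), j = fun i => Fin.elim0 i := by
      intro j _
      funext i
      exact Fin.elim0 i
    have h2 : (Fintype.piFinset fun _ : Fin 0 => Ico y H) = {fun i => Fin.elim0 i} := by
      ext j
      rw [Finset.mem_singleton, Fintype.mem_piFinset]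
      constructor
      · intro _
        funext i
        exact Fin.elim0 i
      · intro _ i
        exact Fin.elim0 i
    rw [h2, Finset.sum_singleton]
    have h3 : DPR_c H s x (fun i : Fin 0 => (Fin.elim0 i : ℕ)) := by
      refine ⟨by simpa using h, fun i => Fin.elim0 i⟩
    rw [if_pos h3]
    simp only [Finset.univ_eq_empty, Finset.prod_empty, Finset.sum_empty, add_zero, mul_one]
    have h4 := Pool.Agent.EC.DPR_div (P * H) (H - s - r) (by omega)
    refine le_trans (le_of_eq ?_) h4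
    rw [Nat.cast_sub (by omega), Nat.cast_sub (by omega)]
    push_cast
    ring
  · have h0 : Nat.ble (s + x) H = false := by
      rw [Bool.eq_false_iff]
      intro h'
      exact h (Nat.le_of_ble_eq_true h')
    rw [h0]
    simp only [Bool.false_eq_true, if_false, Nat.cast_zero]
    refine le_of_eq (Finset.sum_eq_zero fun j _ => ?_)
    rw [if_neg]
    intro h'
    exact h (by have := h'.1; omega)

theorem DPR_cons (r : ℕ) (s : Fin (r + 1) → Finset ℕ) (f : (Fin (r + 1) → ℕ) → ℝ) :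
    ∑ j ∈ Fintype.piFinset s, f j =
      ∑ a ∈ s 0, ∑ j' ∈ Fintype.piFinset (fun i => s i.succ), f (Fin.cons a j') := by
  rw [← Finset.sum_product']
  refine Finset.sum_nbij' (fun j => (j 0, fun i => j i.succ)) (fun p => Fin.cons p.1 p.2) ?_ ?_ ?_ ?_ ?_
  · intro j hj
    rw [Fintype.mem_piFinset] at hj
    rw [Finset.mem_product, Fintype.mem_piFinset]
    exact ⟨hj 0, fun i => hj i.succ⟩
  · intro p hp
    rw [Finset.mem_product, Fintype.mem_piFinset] at hp
    rw [Fintype.mem_piFinset]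
    intro i
    refine Fin.cases ?_ ?_ i
    · exact hp.1
    · exact hp.2
  · intro j _
    exact Fin.cons_self_tail j
  · intro p _
    simp
  · intro j _
    congr 1
    exact (Fin.cons_self_tail j).symm

theorem DPR_ccons (H s x a k : ℕ) (j : Fin k → ℕ) :
    DPR_c H s x (Fin.cons a j : Fin (k + 1) → ℕ) ↔ DPR_c H (s + a) (if Nat.ble x a then a else x) j := by
  unfold DPR_c
  rw [Fin.sum_univ_succ]
  simp only [Fin.cons_zero, Fin.cons_succ]
  have hmax : ∀ t : ℕ, t + (if Nat.ble x a then a else x) ≤ H ↔ (t + x ≤ H ∧ t + a ≤ H) := by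
    intro t
    by_cases h : x ≤ a
    · rw [if_pos (Nat.ble_eq_true_of_le h)]
      omega
    · rw [if_neg (fun h' => h (Nat.le_of_ble_eq_true h'))]
      omega
  rw [hmax]
  constructor
  · rintro ⟨h1, h2⟩
    refine ⟨⟨by omega, ?_⟩, fun i => ?_⟩
    · have := h2 0
      simp only [Fin.cons_zero] at this
      omega
    · have := h2 i.succ
      simp only [Fin.cons_succ] at this
      omega
  · rintro ⟨⟨h1, h1'⟩, h2⟩
    refine ⟨by omega, fun i => ?_⟩
    refine Fin.cases ?_ (fun i => ?_) i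
    · simp only [Fin.cons_zero]
      omega
    · simp only [Fin.cons_succ]
      have := h2 i
      omega

theorem DPR_Bsucc (H y r k s x P : ℕ) :
    DPR_B H y r (k + 1) s x P =
      ∑ a ∈ Ico y H, DPR_B H y r k (s + a) (if Nat.ble x a then a else x) (P * mN a) := by
  classical
  unfold DPR_B
  rw [Finset.sum_filter, DPR_cons k (fun _ => Ico y H)]
  refine Finset.sum_congr rfl fun a _ => ?_
  rw [Finset.sum_filter]
  refine Finset.sum_congr rfl fun j _ => ?_
  by_cases h : DPR_c H s x (Fin.cons a j : Fin (k + 1) → ℕ)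
  · rw [if_pos h, if_pos ((DPR_ccons H s x a k j).1 h), Fin.sum_univ_succ, Fin.prod_univ_succ]
    simp only [Fin.cons_zero, Fin.cons_succ]
    push_cast
    ring
  · rw [if_neg h, if_neg (fun h' => h ((DPR_ccons H s x a k j).2 h'))]

theorem DPR_step (H y r k : ℕ) (hy : 1 ≤ y)
    (ih : ∀ s x P, y ≤ x → DPR_B H y r k s x P ≤ (nst H y r k s x P : ℝ)) (s x P : ℕ) :
    DPR_B H y r (k + 1) s x P ≤ (nst H y r (k + 1) s x P : ℝ) := by
  classical
  have hn : nst H y r (k + 1) s x P =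
      lp (fun j => nst H y r k (s + j) (if Nat.ble x j then j else x) (P * mN j)) ((H - s) / 2 + 1 - y) y := rfl
  rw [hn, DPR_lp, DPR_Bsucc]
  push_cast
  have h1 : ∀ a ∈ Ico y H, a ∉ Ico y (y + ((H - s) / 2 + 1 - y)) →
      DPR_B H y r k (s + a) (if Nat.ble x a then a else x) (P * mN a) = 0 := by
    intro a ha ha'
    rw [mem_Ico] at ha ha'
    unfold DPR_B
    rw [Finset.sum_filter]
    refine Finset.sum_eq_zero fun j _ => ?_
    rw [if_neg]
    intro h
    have h2 : s + a + (if Nat.ble x a then a else x) ≤ H := by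
      have := h.1
      omega
    have h3 : a ≤ (if Nat.ble x a then a else x) := by
      by_cases h4 : x ≤ a
      · rw [if_pos (Nat.ble_eq_true_of_le h4)]
      · rw [if_neg (fun h' => h4 (Nat.le_of_ble_eq_true h'))]
        omega
    omega
  have h2 : ∑ a ∈ Ico y H, DPR_B H y r k (s + a) (if Nat.ble x a then a else x) (P * mN a) =
      ∑ a ∈ (Ico y H).filter (fun a => a ∈ Ico y (y + ((H - s) / 2 + 1 - y))),
        DPR_B H y r k (s + a) (if Nat.ble x a then a else x) (P * mN a) := by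
    rw [Finset.sum_filter]
    refine Finset.sum_congr rfl fun a ha => ?_
    by_cases h : a ∈ Ico y (y + ((H - s) / 2 + 1 - y))
    · rw [if_pos h]
    · rw [if_neg h, h1 a ha h]
  rw [h2]
  refine (Finset.sum_le_sum fun a ha => ?_).trans
    (Finset.sum_le_sum_of_subset_of_nonneg (fun a ha => (mem_filter.1 ha).2) fun _ _ _ => Nat.cast_nonneg _)
  rw [mem_filter, mem_Ico] at ha
  refine ih _ _ _ ?_
  by_cases h4 : x ≤ a
  · rw [if_pos (Nat.ble_eq_true_of_le h4)]
    exact ha.1.1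
  · rw [if_neg (fun h' => h4 (Nat.le_of_ble_eq_true h'))]
    omega

theorem DPR_all (H y r : ℕ) (hy : r < y) (k s x P : ℕ) (hx : y ≤ x) :
    DPR_B H y r k s x P ≤ (nst H y r k s x P : ℝ) := by
  induction k generalizing s x P with
  | zero => exact DPR_base H y r s x P hy hx
  | succ k ih => exact DPR_step H y r k (by omega) (fun s x P h => ih s x P h) s x P

theorem DPR_all1 (H y r : ℕ) (hy : r < y) (k s x P : ℕ) :
    DPR_B H y r (k + 1) s x P ≤ (nst H y r (k + 1) s x P : ℝ) :=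
  DPR_step H y r k (by omega) (fun s x P h => DPR_all H y r hy k s x P h) s x P

theorem DPR_log (j : ℕ) (hj : 1 ≤ j) : Real.log (((j : ℝ) + 1) / j) ≤ (mN j : ℝ) / 2 ^ 30 :=
  Pool.Agent.EC.DPR_log j hj

/-- the sum over the cells with masses `mN` -/
theorem DPR_cX (b : Bool) (r : ℕ) (hr : 2 ≤ r) (hy : r < yX r) :
    ∑ j ∈ JX b r, (∏ i, (mN (j i) : ℝ)) * pX r (∑ i, j i) ≤ (cX b r : ℝ) := by
  classical
  obtain ⟨k, rfl⟩ : ∃ k, r = k + 2 := ⟨r - 2, by omega⟩
  set H := hX (k + 2) with hH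
  set y := yX (k + 2) with hyd
  cases b
  · have h1 := DPR_all1 H y (k + 2) hy (k + 1) 0 0 1
    have h2 : cX false (k + 2) = nst H y (k + 2) (k + 1 + 1) 0 0 1 := rfl
    rw [h2]
    refine le_trans (le_of_eq ?_) h1
    unfold DPR_B JX pX
    rw [Finset.sum_filter, Finset.sum_filter]
    have h3 : (Fintype.piFinset fun i : Fin (k + 2) => if false = true ∧ i.val = 0 then Ico (zX (k + 2)) (yX (k + 2) + 1)
        else Ico (yX (k + 2)) (hX (k + 2))) = Fintype.piFinset fun _ : Fin (k + 1 + 1) => Ico y H := by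
      simp [hH, hyd]
    rw [h3]
    refine Finset.sum_congr rfl fun j _ => ?_
    have h4 : (∀ i, j i + ∑ k, j k ≤ hX (k + 2)) ↔ DPR_c H 0 0 j := by
      unfold DPR_c
      constructor
      · intro h
        refine ⟨?_, fun i => ?_⟩
        · have := h 0
          omega
        · have := h i
          omega
      · rintro ⟨_, h⟩ i
        have := h i
        omega
    by_cases h : DPR_c H 0 0 j
    · rw [if_pos (h4.2 h), if_pos h]
      push_cast
      ring
    · rw [if_neg (fun h' => h (h4.1 h')), if_neg h]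
  · have h2 : cX true (k + 2) = lp (fun j => nst H y (k + 2) (k + 1) j 0 (mN j)) (y + 1 - zX (k + 2)) (zX (k + 2)) := rfl
    rw [h2, DPR_lp]
    push_cast
    have h5 : ∑ j ∈ JX true (k + 2), (∏ i, (mN (j i) : ℝ)) * pX (k + 2) (∑ i, j i) ≤
        ∑ a ∈ Ico (zX (k + 2)) (y + 1), DPR_B H y (k + 2) (k + 1) a 0 (mN a) := by
      unfold JX pX DPR_B
      rw [Finset.sum_filter, DPR_cons (k + 1)]
      simp only [Fin.val_zero, and_self, if_true, Fin.val_succ]
      refine Finset.sum_le_sum fun a _ => ?_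
      rw [Finset.sum_filter]
      have h3 : (Fintype.piFinset fun i : Fin (k + 1) => if True ∧ i.val + 1 = 0 then Ico (zX (k + 2)) (yX (k + 2) + 1)
        else Ico (yX (k + 2)) (hX (k + 2))) = Fintype.piFinset fun _ : Fin (k + 1) => Ico y H := by
        simp [hH, hyd]
      rw [h3]
      refine Finset.sum_le_sum fun j hj => ?_
      by_cases h : ∀ i : Fin (k + 2), (Fin.cons a j : Fin (k + 2) → ℕ) i + ∑ l, (Fin.cons a j : Fin (k + 2) → ℕ) l ≤
          hX (k + 2)
      · have h6 : DPR_c H a 0 j := by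
          unfold DPR_c
          rw [Fin.sum_univ_succ] at h
          simp only [Fin.cons_zero, Fin.cons_succ] at h
          refine ⟨?_, fun i => ?_⟩
          · have := h 0
            simp only [Fin.cons_zero] at this
            omega
          · have := h i.succ
            simp only [Fin.cons_succ] at this
            omega
        rw [if_pos h, if_pos h6, Fin.sum_univ_succ, Fin.prod_univ_succ]
        simp only [Fin.cons_zero, Fin.cons_succ]
        refine le_of_eq ?_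
        push_cast
        ring
      · rw [if_neg h]
        split_ifs with h6
        · have h7 : y ≤ j 0 := (mem_Ico.1 (Fintype.mem_piFinset.1 hj 0)).1
          have h8 := h6.2 0
          have h9 : (0 : ℝ) ≤ (H : ℝ) - ((a + ∑ i, j i : ℕ) : ℝ) - ((k + 2 : ℕ) : ℝ) := by
            have h10 : a + ∑ i, j i + (k + 2) ≤ H := by omega
            have h11 : ((a + ∑ i, j i + (k + 2) : ℕ) : ℝ) ≤ (H : ℝ) := by exact_mod_cast h10
            rw [Nat.cast_add] at h11
            linarith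
          positivity
        · exact le_rfl
    refine h5.trans ?_
    have h9 : Ico (zX (k + 2)) (y + 1) = Ico (zX (k + 2)) (zX (k + 2) + (y + 1 - zX (k + 2))) := by
      ext a
      rw [mem_Ico, mem_Ico]
      omega
    rw [← h9]
    refine Finset.sum_le_sum fun a _ => ?_
    exact DPR_all1 H y (k + 2) hy k a 0 (mN a)


theorem DPR_one (b : Bool) (r : ℕ) (hr : 2 ≤ r) (hy : r < yX r) (hz : 1 ≤ zX r) :
    ∑ j ∈ JX b r, pX r (∑ i, j i) * ∏ i, Real.log (((j i : ℝ) + 1) / j i) ≤ (cX b r : ℝ) / 2 ^ (30 * r) := by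
  classical
  have h1 := DPR_cX b r hr hy
  rw [le_div_iff₀ (by positivity), Finset.sum_mul]
  refine le_trans (Finset.sum_le_sum fun j hj => ?_) h1
  unfold JX at hj
  rw [mem_filter, Fintype.mem_piFinset] at hj
  obtain ⟨hj1, hj2⟩ := hj
  have hj0 : ∀ i, 1 ≤ j i := by
    intro i
    have := hj1 i
    split_ifs at this
    · rw [mem_Ico] at this
      omega
    · rw [mem_Ico] at this
      omega
  have hp : 0 ≤ pX r (∑ i, j i) := by
    unfold pX
    have h2 : ∃ i : Fin r, yX r ≤ j i := by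
      refine ⟨⟨1, by omega⟩, ?_⟩
      have := hj1 ⟨1, by omega⟩
      rw [if_neg (by simp)] at this
      exact (mem_Ico.1 this).1
    obtain ⟨i, hi⟩ := h2
    have h3 := hj2 i
    have h4 : ∑ i, j i + r ≤ hX r := by omega
    have h5 : ((∑ i, j i + r : ℕ) : ℝ) ≤ (hX r : ℝ) := by exact_mod_cast h4
    rw [Nat.cast_add] at h5
    have h6 : (0 : ℝ) ≤ (hX r : ℝ) - ((∑ i, j i : ℕ) : ℝ) - r := by linarith
    positivity
  have h2 : ∏ i, Real.log (((j i : ℝ) + 1) / j i) ≤ ∏ i, ((mN (j i) : ℝ) / 2 ^ 30) := by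
    refine Finset.prod_le_prod (fun i _ => ?_) fun i _ => DPR_log (j i) (hj0 i)
    have : (0 : ℝ) < j i := by exact_mod_cast hj0 i
    refine Real.log_nonneg ?_
    rw [le_div_iff₀ this]
    linarith
  have h3 : ∏ i, ((mN (j i) : ℝ) / 2 ^ 30) = (∏ i, (mN (j i) : ℝ)) / 2 ^ (30 * r) := by
    rw [Finset.prod_div_distrib, Finset.prod_const, Finset.card_univ, Fintype.card_fin, ← pow_mul]
  rw [h3] at h2
  calc pX r (∑ i, j i) * (∏ i, Real.log (((j i : ℝ) + 1) / j i)) * 2 ^ (30 * r)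
      ≤ pX r (∑ i, j i) * ((∏ i, (mN (j i) : ℝ)) / 2 ^ (30 * r)) * 2 ^ (30 * r) := by
        refine mul_le_mul_of_nonneg_right ?_ (by positivity)
        exact mul_le_mul_of_nonneg_left h2 hp
    _ = (∏ i, (mN (j i) : ℝ)) * pX r (∑ i, j i) := by
        field_simp


theorem DPR_num (u1 u2 u3 u4 u5 u6 : ℕ) (s1 s2 s3 s4 s5 s6 : ℝ)
    (h1 : u1 * 2 ^ 60 * 40 + u2 * 2 ^ 60 * 60 + u3 * 2 ^ 30 * 10 + u4 * 2 ^ 30 * 20 +
      u5 * 2 + u6 * 5 ≤ 433 * 240 * 2 ^ 150 / 1000)
    (b3 : s1 ≤ (u1 : ℝ) / 2 ^ (30 * 3)) (a3 : s2 ≤ (u2 : ℝ) / 2 ^ (30 * 3))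
    (b4 : s3 ≤ (u3 : ℝ) / 2 ^ (30 * 4)) (a4 : s4 ≤ (u4 : ℝ) / 2 ^ (30 * 4))
    (b5 : s5 ≤ (u5 : ℝ) / 2 ^ (30 * 5)) (a5 : s6 ≤ (u6 : ℝ) / 2 ^ (30 * 5)) :
    1 / 4 * s2 + (1 / 12 * s4 + 1 / 48 * s6) + (1 / 6 * s1 + (1 / 24 * s3 + 1 / 120 * s5)) ≤ 435 / 1000 := by
  have h2 : (((u1 * 2 ^ 60 * 40 + u2 * 2 ^ 60 * 60 + u3 * 2 ^ 30 * 10 + u4 * 2 ^ 30 * 20 +
    u5 * 2 + u6 * 5 : ℕ)) : ℝ) ≤ ((433 * 240 * 2 ^ 150 / 1000 : ℕ) : ℝ) := by exact_mod_cast h1
  have h3 : ((433 * 240 * 2 ^ 150 / 1000 : ℕ) : ℝ) ≤ ((433 * 240 * 2 ^ 150 : ℕ) : ℝ) / ((1000 : ℕ) : ℝ) := Nat.cast_div_le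
  have h4 := h2.trans h3
  push_cast at h4
  have e3 : (2 : ℝ) ^ (30 * 3) = 2 ^ 90 := by norm_num
  have e4 : (2 : ℝ) ^ (30 * 4) = 2 ^ 120 := by norm_num
  have e5 : (2 : ℝ) ^ (30 * 5) = 2 ^ 150 := by norm_num
  rw [e3] at a3 b3
  rw [e4] at a4 b4
  rw [e5] at a5 b5
  have h5 : 1 / 4 * ((u2 : ℝ) / 2 ^ 90) + (1 / 12 * ((u4 : ℝ) / 2 ^ 120) + 1 / 48 * ((u6 : ℝ) / 2 ^ 150)) +
      (1 / 6 * ((u1 : ℝ) / 2 ^ 90) + (1 / 24 * ((u3 : ℝ) / 2 ^ 120) + 1 / 120 * ((u5 : ℝ) / 2 ^ 150))) ≤ 435 / 1000 := by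
    have h6 : 1 / 4 * ((u2 : ℝ) / 2 ^ 90) + (1 / 12 * ((u4 : ℝ) / 2 ^ 120) + 1 / 48 * ((u6 : ℝ) / 2 ^ 150)) +
      (1 / 6 * ((u1 : ℝ) / 2 ^ 90) + (1 / 24 * ((u3 : ℝ) / 2 ^ 120) + 1 / 120 * ((u5 : ℝ) / 2 ^ 150))) =
        ((u1 : ℝ) * 2 ^ 60 * 40 + u2 * 2 ^ 60 * 60 + u3 * 2 ^ 30 * 10 + u4 * 2 ^ 30 * 20 + u5 * 2 + u6 * 5) /
          (240 * 2 ^ 150) := by
      ring
    rw [h6, div_le_iff₀ (by positivity)]
    norm_num at h4 ⊢
    linarith
  linarith

theorem DPR (h1 : KRX_stmt) : DPR_stmt := by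
  classical
  unfold DPR_stmt
  have hA : ∀ (b : Bool) (r : ℕ), ∑ j ∈ JX b r, om b r * pX r (∑ i, j i) * ∏ i, Real.log (((j i : ℝ) + 1) / j i) =
      om b r * ∑ j ∈ JX b r, pX r (∑ i, j i) * ∏ i, Real.log (((j i : ℝ) + 1) / j i) := by
    intro b r
    rw [Finset.mul_sum]
    exact Finset.sum_congr rfl fun j _ => by ring
  simp_rw [hA]
  have hIcc : Icc 3 5 = ({3, 4, 5} : Finset ℕ) := by decide
  rw [hIcc, Fintype.sum_bool]
  rw [Finset.sum_insert (by decide), Finset.sum_insert (by decide), Finset.sum_singleton,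
    Finset.sum_insert (by decide), Finset.sum_insert (by decide), Finset.sum_singleton]
  have y3 : yX 3 = 40 := rfl
  have y4 : yX 4 = 20 := rfl
  have y5 : yX 5 = 20 := rfl
  have z3 : zX 3 = 12 := rfl
  have z4 : zX 4 = 6 := rfl
  have z5 : zX 5 = 6 := rfl
  have a3 := DPR_one true 3 (by norm_num) (by rw [y3]; norm_num) (by rw [z3]; norm_num)
  have a4 := DPR_one true 4 (by norm_num) (by rw [y4]; norm_num) (by rw [z4]; norm_num)
  have a5 := DPR_one true 5 (by norm_num) (by rw [y5]; norm_num) (by rw [z5]; norm_num)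
  have b3 := DPR_one false 3 (by norm_num) (by rw [y3]; norm_num) (by rw [z3]; norm_num)
  have b4 := DPR_one false 4 (by norm_num) (by rw [y4]; norm_num) (by rw [z4]; norm_num)
  have b5 := DPR_one false 5 (by norm_num) (by rw [y5]; norm_num) (by rw [z5]; norm_num)
  have o3 : om true 3 = 1 / 4 := by norm_num [om, Nat.factorial]
  have o4 : om true 4 = 1 / 12 := by norm_num [om, Nat.factorial]
  have o5 : om true 5 = 1 / 48 := by norm_num [om, Nat.factorial]
  have p3 : om false 3 = 1 / 6 := by norm_num [om, Nat.factorial]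
  have p4 : om false 4 = 1 / 24 := by norm_num [om, Nat.factorial]
  have p5 : om false 5 = 1 / 120 := by norm_num [om, Nat.factorial]
  rw [o3, o4, o5, p3, p4, p5]
  exact DPR_num (cX false 3) (cX true 3) (cX false 4) (cX true 4) (cX false 5) (cX true 5) _ _ _ _ _ _ h1 b3 a3 b4 a4 b5 a5

end Pool.Agent.XE
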