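import Pool.Agent.helper15.XE.SpecS
import Pool.Agent.helper68.SK.EGC

/-!
# Row EGC of XE
-/

set_option autoImplicit false

namespace Pool.Agent.XE

open Finset ArithmeticFunction
open Pool.Agent.CH (rgh)
open Pool.Agent.EC (yN edg)
open Pool.Agent.helper85.BVP (tau)

theorem EGC (h1 : WVB_stmt) (h2 : MLW_stmt) : EGC_stmt := by
  classical
  intro A C
  obtain ⟨N₁, hN₁, hW⟩ := h1
  obtain ⟨N₀, hN₀⟩ := SK.EGC_large A
  refine ⟨max N₀ N₁, fun N hN v hv M hM0 hM => ?_⟩
  obtain ⟨hN8, hL3, hz2, hzb⟩ := hN₀ N ((le_max_left _ _).trans hN)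
  have hN1 : N₁ ≤ N := (le_max_right _ _).trans hN
  have hw := ((hW N hN1).1 v hv).2.2.2
  have hNr : (8 : ℝ) ≤ N := by exact_mod_cast hN8
  have hNpos : (0 : ℝ) < N := by linarith
  have hom := SK.EGC_omega M (Real.log N) N (by omega) rfl hL3 hM0 hM
  have hL0 : 0 < Real.log N := by linarith
  obtain ⟨z, hz⟩ : ∃ z : ℝ, z = Real.log N ^ (1 / 20 : ℝ) := ⟨_, rfl⟩
  rw [← hz] at hz2 hzb
  have hz20 : Real.log N = z ^ 20 := by
    rw [hz, ← Real.rpow_natCast, ← Real.rpow_mul hL0.le]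
    norm_num
  have hz19 : Pool.Agent.CH.dl N = z ^ 19 := by
    unfold Pool.Agent.CH.dl
    rw [hz, ← Real.rpow_natCast, ← Real.rpow_mul hL0.le]
    norm_num
  have hy : yN N = Real.exp (z ^ 19) := by
    unfold yN
    rw [hz19]
  have hz0 : 0 < z := by linarith
  have hy1 : 1 ≤ yN N := by
    rw [hy]
    exact Real.one_le_exp (by positivity)
  have hy0 : 0 < yN N := by linarith
  have hNexp : Real.exp (Real.log N) = N := Real.exp_log hNpos
  -- the number `k`
  obtain ⟨k, hk⟩ : ∃ k : ℕ, k = ⌊4 * z⌋₊ := ⟨_, rfl⟩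
  have hk1 : (k : ℝ) ≤ 4 * z := by
    rw [hk]
    exact Nat.floor_le (by positivity)
  have hk2 : 4 * z < (k : ℝ) + 1 := by
    rw [hk]
    exact Nat.lt_floor_add_one _
  have hk3 : (2 : ℝ) ^ k ≤ Real.exp (4 * z) := by
    have h1 : (2 : ℝ) ≤ Real.exp 1 := by
      have := Real.add_one_le_exp (1 : ℝ)
      linarith
    calc (2 : ℝ) ^ k ≤ Real.exp 1 ^ k := pow_le_pow_left₀ (by norm_num) h1 k
      _ = Real.exp k := by rw [← Real.exp_nat_mul, mul_one]
      _ ≤ Real.exp (4 * z) := Real.exp_le_exp.2 hk1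
  have hpow : 8 * (N : ℝ) ^ 3 < yN N ^ (k + 1) := by
    rw [hy, ← Real.exp_nat_mul]
    have h1 : 4 * Real.log N < ((k + 1 : ℕ) : ℝ) * z ^ 19 := by
      rw [hz20]
      push_cast
      have : 4 * z * z ^ 19 < (k + 1) * z ^ 19 := mul_lt_mul_of_pos_right hk2 (by positivity)
      nlinarith
    have h2 : Real.exp (4 * Real.log N) = (N : ℝ) ^ 4 := by
      rw [show (4 : ℝ) * Real.log N = ((4 : ℕ) : ℝ) * Real.log N by norm_num, Real.exp_nat_mul, hNexp]
    have h3 : 8 * (N : ℝ) ^ 3 ≤ (N : ℝ) ^ 4 := by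
      have : 0 ≤ (N : ℝ) ^ 3 := by positivity
      nlinarith
    calc 8 * (N : ℝ) ^ 3 ≤ Real.exp (4 * Real.log N) := h2 ▸ h3
      _ < _ := Real.exp_lt_exp.2 h1
  -- bound for a single `j`
  have hWin : ∀ j : ℕ, wv N v j ≠ 0 → (j : ℝ) ≤ 8 * (N : ℝ) ^ 3 := by
    intro j hj
    have h1 := ((hw j).2.2.1 hj).2
    have h2 : j ≤ 3 * N ^ 3 := by omega
    have h3 : (j : ℝ) ≤ 3 * (N : ℝ) ^ 3 := by exact_mod_cast h2
    have h4 : 0 ≤ (N : ℝ) ^ 3 := by positivity
    linarith
  have hT0 : 0 ≤ (2 : ℝ) ^ k * (4 * Real.log N) := by positivity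
  have hone : ∀ j : ℕ, wv N v j ≠ 0 → rgh (yN N) j → |edg C N j| ≤ 2 ^ k * (4 * Real.log N) := by
    intro j hj hr
    have h1 := SK.EGC_edg C N j
    have hj8 := hWin j hj
    have hj0 : (0 : ℝ) < j := by exact_mod_cast Nat.pos_of_ne_zero hr.1
    have h2 := SK.EGC_tau (yN N) hy1 k j hr.1 hr.2 (lt_of_le_of_lt hj8 hpow)
    have h3 : Real.log j ≤ 4 * Real.log N := by
      have h4 := Real.log_le_log hj0 hj8
      rw [Real.log_mul (by norm_num) (by positivity), Real.log_pow] at h4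
      have h5 : Real.log 8 ≤ Real.log N := Real.log_le_log (by norm_num) hNr
      push_cast at h4
      linarith
    refine h1.trans (mul_le_mul h2 h3 (Real.log_natCast_nonneg j) (by positivity))
  -- counting
  have hcount : ∀ p ∈ M.primeFactors, yN N < p →
      ((#((Z3 N).filter fun j : ℕ => wv N v j ≠ 0 ∧ p ∣ j) : ℕ) : ℝ) ≤ 8 * (N : ℝ) ^ 2 / yN N := by
    intro p hp hyp
    have hp0 : 0 < p := (Nat.prime_of_mem_primeFactors hp).pos
    have h1 := h2 N (hN₁.trans hN1) v hv p hp0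
    have hpr : (0 : ℝ) < p := by exact_mod_cast hp0
    have h3 : 6 * (N : ℝ) ^ 2 / p ≤ 6 * (N : ℝ) ^ 2 / yN N :=
      div_le_div₀ (by positivity) le_rfl hy0 hyp.le
    have h4 : 1 ≤ (N : ℝ) ^ 2 / yN N := by
      rw [one_le_div hy0, hy]
      have h5 : (N : ℝ) ^ 2 = Real.exp (2 * Real.log N) := by
        rw [show (2 : ℝ) * Real.log N = ((2 : ℕ) : ℝ) * Real.log N by norm_num, Real.exp_nat_mul, hNexp]
      rw [h5]
      refine Real.exp_le_exp.2 ?_
      rw [hz20]
      have h6 : 0 ≤ z ^ 19 := by positivity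
      nlinarith
    have h5 : 8 * (N : ℝ) ^ 2 / yN N = 6 * (N : ℝ) ^ 2 / yN N + 2 * ((N : ℝ) ^ 2 / yN N) := by ring
    rw [h5]
    linarith
  -- summation
  calc ∑ j ∈ Z3 N with ¬ Nat.Coprime j M, |edg C N j| * wv N v j
      ≤ ∑ j ∈ Z3 N with ¬ Nat.Coprime j M, ∑ p ∈ M.primeFactors,
          if yN N < p ∧ wv N v j ≠ 0 ∧ p ∣ j then 2 ^ k * (4 * Real.log N) else 0 := by
        refine Finset.sum_le_sum fun j hj => ?_
        rw [Finset.mem_filter] at hj
        have hf0 := (hw j).1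
        have hf1 := (hw j).2.1
        have hnn : ∀ p ∈ M.primeFactors,
            0 ≤ if yN N < p ∧ wv N v j ≠ 0 ∧ p ∣ j then 2 ^ k * (4 * Real.log N) else 0 := by
          intro p _
          split_ifs
          · exact hT0
          · exact le_rfl
        by_cases hj0 : wv N v j = 0
        · rw [hj0, mul_zero]
          refine Finset.sum_nonneg fun p _ => ?_
          split_ifs
          · exact hT0
          · exact le_rfl
        by_cases hr : rgh (yN N) j
        · obtain ⟨p, hp, hpj, hpM⟩ := Nat.Prime.not_coprime_iff_dvd.1 hj.2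
          have hpM' : p ∈ M.primeFactors := Nat.mem_primeFactors.2 ⟨hp, hpM, hM0.ne'⟩
          have h1 := Finset.single_le_sum hnn hpM'
          rw [if_pos ⟨hr.2 p hp hpj, hj0, hpj⟩] at h1
          have h2 := hone j hj0 hr
          calc |edg C N j| * wv N v j ≤ |edg C N j| * 1 := mul_le_mul_of_nonneg_left hf1 (abs_nonneg _)
            _ ≤ 2 ^ k * (4 * Real.log N) := by rw [mul_one]; exact h2
            _ ≤ _ := h1
        · have h0 : edg C N j = 0 := by
            unfold edg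
            rw [if_neg hr]
          rw [h0, abs_zero, zero_mul]
          exact Finset.sum_nonneg hnn
    _ ≤ ∑ j ∈ Z3 N, ∑ p ∈ M.primeFactors,
          if yN N < p ∧ wv N v j ≠ 0 ∧ p ∣ j then 2 ^ k * (4 * Real.log N) else 0 := by
        refine Finset.sum_le_sum_of_subset_of_nonneg (Finset.filter_subset _ _) fun j _ _ => ?_
        refine Finset.sum_nonneg fun p _ => ?_
        split_ifs
        · exact hT0
        · exact le_rfl
    _ = ∑ p ∈ M.primeFactors, ∑ j ∈ Z3 N,
          if yN N < p ∧ wv N v j ≠ 0 ∧ p ∣ j then 2 ^ k * (4 * Real.log N) else 0 := Finset.sum_comm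
    _ ≤ ∑ p ∈ M.primeFactors, 8 * (N : ℝ) ^ 2 / yN N * (2 ^ k * (4 * Real.log N)) := by
        refine Finset.sum_le_sum fun p hp => ?_
        by_cases hyp : yN N < p
        · have e1 : ∑ j ∈ Z3 N, (if yN N < p ∧ wv N v j ≠ 0 ∧ p ∣ j then 2 ^ k * (4 * Real.log N) else 0) =
              ((#((Z3 N).filter fun j : ℕ => wv N v j ≠ 0 ∧ p ∣ j) : ℕ) : ℝ) * (2 ^ k * (4 * Real.log N)) := by
            rw [← nsmul_eq_mul, ← Finset.sum_const, Finset.sum_filter]
            refine Finset.sum_congr rfl fun j _ => ?_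
            by_cases hpj : wv N v j ≠ 0 ∧ p ∣ j
            · rw [if_pos ⟨hyp, hpj⟩, if_pos hpj]
            · rw [if_neg (fun h => hpj h.2), if_neg hpj]
          rw [e1]
          exact mul_le_mul_of_nonneg_right (hcount p hp hyp) hT0
        · have e1 : ∑ j ∈ Z3 N, (if yN N < p ∧ wv N v j ≠ 0 ∧ p ∣ j then 2 ^ k * (4 * Real.log N) else 0) = 0 :=
            Finset.sum_eq_zero fun j _ => if_neg fun h => hyp h.1
          rw [e1]
          positivity
    _ = (#M.primeFactors : ℝ) * (8 * (N : ℝ) ^ 2 / yN N * (2 ^ k * (4 * Real.log N))) := by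
        rw [Finset.sum_const, nsmul_eq_mul]
    _ ≤ 10 * Real.log N * (8 * (N : ℝ) ^ 2 / yN N * (Real.exp (4 * z) * (4 * Real.log N))) := by
        refine mul_le_mul hom ?_ (by positivity) (by positivity)
        refine mul_le_mul_of_nonneg_left ?_ (by positivity)
        exact mul_le_mul_of_nonneg_right hk3 (by positivity)
    _ = 320 * Real.log N ^ 2 * Real.exp (4 * z) / yN N * (N : ℝ) ^ 2 := by ring
    _ ≤ (N : ℝ) ^ 2 / Real.log N ^ A := by
        have h1 : 320 * Real.log N ^ 2 * Real.exp (4 * z) * Real.log N ^ A ≤ yN N := by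
          have h2 : 320 * Real.log N ^ 2 * Real.exp (4 * z) * Real.log N ^ A =
              320 * z ^ (40 + 20 * A) * Real.exp (4 * z) := by
            rw [hz20, ← pow_mul, ← pow_mul, pow_add]
            ring
          rw [h2, hy]
          calc 320 * z ^ (40 + 20 * A) * Real.exp (4 * z) ≤ Real.exp z * Real.exp (4 * z) :=
                mul_le_mul_of_nonneg_right hzb (Real.exp_pos _).le
            _ = Real.exp (5 * z) := by rw [← Real.exp_add]; congr 1; ring
            _ ≤ Real.exp (z ^ 19) := by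
                refine Real.exp_le_exp.2 ?_
                have h3 : (2 : ℝ) ^ 18 ≤ z ^ 18 := pow_le_pow_left₀ (by norm_num) hz2 18
                have h4 : z ^ 19 = z * z ^ 18 := by ring
                rw [h4]
                nlinarith
        have hLA : 0 < Real.log N ^ A := by positivity
        have h5 : 320 * Real.log N ^ 2 * Real.exp (4 * z) / yN N ≤ 1 / Real.log N ^ A := by
          rw [div_le_div_iff₀ hy0 hLA, one_mul]
          exact h1
        calc _ ≤ 1 / Real.log N ^ A * (N : ℝ) ^ 2 := mul_le_mul_of_nonneg_right h5 (by positivity)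
          _ = _ := by ring

end Pool.Agent.XE
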