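import Pool.Agent.helper15.XE.SpecC

/-! # Project XE: the kernel check -/

set_option autoImplicit false
set_option maxRecDepth 100000

namespace Pool.Agent.XE

theorem KRX : KRX_stmt := by
  unfold KRX_stmt
  decide +kernel

end Pool.Agent.XE
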