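import Pool.Agent.helper15.XE.SpecL

/-!
# Row xe:PRM (MP_5628fe_nt)

Lower bound for the primes of the windows of `V` with sieve weights.
-/

set_option autoImplicit false

namespace Pool.Agent.XE

open Finset ArithmeticFunction
open Pool.Agent.EC (tri TL wt mt Adm edg mnf yN)
open Pool.Agent.CH (rgh Mo ClP ClB)
open GD (kp ks)

private theorem PRM_sw (N : ℕ) (V : Finset ℝ) (S : Finset ℕ) (c : ℕ → ℝ) :
    ∑ j ∈ S, c j * fV N V j = ∑ v ∈ V, ∑ j ∈ S, c j * wv N v j := by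
  unfold fV
  rw [Finset.sum_comm]
  refine Finset.sum_congr rfl fun j _ => ?_
  rw [Finset.mul_sum]

/-- the trivial bound for the divisor sums of the weights -/
private theorem PRM_wt {K Q : ℝ} {l : ℕ → ℝ} (hK : 0 ≤ K) (hQ : 0 ≤ Q) (hl : Adm K Q l) (a : ℕ) :
    |wt l a| ≤ K * Q := by
  unfold wt
  have h1 : ∑ m ∈ a.divisors, l m = ∑ m ∈ a.divisors.filter (fun m => l m ≠ 0), l m := by
    rw [Finset.sum_filter_ne_zero]
  rw [h1]
  refine (Finset.abs_sum_le_sum_abs _ _).trans ?_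
  refine (Finset.sum_le_sum fun m _ => hl.1 m).trans ?_
  rw [Finset.sum_const, nsmul_eq_mul]
  have h2 : a.divisors.filter (fun m => l m ≠ 0) ⊆ Icc 1 ⌊Q⌋₊ := by
    intro m hm
    rw [Finset.mem_filter] at hm
    rw [Finset.mem_Icc]
    exact ⟨Nat.pos_of_mem_divisors hm.1, (Nat.le_floor_iff hQ).2 (hl.2 m hm.2).2.2⟩
  have h3 := Finset.card_le_card h2
  rw [Nat.card_Icc, Nat.add_sub_cancel] at h3
  have h4 : ((a.divisors.filter (fun m => l m ≠ 0)).card : ℝ) ≤ Q :=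
    le_trans (by exact_mod_cast h3) (Nat.floor_le hQ)
  calc ((a.divisors.filter (fun m => l m ≠ 0)).card : ℝ) * K ≤ Q * K :=
        mul_le_mul_of_nonneg_right h4 hK
    _ = K * Q := mul_comm _ _

private theorem PRM_tot {m : ℕ} (h : Nat.Coprime m 30) : Nat.totient (30 * m) = 8 * Nat.totient m := by
  rw [Nat.totient_mul h.symm]
  have : Nat.totient 30 = 8 := by decide
  rw [this]

/-- the main term in the classes modulo 30 m -/
private theorem PRM_main {K Q : ℝ} {l : ℕ → ℝ} (hl : Adm K Q l) :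
    ∑ m ∈ Mo Q, l m * (1 / (Nat.totient (30 * m) : ℝ)) = 1 / 8 * mt Q l := by
  unfold Pool.Agent.EC.mt Mo
  rw [Finset.mul_sum, Finset.sum_filter]
  refine Finset.sum_congr rfl fun m _ => ?_
  by_cases h : Nat.Coprime m 30
  · rw [if_pos h, PRM_tot h]
    push_cast
    rw [one_div, mul_inv]
    ring
  · rw [if_neg h]
    have h0 : l m = 0 := by
      by_contra hc
      exact h (hl.2 m hc).2.1
    rw [h0]
    simp

theorem PRM (h1 : BVE_stmt) (h2 : EDP_stmt) (h3 : PNT_stmt) (h4 : Pool.Agent.EC.MTA_stmt)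
    (h5 : Pool.Agent.EC.EXW_stmt) (h6 : NRP_stmt) (h7 : WVB_stmt) : PRM_stmt := by
  classical
  intro ε' K hε' hK
  set δ : ℝ := min (ε' / 4) (ε' / K) with hδ
  have hδ0 : 0 < δ := lt_min (by positivity) (by positivity)
  have hδ4 : δ ≤ ε' / 4 := min_le_left _ _
  have hδK : K * δ ≤ ε' := by
    have : δ ≤ ε' / K := min_le_right _ _
    rw [le_div_iff₀ hK] at this
    linarith
  obtain ⟨C, N₁, hBV⟩ := h1 2
  obtain ⟨N₂, hED⟩ := h2 C δ K hδ0 hK
  obtain ⟨N₇, -, hWV⟩ := h7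
  obtain ⟨N₃, hPN⟩ := h3 1
  obtain ⟨N₆, hNR⟩ := h6
  obtain ⟨⟨r, hr⟩, -, hEX⟩ := h5
  have htend : Filter.Tendsto (fun N : ℕ => Real.log (N : ℝ)) Filter.atTop Filter.atTop :=
    Real.tendsto_log_atTop.comp tendsto_natCast_atTop_atTop
  have htend2 : Filter.Tendsto (fun N : ℕ => (N : ℝ) ^ (1 / 20 : ℝ)) Filter.atTop Filter.atTop :=
    (tendsto_rpow_atTop (by norm_num)).comp tendsto_natCast_atTop_atTop
  obtain ⟨N₄, hN₄⟩ := Filter.eventually_atTop.1 ((htend.eventually_ge_atTop (max 1 (9 * K / ε'))).and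
    (htend2.eventually_ge_atTop (16 * K / ε')))
  refine ⟨max (max (max N₁ N₂) (max (max N₃ N₄) (max N₆ 4))) N₇, fun N hN V hAV l l' ha ha' hll hmt => ?_⟩
  have n1 : N₁ ≤ N := by omega
  have n2 : N₂ ≤ N := by omega
  have n3 : N₃ ≤ N := by omega
  have n4 : N₄ ≤ N := by omega
  have n6 : N₆ ≤ N := by omega
  have n5 : 4 ≤ N := by omega
  have n7 : N₇ ≤ N := by omega
  obtain ⟨hV1, hV2, hV3⟩ := hAV
  obtain ⟨hL1', hN25⟩ := hN₄ N n4
  have hN0 : (0 : ℝ) < N := by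
    have : 0 < N := by omega
    exact_mod_cast this
  have hN1 : (1 : ℝ) ≤ N := by
    have : 1 ≤ N := by omega
    exact_mod_cast this
  set L : ℝ := Real.log N with hL
  have hL1 : 1 ≤ L := (le_max_left _ _).trans hL1'
  have hL9 : 9 * K / ε' ≤ L := (le_max_right _ _).trans hL1'
  have hL0 : 0 < L := by linarith
  set Q : ℝ := QV N with hQ
  have hQ1 : 0 ≤ Q := Real.rpow_nonneg hN0.le _
  have hQhalf : Q ≤ (N : ℝ) ^ (17 / 20 : ℝ) :=
    Real.rpow_le_rpow_of_exponent_le hN1 (by norm_num)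
  set n : ℝ := (#V : ℝ) with hn
  have hn1 : 1 ≤ n := (Real.one_le_rpow hN1 (by norm_num)).trans hV3
  have hn0 : 0 < n := by linarith
  have hwt' : ∀ a : ℕ, 1 ≤ a → 0 ≤ wt l' a := fun a ha1 => (abs_nonneg _).trans (hll a ha1)
  have hEDV : ∀ v ∈ V, _ := fun v hv => hED N n2 l' ha' hwt' hmt v (hV1 v hv)
  have ed1 : ∑ j ∈ Z3 N with j % 30 = 1, |edg C N j| * fV N V j * wt l' (j + 6) ≤ n * (δ * (N : ℝ) ^ 2 / L) := by
    have e1 : ∑ j ∈ Z3 N with j % 30 = 1, |edg C N j| * fV N V j * wt l' (j + 6) =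
        ∑ v ∈ V, ∑ j ∈ Z3 N with j % 30 = 1, |edg C N j| * wv N v j * wt l' (j + 6) := by
      have e2 : ∀ j, |edg C N j| * fV N V j * wt l' (j + 6) = (|edg C N j| * wt l' (j + 6)) * fV N V j := fun j => by ring
      rw [Finset.sum_congr rfl fun j _ => e2 j, PRM_sw]
      exact Finset.sum_congr rfl fun v _ => Finset.sum_congr rfl fun j _ => by ring
    rw [e1]
    refine (Finset.sum_le_sum fun v hv => (hEDV v hv).1).trans (le_of_eq ?_)
    rw [Finset.sum_const, nsmul_eq_mul]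
  have ed2 : ∑ j ∈ Z3 N, |edg C N j| * fV N V j ≤ n * (δ * (N : ℝ) ^ 2) := by
    rw [PRM_sw]
    refine (Finset.sum_le_sum fun v hv => (hEDV v hv).2).trans (le_of_eq ?_)
    rw [Finset.sum_const, nsmul_eq_mul]
  have hmtl : |mt Q l| ≤ K / L := (h4.2 K Q l l' ha ha' hll).trans hmt
  have hfN : ∀ j, 0 ≤ fV N V j ∧ fV N V j ≤ 1 := fun j =>
    ⟨(((hWV N n7).2 V hV1 hV2).2 j).1, (((hWV N n7).2 V hV1 hV2).2 j).2.1⟩
  have hNRs : ∑ j ∈ Z3 N, (if rgh (yN N) j then 0 else vonMangoldt j) ≤ (N : ℝ) ^ (1 / 10 : ℝ) := by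
    have h := hNR N n6
    rw [Finset.sum_filter] at h
    refine le_trans (le_of_eq ?_) h
    refine Finset.sum_congr rfl fun j _ => ?_
    by_cases hj : rgh (yN N) j
    · simp [hj]
    · simp [hj]
  have hNR0 : ∀ j, 0 ≤ (if rgh (yN N) j then 0 else vonMangoldt j : ℝ) := by
    intro j
    split_ifs
    · exact le_rfl
    · exact vonMangoldt_nonneg
  -- the total mass of `mnf`
  set F : ℝ := ∑ j ∈ Z3 N, mnf C N j * fV N V j with hF
  have hFX : |F - XV N V| ≤ n * ((N : ℝ) ^ 2 / L) + (N : ℝ) ^ (1 / 10 : ℝ) + n * (δ * (N : ℝ) ^ 2) := by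
    have e1 : F - XV N V = (∑ j ∈ Z3 N, vonMangoldt j * fV N V j - XV N V) -
        ∑ j ∈ Z3 N, (if rgh (yN N) j then 0 else vonMangoldt j) * fV N V j -
        ∑ j ∈ Z3 N, edg C N j * fV N V j := by
      have : F = ∑ j ∈ Z3 N, vonMangoldt j * fV N V j -
        ∑ j ∈ Z3 N, (if rgh (yN N) j then 0 else vonMangoldt j) * fV N V j -
        ∑ j ∈ Z3 N, edg C N j * fV N V j := by
        rw [hF, ← Finset.sum_sub_distrib, ← Finset.sum_sub_distrib]
        refine Finset.sum_congr rfl fun j _ => ?_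
        unfold mnf
        by_cases hj : rgh (yN N) j
        · rw [if_pos hj, if_pos hj]
          ring
        · rw [if_neg hj, if_neg hj]
          ring
      rw [this]
      ring
    have e2 : |∑ j ∈ Z3 N, vonMangoldt j * fV N V j - XV N V| ≤ n * ((N : ℝ) ^ 2 / L) := by
      unfold XV
      rw [PRM_sw, ← Finset.sum_sub_distrib]
      refine (Finset.abs_sum_le_sum_abs _ _).trans ((Finset.sum_le_sum fun v hv => ?_).trans (le_of_eq
        (by rw [Finset.sum_const, nsmul_eq_mul])))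
      have h := hPN N n3 v (hV1 v hv)
      rwa [pow_one] at h
    have e3 : |∑ j ∈ Z3 N, (if rgh (yN N) j then 0 else vonMangoldt j) * fV N V j| ≤
        (N : ℝ) ^ (1 / 10 : ℝ) := by
      refine (Finset.abs_sum_le_sum_abs _ _).trans (le_trans (Finset.sum_le_sum fun j _ => ?_) hNRs)
      rw [abs_mul, abs_of_nonneg (hNR0 j), abs_of_nonneg (hfN j).1]
      calc _ ≤ (if rgh (yN N) j then 0 else vonMangoldt j : ℝ) * 1 :=
            mul_le_mul_of_nonneg_left (hfN j).2 (hNR0 j)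
        _ = _ := mul_one _
    have e4 : |∑ j ∈ Z3 N, edg C N j * fV N V j| ≤ n * (δ * (N : ℝ) ^ 2) := by
      refine (Finset.abs_sum_le_sum_abs _ _).trans (le_trans (le_of_eq ?_) ed2)
      refine Finset.sum_congr rfl fun j _ => ?_
      rw [abs_mul, abs_of_nonneg (hfN j).1]
    rw [e1]
    calc _ ≤ |∑ j ∈ Z3 N, vonMangoldt j * fV N V j - XV N V| +
          |∑ j ∈ Z3 N, (if rgh (yN N) j then 0 else vonMangoldt j) * fV N V j| +
          |∑ j ∈ Z3 N, edg C N j * fV N V j| :=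
          (abs_sub _ _).trans (add_le_add (abs_sub _ _) le_rfl)
      _ ≤ _ := by linarith
  -- the three parts of the sum
  have hsplit : ∑ j ∈ Z3 N with j % 30 = 1, vonMangoldt j * fV N V j * wt l (j + 6) =
      ∑ j ∈ Z3 N with j % 30 = 1, mnf C N j * fV N V j * wt l (j + 6) +
      ∑ j ∈ Z3 N with j % 30 = 1, edg C N j * fV N V j * wt l (j + 6) +
      ∑ j ∈ Z3 N with j % 30 = 1, (if rgh (yN N) j then 0 else vonMangoldt j) * fV N V j * wt l (j + 6) := by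
    rw [← Finset.sum_add_distrib, ← Finset.sum_add_distrib]
    refine Finset.sum_congr rfl fun j _ => ?_
    unfold mnf
    by_cases hj : rgh (yN N) j
    · rw [if_pos hj, if_pos hj]
      ring
    · rw [if_neg hj, if_neg hj]
      ring
  have hs2 : |∑ j ∈ Z3 N with j % 30 = 1, edg C N j * fV N V j * wt l (j + 6)| ≤ n * (δ * (N : ℝ) ^ 2 / L) := by
    refine (Finset.abs_sum_le_sum_abs _ _).trans (le_trans (Finset.sum_le_sum fun j _ => ?_) ed1)
    rw [abs_mul, abs_mul, abs_of_nonneg (hfN j).1]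
    exact mul_le_mul_of_nonneg_left (hll (j + 6) (by omega)) (mul_nonneg (abs_nonneg _) (hfN j).1)
  have hs3 : |∑ j ∈ Z3 N with j % 30 = 1, (if rgh (yN N) j then 0 else vonMangoldt j) * fV N V j *
      wt l (j + 6)| ≤ K * (N : ℝ) ^ (19 / 20 : ℝ) := by
    refine (Finset.abs_sum_le_sum_abs _ _).trans ?_
    have e1 : ∀ j, |(if rgh (yN N) j then 0 else vonMangoldt j : ℝ) * fV N V j * wt l (j + 6)| ≤
        (if rgh (yN N) j then 0 else vonMangoldt j : ℝ) * (K * (N : ℝ) ^ (17 / 20 : ℝ)) := by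
      intro j
      rw [abs_mul, abs_mul, abs_of_nonneg (hNR0 j), abs_of_nonneg (hfN j).1]
      refine mul_le_mul ?_ ?_ (abs_nonneg _) (hNR0 j)
      · calc _ ≤ (if rgh (yN N) j then 0 else vonMangoldt j : ℝ) * 1 :=
            mul_le_mul_of_nonneg_left (hfN j).2 (hNR0 j)
          _ = _ := mul_one _
      · exact (PRM_wt hK.le hQ1 ha (j + 6)).trans (mul_le_mul_of_nonneg_left hQhalf hK.le)
    refine (Finset.sum_le_sum fun j _ => e1 j).trans ?_
    refine (Finset.sum_le_sum_of_subset_of_nonneg (Finset.filter_subset _ _) fun j _ _ =>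
      mul_nonneg (hNR0 j) (by positivity)).trans ?_
    rw [← Finset.sum_mul]
    refine (mul_le_mul_of_nonneg_right hNRs (by positivity)).trans (le_of_eq ?_)
    have e2 : (N : ℝ) ^ (19 / 20 : ℝ) = (N : ℝ) ^ (1 / 10 : ℝ) * (N : ℝ) ^ (17 / 20 : ℝ) := by
      rw [← Real.rpow_add hN0]
      norm_num
    rw [e2]
    ring
  have hs1 : |∑ j ∈ Z3 N with j % 30 = 1, mnf C N j * fV N V j * wt l (j + 6) - 1 / 8 * mt Q l * F| ≤
      K * (n * (N : ℝ) ^ 2 / L ^ 2) := by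
    have e1 := (hEX (fun j => mnf C N j * fV N V j) l Q r (Z3 N) (fun m hm => (ha.2 m hm).2)).1 hr
    rw [e1, ← PRM_main ha, Finset.sum_mul, ← Finset.sum_sub_distrib]
    refine (Finset.abs_sum_le_sum_abs _ _).trans ?_
    have e2 := hBV N n1 V ⟨hV1, hV2, hV3⟩ r hr
    refine le_trans ?_ (mul_le_mul_of_nonneg_left e2 hK.le)
    rw [Finset.mul_sum]
    refine Finset.sum_le_sum fun m _ => ?_
    have e3 : l m * ∑ j ∈ Z3 N with j ≡ r m [MOD 30 * m], mnf C N j * fV N V j -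
        l m * (1 / (Nat.totient (30 * m) : ℝ)) * F =
        l m * (∑ j ∈ Z3 N with j ≡ r m [MOD 30 * m], mnf C N j * fV N V j -
        1 / (Nat.totient (30 * m) : ℝ) * F) := by ring
    rw [e3, abs_mul]
    exact mul_le_mul_of_nonneg_right (ha.1 m) (abs_nonneg _)
  have hs4 : |1 / 8 * mt Q l * F - 1 / 8 * XV N V * mt Q l| ≤
      1 / 8 * (K / L) * (n * ((N : ℝ) ^ 2 / L) + (N : ℝ) ^ (1 / 10 : ℝ) + n * (δ * (N : ℝ) ^ 2)) := by
    have e1 : 1 / 8 * mt Q l * F - 1 / 8 * XV N V * mt Q l = 1 / 8 * mt Q l * (F - XV N V) := by ring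
    rw [e1, abs_mul, abs_mul, abs_of_pos (by norm_num : (0 : ℝ) < 1 / 8)]
    refine mul_le_mul (mul_le_mul_of_nonneg_left hmtl (by norm_num)) hFX (abs_nonneg _) (by positivity)
  -- the final estimate
  rw [hsplit]
  have k1 := (abs_le.1 hs1).1
  have k2 := (abs_le.1 hs2).1
  have k3 := (abs_le.1 hs3).1
  have k4 := (abs_le.1 hs4).1
  set Y : ℝ := n * (N : ℝ) ^ 2 / L with hY
  have hY0 : 0 < Y := by positivity
  have m1 : K * (n * (N : ℝ) ^ 2 / L ^ 2) ≤ ε' / 9 * Y := by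
    have : K * (n * (N : ℝ) ^ 2 / L ^ 2) = K / L * Y := by
      rw [hY]
      field_simp
    rw [this]
    refine mul_le_mul_of_nonneg_right ?_ hY0.le
    rw [div_le_iff₀ hL0]
    rw [div_le_iff₀ hε'] at hL9
    linarith
  have m2 : 16 * K * (N : ℝ) ^ (19 / 20 : ℝ) ≤ ε' * Y := by
    have hLN : L ≤ N := (Real.log_le_sub_one_of_pos hN0).trans (by linarith)
    have e1 : 16 * K ≤ ε' * (N : ℝ) ^ (1 / 20 : ℝ) := by
      rw [div_le_iff₀ hε'] at hN25
      linarith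
    have e2 : (N : ℝ) ^ (1 / 20 : ℝ) * (N : ℝ) ^ (19 / 20 : ℝ) = N := by
      rw [← Real.rpow_add hN0]
      norm_num
    have e3 : 16 * K * (N : ℝ) ^ (19 / 20 : ℝ) ≤ ε' * N := by
      calc 16 * K * (N : ℝ) ^ (19 / 20 : ℝ) ≤ ε' * (N : ℝ) ^ (1 / 20 : ℝ) * (N : ℝ) ^ (19 / 20 : ℝ) :=
            mul_le_mul_of_nonneg_right e1 (by positivity)
        _ = ε' * ((N : ℝ) ^ (1 / 20 : ℝ) * (N : ℝ) ^ (19 / 20 : ℝ)) := by ring
        _ = ε' * N := by rw [e2]
    refine e3.trans (mul_le_mul_of_nonneg_left ?_ hε'.le)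
    rw [hY, le_div_iff₀ hL0, pow_two]
    calc (N : ℝ) * L ≤ N * N := mul_le_mul_of_nonneg_left hLN hN0.le
      _ = 1 * (N * N) := by ring
      _ ≤ n * (N * N) := mul_le_mul_of_nonneg_right hn1 (by positivity)
  have m3 : (N : ℝ) ^ (1 / 10 : ℝ) ≤ (N : ℝ) ^ (19 / 20 : ℝ) :=
    Real.rpow_le_rpow_of_exponent_le hN1 (by norm_num)
  have m4 : 1 / 8 * (K / L) * (n * ((N : ℝ) ^ 2 / L) + (N : ℝ) ^ (1 / 10 : ℝ) + n * (δ * (N : ℝ) ^ 2)) ≤
      ε' / 72 * Y + ε' / 128 * Y + ε' / 8 * Y := by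
    have e1 : 1 / 8 * (K / L) * (n * ((N : ℝ) ^ 2 / L)) ≤ ε' / 72 * Y := by
      have : 1 / 8 * (K / L) * (n * ((N : ℝ) ^ 2 / L)) = 1 / 8 * (K * (n * (N : ℝ) ^ 2 / L ^ 2)) := by
        field_simp
      rw [this]
      linarith
    have e2 : 1 / 8 * (K / L) * (N : ℝ) ^ (1 / 10 : ℝ) ≤ ε' / 128 * Y := by
      have h : K / L ≤ K := div_le_self hK.le hL1
      have h' : 1 / 8 * (K / L) * (N : ℝ) ^ (1 / 10 : ℝ) ≤ 1 / 8 * K * (N : ℝ) ^ (19 / 20 : ℝ) :=
        mul_le_mul (by linarith) m3 (by positivity) (by positivity)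
      linarith
    have e3 : 1 / 8 * (K / L) * (n * (δ * (N : ℝ) ^ 2)) ≤ ε' / 8 * Y := by
      have : 1 / 8 * (K / L) * (n * (δ * (N : ℝ) ^ 2)) = 1 / 8 * (K * δ) * Y := by
        rw [hY]
        field_simp
      rw [this]
      refine mul_le_mul_of_nonneg_right ?_ hY0.le
      linarith
    calc _ = 1 / 8 * (K / L) * (n * ((N : ℝ) ^ 2 / L)) + 1 / 8 * (K / L) * (N : ℝ) ^ (1 / 10 : ℝ) +
          1 / 8 * (K / L) * (n * (δ * (N : ℝ) ^ 2)) := by ring
      _ ≤ _ := by linarith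
  have m5 : n * (δ * (N : ℝ) ^ 2 / L) ≤ ε' / 4 * Y := by
    have : n * (δ * (N : ℝ) ^ 2 / L) = δ * Y := by rw [hY]; ring
    rw [this]
    exact mul_le_mul_of_nonneg_right hδ4 hY0.le
  have m6 : ε' * n * (N : ℝ) ^ 2 / L = ε' * Y := by rw [hY]; ring
  rw [m6]
  have hεY : 0 < ε' * Y := by positivity
  linarith

end Pool.Agent.XE
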