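import Pool.Agent.helper26.EC.Eng
import Pool.Agent.helper24.SK.All
import Pool.Agent.helper14.XE.WCT
import Pool.Agent.helper15.XE.BIM
import Pool.Agent.helper15.XE.BIV
import Pool.Agent.helper15.XE.BLM
import Pool.Agent.helper15.XE.DPR
import Pool.Agent.helper15.XE.EDT
import Pool.Agent.helper15.XE.EGC
import Pool.Agent.helper15.XE.PRM
import Pool.Agent.helper18.XE.BLK
import Pool.Agent.helper2.XE.TYI
import Pool.Agent.helper21.XE.SCK
import Pool.Agent.helper24.XE.ESC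
import Pool.Agent.helper24.XE.FN
import Pool.Agent.helper24.XE.SWI
import Pool.Agent.helper26.XE.GCD
import Pool.Agent.helper26.XE.SML
import Pool.Agent.helper26.XE.TLB
import Pool.Agent.helper27.XE.BV2
import Pool.Agent.helper27.XE.WVB
import Pool.Agent.helper39.XE.ABL
import Pool.Agent.helper39.XE.CM0
import Pool.Agent.helper39.XE.TLC
import Pool.Agent.helper43.XE.BL4
import Pool.Agent.helper44.XE.GVT
import Pool.Agent.helper49.XE.NRP
import Pool.Agent.helper49.XE.SMP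
import Pool.Agent.helper49.XE.SQ4
import Pool.Agent.helper51.XE.BIA
import Pool.Agent.helper51.XE.PNT
import Pool.Agent.helper54.XE.DYN
import Pool.Agent.helper58.XE.EDG
import Pool.Agent.helper58.XE.SPT
import Pool.Agent.helper58.XE.TII
import Pool.Agent.helper58.XE.TLF
import Pool.Agent.helper58.XE.TRA
import Pool.Agent.helper58.XE.TRV
import Pool.Agent.helper59.XE.LCT
import Pool.Agent.helper59.XE.T1A
import Pool.Agent.helper60.XE.COM
import Pool.Agent.helper60.XE.MLW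
import Pool.Agent.helper60.XE.PPW
import Pool.Agent.helper60.XE.TSB
import Pool.Agent.helper60.XE.WND
import Pool.Agent.helper63.XE.BAD
import Pool.Agent.helper63.XE.SLW
import Pool.Agent.helper66.XE.SWT
import Pool.Agent.helper66.XE.WID
import Pool.Agent.helper75.XE.LCE
import Pool.Agent.helper78.XE.CMW
import Pool.Agent.helper79.XE.VID
import Pool.Agent.helper89.XE.BVE
import Pool.Agent.helper89.XE.SCN
import Pool.Agent.helper89.XE.TLM
import Pool.Agent.helper9.XE.COR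
import Pool.Agent.helper9.XE.EDP
import Pool.Agent.helper90.XE.T1B
import Pool.Agent.helper96.XE.CM1
import Pool.Agent.helper15.XE.KRX

/-!
# Project XE (MP_5628fe_nt): assembly
-/

set_option autoImplicit false

namespace Pool.Agent.XE

theorem x_BLK : BLK_stmt := BLK SK.sk_BLK SK.sk_BL5 (BL4 SK.sk_MVP) SK.sk_SPK SK.sk_VDK
theorem x_SML : SML_stmt := SML SK.PRD SK.sk_FGB x_BLK SK.sk_G0B
theorem x_SPT : SPT_stmt := SPT SK.sk_SPT SK.sk_DEC x_SML SK.sk_TI
theorem x_WID : WID_stmt := WID SK.sk_TRB SK.sk_ABL SK.sk_TLD SK.sk_PSR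
theorem x_SCN : SCN_stmt := SCN x_SPT x_WID
theorem x_TLB : TLB_stmt := TLB SK.sk_TLD
theorem x_GCD : GCD_stmt := GCD SK.sk_TLD x_TLB WVB MLW
theorem x_SCK : SCK_stmt := SCK x_SCN x_GCD WVB
theorem x_PNT : PNT_stmt := PNT SK.sk_SPT SK.sk_TI1 SK.sk_PSR SK.sk_ABL SK.sk_TRB
theorem x_CMW : CMW_stmt := CMW x_SPT WVB SK.sk_TRB x_TLB
theorem x_EGC : EGC_stmt := EGC WVB MLW
theorem x_ESC : ESC_stmt := ESC SK.sk_ENW SK.sk_EWD x_EGC WVB
theorem x_TRA : TRA_stmt := TRA TRV WVB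
theorem x_ABL : ABL_stmt := ABL WVB TRV
theorem x_LCT : LCT_stmt := LCT x_TRA
theorem x_COR : COR_stmt := COR x_LCT EC.all_CRD EC.all_UPS WVB EC.MTA
theorem x_EDP : EDP_stmt := EDP x_COR (EC.RCS CH.RC) EDG EC.MTA WVB
theorem x_BLM : BLM_stmt := BLM BIV WVB
theorem x_BIM : BIM_stmt := BIM EC.BIL WVB
theorem x_BIA : BIA_stmt := BIA x_BIM x_BLM WVB
theorem x_TII : TII_stmt := TII x_BIA EC.VBD
theorem x_T1A : T1A_stmt := T1A BV2 x_ABL WVB
theorem x_T1B : T1B_stmt := T1B EC.KKS WVB MLW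
theorem x_TYI : TYI_stmt := TYI EC.BPS x_T1A x_T1B x_BLM EC.KKD WVB
theorem x_LCE : LCE_stmt := LCE VID x_TYI x_TII EC.KKD EC.VBD WVB
theorem x_SMP : SMP_stmt := SMP x_SCK x_ESC NRP EC.KKS WVB
theorem x_BVE : BVE_stmt := BVE x_LCE x_SMP
theorem x_PRM : PRM_stmt := PRM x_BVE x_EDP x_PNT EC.MTA EC.EXW NRP WVB
theorem x_GVT : GVT_stmt := GVT TLF x_BIA EC.KKD x_SCK WVB
theorem x_EDT : EDT_stmt := EDT x_COR TLM (PPW WVB MLW) EC.MTA CH.MER WVB
theorem x_SWI : SWI_stmt := SWI TLC x_GVT x_EDT EC.EXW EC.MTA WVB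
theorem x_SLW : SLW_stmt := SLW CHS.all_PA CHS.all_VB CHS.all_SL CHS.all_MN EC.FLM EC.all_MTN
theorem x_WCT : WCT_stmt := WCT CH.MER
theorem x_DPR : DPR_stmt := DPR KRX
theorem x_COM : COM_stmt := COM CM0 CM1 TSB
theorem x_WND : WND_stmt := WND x_COM TSB WVB (SQ4 WVB)
theorem x_SWT : SWT_stmt := SWT x_SWI x_CMW x_WCT x_DPR WVB
theorem x_FN : FN_stmt := FN x_PRM x_SLW x_SWT x_WND WVB
theorem x_BAD : BAD_stmt := BAD x_FN

end Pool.Agent.XE
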