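import Pool.Agent.helper26.EC.SpecE
import Pool.Agent.helper26.EC.SpecW
import Pool.Agent.helper24.SK.SpecE

/-!
# Project XE (MP_5628fe_nt): primes `p` and `p + 6 = P_3` between `n³` and `(n+1)³`, power saving exceptional set

Leader helper15.  THEOREM (FIN of SpecC): at most `C N^(2/3)` of the `n ≤ N` have fewer than `c n²/(log n)²` primes
`p` with `n³ < p < p + 6 < (n+1)³`, `p + 6` with at most three prime factors, all of them `q` with `q^7 > n`, no prime between.

METHOD.  `N` fixed, windows = triangles of half width `1/N` in logarithmic scale with centres `v`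
(`3 log N + 1/N ≤ v ≤ 3 log N + 9/10`), `V` = a set of at least `N^(2/3)` centres, in pairs at distance `≥ 2/N`
(later: the bad windows), weight `fV = ∑_{v ∈ V}` of the triangles.  The sieve has level `QV N = N^(104/125)`.
Conductors `≤ (log N)^B`: every window (project SK, extended to products of four primes).  Conductors up to
`N^(49/100)`: every window (bilinear large sieve, as in project EC).  Conductors in `[N^(49/100), 30 QV N]`: bilinear large sieve
over all windows of `V` together (row BIV of SpecL), with power saving.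
`L = log N` in all docstrings.
-/

set_option autoImplicit false

namespace Pool.Agent.XE

open Finset ArithmeticFunction
open Pool.Agent.EC (tri TL wt)

/-- the integers `1 ≤ j ≤ 64 N³` -/
def Z3 (N : ℕ) : Finset ℕ := Ioc 0 (64 * N ^ 3)

/-- the weight of the window with centre `v`: triangle of half width `1/N` in logarithmic scale -/
noncomputable def wv (N : ℕ) (v : ℝ) (j : ℕ) : ℝ := tri v (1 / (N : ℝ)) j

/-- its mass -/
noncomputable def Xv (N : ℕ) (v : ℝ) : ℝ := ∑ j ∈ Z3 N, wv N v j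

/-- the centres belonging to `N` -/
def InB (N : ℕ) (v : ℝ) : Prop := 3 * Real.log N + 1 / (N : ℝ) ≤ v ∧ v ≤ 3 * Real.log N + 9 / 10

/-- the weight of a set of windows -/
noncomputable def fV (N : ℕ) (V : Finset ℝ) (j : ℕ) : ℝ := ∑ v ∈ V, wv N v j

/-- its mass -/
noncomputable def XV (N : ℕ) (V : Finset ℝ) : ℝ := ∑ v ∈ V, Xv N v

/-- `V` is spaced by `2/N` -/
def Spc (N : ℕ) (V : Finset ℝ) : Prop := ∀ v ∈ V, ∀ v' ∈ V, v ≠ v' → 2 / (N : ℝ) ≤ |v - v'|

/-- admissible sets of windows: at least `N^(2/3)` of them -/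
def AdV (N : ℕ) (V : Finset ℝ) : Prop :=
  (∀ v ∈ V, InB N v) ∧ Spc N V ∧ (N : ℝ) ^ (2 / 3 : ℝ) ≤ (#V : ℝ)

/-- the level -/
noncomputable def QV (N : ℕ) : ℝ := (N : ℝ) ^ (104 / 125 : ℝ)

/-- tuples of intervals: positive lower exponents, the last variable is at least a power of `N` -/
def Wk {r : ℕ} (a b : Fin r → ℝ) : Prop := (∀ i, 0 < a i) ∧ ∑ i, b i < 3

/-- admissible tuples of intervals: at least four primes, or three primes each (almost) at most the last one -/
def AdX {r : ℕ} (a b : Fin r → ℝ) : Prop :=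
  (∀ i, 0 < a i ∧ b i ≤ 3 / 2) ∧ 1 < ∑ i, a i ∧ ∑ i, b i < 3 ∧
    (4 ≤ r ∨ (r = 3 ∧ ∀ i, b i ≤ 3 - ∑ k, b k + 3 / 50))

/-! ## Exponents and cells of the sieve -/

/-- `D' = log D = 0.831 log N` -/
noncomputable def lX (N : ℕ) : ℝ := 831 / 1000 * Real.log N
/-- exponent of `z` -/
noncomputable def az : ℝ := 3 / 16 * (831 / 1000)
/-- exponent of `y` -/
noncomputable def ay : ℝ := 5 / 8 * (831 / 1000)
/-- exponent of `z₂` -/
noncomputable def a2 : ℝ := 1 / 2 * (831 / 1000)

/-- the mesh: `hX r` cells of length `3/hX r` -/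
def hX (r : ℕ) : ℕ := if r = 3 then 232 else 116
/-- first cell of the primes `≥ z` -/
def zX (r : ℕ) : ℕ := if r = 3 then 12 else 6
/-- first cell of the primes `≥ y` -/
def yX (r : ℕ) : ℕ := if r = 3 then 40 else 20

/-- lower exponents of the cells `j` -/
noncomputable def aX {r : ℕ} (j : Fin r → ℕ) (i : Fin r) : ℝ := 3 * (j i : ℝ) / (hX r : ℝ)
/-- upper exponents of the cells `j` -/
noncomputable def bX {r : ℕ} (j : Fin r → ℕ) (i : Fin r) : ℝ := 3 * ((j i : ℝ) + 1) / (hX r : ℝ)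

/-- the cells: `b = true`: the first prime is in `[z, y)`, the others are `≥ y`; `b = false`: all are `≥ y`; the last prime
(not listed) is the largest one -/
def JX (b : Bool) (r : ℕ) : Finset (Fin r → ℕ) :=
  (Fintype.piFinset fun i : Fin r => if b = true ∧ i.val = 0 then Ico (zX r) (yX r + 1) else Ico (yX r) (hX r)).filter
    fun j => ∀ i, j i + ∑ k, j k ≤ hX r

/-- the weight of a tuple of cells -/
noncomputable def om (b : Bool) (r : ℕ) : ℝ :=
  if b = true then 1 / 2 / ((r - 1).factorial : ℝ) else 1 / (r.factorial : ℝ)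

/-- `H / (H - σ - r)` -/
noncomputable def pX (r σ : ℕ) : ℝ := (hX r : ℝ) / ((hX r : ℝ) - (σ : ℝ) - r)

/-- the majorant `T0 + (1/2) T1` of the switched sets -/
noncomputable def TS (N m : ℕ) : ℝ :=
  ∑ b : Bool, ∑ r ∈ Icc 3 5, ∑ j ∈ JX b r,
    om b r * pX r (∑ i, j i) / (3 * Real.log N) * TL N (aX j) (bX j) m

open Classical in
/-- the weight of `a = p + 6` before switching -/
noncomputable def psi0 (N a : ℕ) : ℝ :=
  if ∃ q : ℕ, q.Prime ∧ q ∣ a ∧ 7 ≤ q ∧ (q : ℝ) < (N : ℝ) ^ az then 0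
  else 1 - 1 / 2 * (#(a.primeFactors.filter fun q : ℕ => (N : ℝ) ^ az ≤ (q : ℝ) ∧ (q : ℝ) < (N : ℝ) ^ ay) : ℝ)

open Classical in
/-- the primes counted, window with centre `v` -/
noncomputable def GX (N : ℕ) (v : ℝ) : Finset ℕ := (Z3 N).filter fun p =>
  p.Prime ∧ wv N v p ≠ 0 ∧ p % 30 = 1 ∧ cardFactors (p + 6) ≤ 3 ∧ ∀ q ∈ (p + 6).primeFactors, 2 * N < q ^ 7

/-- the primes counted in the theorem -/
noncomputable def G3 (n : ℕ) : Finset ℕ := (Ioo (n ^ 3) ((n + 1) ^ 3)).filter fun p =>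
  p.Prime ∧ p + 6 < (n + 1) ^ 3 ∧ p % 30 = 1 ∧ cardFactors (p + 6) ≤ 3 ∧ ∀ q ∈ (p + 6).primeFactors, n < q ^ 7

end Pool.Agent.XE
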