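import Pool.Agent.helper15.XE.SpecL

/-!
# Project XE (MP_5628fe_nt), part C: products, sieve weights, counting, combinatorics, assembly (rows `xe:XX`)

RULES as in SpecS.lean, but `import Pool.Agent.helper15.XE.SpecC` (statements of SpecS, SpecL may be hypotheses; `Pool.Agent.EC.TLe`, `GdT`, `TUP`, `cvl` as in
project EC).  In `EC.XX_stmt` the names are those of helper62/W3/SpecA.lean, helper26/EC/SpecE.lean, SpecS.lean, SpecW.lean (all proved).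
-/

set_option autoImplicit false

namespace Pool.Agent.XE

open Finset ArithmeticFunction
open Pool.Agent.EC (tri TL wt mt Adm edg mnf tI tII tyI cvl KK yN UN TUP TLe GdT)
open Pool.Agent.CH (rgh Mo ClP ClB)
open GD (kp ks)

/-! ## Products -/

open Classical in
/-- **TLC** (medium; port of Pool/Agent/helper73/EC/TLC.lean).  From nothing.  The same proof; `AdX` holds for every cell (`a i ≤ a' i`, `b' i ≤ b i`, so `∑ b' ≤ ∑ b`, and for `r = 3`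
`b' i ≤ b i ≤ 3 - ∑ b + 3/50 ≤ 3 - ∑ b' + 3/50`). -/
def TLC_stmt : Prop := ∀ (r : ℕ) (a b : Fin r → ℝ), AdX a b → ∃ δ₁ : ℝ, 0 < δ₁ ∧ ∀ δ : ℝ, 0 < δ → δ ≤ δ₁ →
  ∃ (n : ℕ) (a' b' : Fin n → Fin r → ℝ), (∀ c, AdX (a' c) (b' c) ∧ GdT δ (a' c) (b' c)) ∧
    ∀ N m : ℕ, 2 ≤ N → TL N a b m ≤ ∑ c, TL N (a' c) (b' c) m + TLe N a b δ m ∧
      ∑ c, TL N (a' c) (b' c) m ≤ TL N a b m

open Classical in
/-- **TLF** (medium; port of Pool/Agent/helper85/EC/TLF.lean).  From nothing.  The same proof for `N³ < j ≤ 64N³`. -/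
def TLF_stmt : Prop := ∀ (r : ℕ) (a b : Fin r → ℝ), AdX a b → ∀ δ : ℝ, 0 < δ → GdT δ a b → ∃ N₀ : ℕ, ∀ N : ℕ, N₀ ≤ N →
  ∃ α β : ℕ → ℝ, (∀ k, α k ≠ 0 → (N : ℝ) ^ (1 + δ / 2) ≤ k) ∧ (∀ k, β k ≠ 0 → (N : ℝ) ^ (1 + δ / 2) ≤ k) ∧
    (∀ k, |α k| ≤ Real.log N ^ 2 ∧ |β k| ≤ Real.log N ^ 2) ∧ ∀ j ∈ Z3 N, N ^ 3 < j → TL N a b j = cvl α β j

/-- **GVT** (medium; port of Pool/Agent/helper87/EC/GVT.lean).  From TLF, BIA, EC.KKD, SCK, WVB.  `1[j ≡ a] = KK R + ks R`.  With `B, C` from BIA (exponent `A + 2`, `E = 4`; `N^(1+δ/2) ≥ N L^C`) and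
`R = ⌈L^B⌉₊`: `KK R = ∑_{i < I} kp (2^i R)`, `I ≤ 4L` (KKD), BIA for each `i`.  `ks R`: SCK for every `v ∈ V` (`B + 1`, exponent `A + 2`), `∑_{m ≤ N} 1/φ(30m) ≤ C L` (`BV1_sum_inv`).  (`fV j ≠ 0` implies `N³ < j`.) -/
def GVT_stmt : Prop := ∀ (r : ℕ) (a b : Fin r → ℝ), AdX a b → ∀ δ : ℝ, 0 < δ → GdT δ a b → ∀ A : ℕ,
  ∃ N₀ : ℕ, ∀ N : ℕ, N₀ ≤ N → ∀ V : Finset ℝ, AdV N V → ∀ r' : ℕ → ℕ, ClB r' →
  ∑ m ∈ Mo (QV N), |∑ j ∈ Z3 N with j ≡ r' m [MOD 30 * m], TL N a b j * fV N V j -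
    1 / (Nat.totient (30 * m) : ℝ) * ∑ j ∈ Z3 N, TL N a b j * fV N V j| ≤ #V * (N : ℝ) ^ 2 / Real.log N ^ A

open Classical in
/-- **PPW** (medium; port of Pool/Agent/helper68/EC/PPW.lean).  From WVB, MLW.  The same proof for a general window. -/
def PPW_stmt : Prop := ∀ (r : ℕ) (a b : Fin r → ℝ), AdX a b → ∃ c : ℝ, 0 < c ∧ ∃ N₀ : ℕ, ∀ N : ℕ, N₀ ≤ N →
  ∀ v : ℝ, InB N v →
  ∑ m ∈ Z3 N, (∑ p ∈ (TUP N a b m).filter (fun p => ¬ (m / ∏ i, p i).Prime), vonMangoldt (m / ∏ i, p i)) * wv N v m *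
    (#(m - 6).divisors : ℝ) ≤ (N : ℝ) ^ (2 - c)

open Classical in
/-- **TLM** (short, medium; port of Pool/Agent/helper73/EC/TLM.lean).  From nothing.  The same proof for `N³ < m ≤ 64N³`. -/
def TLM_stmt : Prop := ∀ (r : ℕ) (a b : Fin r → ℝ), AdX a b → ∃ κ C : ℝ, 0 < κ ∧ κ ≤ 1 / 20 ∧ 0 < C ∧ ∃ N₀ : ℕ,
  ∀ N : ℕ, N₀ ≤ N → ∀ δ : ℝ, ∀ m ∈ Z3 N, N ^ 3 < m →
  TLe N a b δ m ≤ C * Real.log N * (#(m.primeFactors.filter fun q : ℕ => ((N : ℝ) ^ (1 - 3 * δ) ≤ (q : ℝ) ∧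
      (q : ℝ) < (N : ℝ) ^ (1 + 2 * δ)) ∧ rgh ((N : ℝ) ^ κ) m) : ℝ) +
    ∑ p ∈ (TUP N a b m).filter (fun p => ¬ (m / ∏ i, p i).Prime), vonMangoldt (m / ∏ i, p i)

/-- **EDT** (medium; port of Pool/Agent/helper41/EC/EDT.lean).  From COR, TLM, PPW, EC.MTA, CH.MER, WVB.  The same proof for a general window. -/
def EDT_stmt : Prop := ∀ (r : ℕ) (a b : Fin r → ℝ), AdX a b → ∀ ε' K : ℝ, 0 < ε' → 0 < K →
  ∃ δ₀ : ℝ, 0 < δ₀ ∧ ∀ δ : ℝ, 0 < δ → δ ≤ δ₀ → ∃ N₀ : ℕ, ∀ N : ℕ, N₀ ≤ N → ∀ l : ℕ → ℝ,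
  Adm K (QV N) l → (∀ a : ℕ, 1 ≤ a → 0 ≤ wt l a) → mt (QV N) l ≤ K / Real.log N → ∀ v : ℝ, InB N v →
  ∑ m ∈ Z3 N with m % 30 = 7, TLe N a b δ m * wv N v m * wt l (m - 6) ≤ ε' * (N : ℝ) ^ 2 / Real.log N

/-- **SWI** (medium; port of Pool/Agent/helper98/EC/SWE.lean).  From TLC, GVT, EDT, EC.EXW, EC.MTA, WVB.  The same proof with the weight `fV` (EDT for every `v ∈ V`; EXW for `S = {j ∈ Z3 N : N³ < j}`). -/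
def SWI_stmt : Prop := ∀ (r : ℕ) (a b : Fin r → ℝ), AdX a b → ∀ ε' K : ℝ, 0 < ε' → 0 < K →
  ∃ N₀ : ℕ, ∀ N : ℕ, N₀ ≤ N → ∀ V : Finset ℝ, AdV N V → ∀ l : ℕ → ℝ, Adm K (QV N) l →
  (∀ a : ℕ, 1 ≤ a → 0 ≤ wt l a) → mt (QV N) l ≤ K / Real.log N →
  ∑ m ∈ Z3 N with m % 30 = 7, TL N a b m * fV N V m * wt l (m - 6) ≤
    1 / 8 * (∑ m ∈ Z3 N, TL N a b m * fV N V m) * mt (QV N) l + ε' * #V * (N : ℝ) ^ 2 / Real.log N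

/-! ## The sieve -/

open Classical in
/-- **SLW** (medium; port of Pool/Agent/helper75/EC/SLW.lean).  From CHS.PA, CHS.VB, CHS.SL, CHS.MN, EC.FLM, EC.MTN.  The same proof with `Ld = lX N = 0.831 log N`; level
`exp (Ld (1 + 19/19960)) = N^(0.831791..) ≤ QV N/const = N^(0.832)/const`. -/
def SLW_stmt : Prop := ∃ c₀ K : ℝ, 0 < c₀ ∧ 0 < K ∧ ∃ N₀ : ℕ, ∀ N : ℕ, N₀ ≤ N → ∃ l₁ l' l₂ : ℕ → ℝ,
  Adm 8 (QV N) l₁ ∧ Adm 8 (QV N) l' ∧ Adm 8 (QV N) l₂ ∧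
  (∀ a : ℕ, 1 ≤ a → wt l₁ a ≤ psi0 N a) ∧
  (∀ a : ℕ, 1 ≤ a → |wt l₁ a| ≤ wt l' a) ∧
  (∀ a : ℕ, 1 ≤ a → (if ∃ q : ℕ, q.Prime ∧ q ∣ a ∧ 7 ≤ q ∧ (q : ℝ) < (N : ℝ) ^ a2 then (0 : ℝ) else 1) ≤ wt l₂ a) ∧
  mt (QV N) l' ≤ K / Real.log N ∧ 0 ≤ mt (QV N) l₂ ∧ mt (QV N) l₂ ≤ K / Real.log N ∧
  c₀ / Real.log N ≤ mt (QV N) l₁ - 445 / 1000 * mt (QV N) l₂

/-! ## Counting the switched sets -/

/-- **WCT** (medium; port of Pool/Agent/helper41/EC/WCT.lean and helper27/EC/MCL.lean).  From CH.MER.  The same proof with the mesh `H = hX r` in place of `962`. -/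
def WCT_stmt : Prop := ∀ (r : ℕ) (j : Fin r → ℕ), (∀ i, 1 ≤ j i) → ∑ i, (j i + 1) < hX r → ∀ κ : ℝ, 0 < κ →
  ∀ B : ℕ, ∃ N₀ : ℕ, ∀ N : ℕ, N₀ ≤ N → ∀ u h : ℝ, (N : ℝ) ^ 3 / 2 ≤ u → u ≤ 4 * (N : ℝ) ^ 3 →
    u / Real.log N ^ B ≤ h → h ≤ u →
    ∑ m ∈ Ioc ⌊u⌋₊ ⌊u + h⌋₊, TL N (aX j) (bX j) m ≤ (∏ i, Real.log (((j i : ℝ) + 1) / j i) + κ) * h

/-- upper bound of `2^30 log ((j+1)/j)` -/
def mN (j : ℕ) : ℕ := (2 ^ 30 * (2 * j + 1)) / (2 * j * (j + 1)) + 1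

/-- `f a + f (a+1) + ... + f (a+n-1)` -/
def lp (f : ℕ → ℕ) : ℕ → ℕ → ℕ
  | 0, _ => 0
  | n + 1, a => f a + lp f n (a + 1)

/-- The nested sum: `k` coordinates remain, the sum of the previous ones is `s`, their maximum `x`, product of masses `P`; a tuple
counts if (sum + maximum) `≤ H`; weight `P · H / (H - sum - r)`, rounded up.  (The coordinates `j ≥ y`; for fixed `s, x` the next coordinate `j` needs
`s + j + max x j ≤ H`, in particular `2 j ≤ H - s`.) -/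
def nst (H y r : ℕ) : ℕ → ℕ → ℕ → ℕ → ℕ
  | 0, s, x, P => if Nat.ble (s + x) H then P * H / (H - s - r) + 1 else 0
  | k + 1, s, x, P => lp (fun j => nst H y r k (s + j) (if Nat.ble x j then j else x) (P * mN j)) ((H - s) / 2 + 1 - y) y

/-- the sum of the tuples of `JX b r`, unit `2^(-30 r)`; `b = true`: the first coordinate in `[z, y]` -/
def cX (b : Bool) (r : ℕ) : ℕ :=
  if b = true then lp (fun j => nst (hX r) (yX r) r (r - 1) j 0 (mN j)) (yX r + 1 - zX r) (zX r)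
  else nst (hX r) (yX r) r r 0 0 1

/-- **KRX** (helper15; kernel).  `c_B ≤ 0.433`: `1/6 cX false 3 + 1/4 cX true 3 + ...`. -/
def KRX_stmt : Prop :=
  cX false 3 * 2 ^ 60 * 40 + cX true 3 * 2 ^ 60 * 60 + cX false 4 * 2 ^ 30 * 10 + cX true 4 * 2 ^ 30 * 20 +
    cX false 5 * 2 + cX true 5 * 5 ≤ 433 * 240 * 2 ^ 150 / 1000

/-- **DPR** (medium).  From KRX.  `log ((j+1)/j) ≤ (2j+1)/(2j(j+1)) ≤ mN j/2^30`.  Write the sum over `JX b r` (`3 ≤ r ≤ 5`) as a nested sum (split off the first coordinate, `Fin.cons`; induction on the number of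
remaining coordinates: for `s`, `x`, `P` the sum over the `(j_1, .., j_k)`, `j_i ≥ y`, with `s + ∑ j + max(x, j_1, .., j_k) ≤ H` of `P ∏ mN j_i · H/(H - s - ∑ j - r)` is at most `nst H y r k s x P`; for `b = true` the first
coordinate `j_0 ≤ yX r` is at most the others, so the maximum is over the others).  All denominators are positive: `s + x ≤ H`, `x ≥ y ≥ 20 > r`.  The weights: `om false r = 1/r!`, `om true r = 1/(2 (r-1)!)`: `1/6, 1/24, 1/120` and `1/4, 1/12,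
1/48`; times `240`: `40, 10, 2`, `60, 20, 5`. -/
def DPR_stmt : Prop :=
  ∑ b : Bool, ∑ r ∈ Icc 3 5, ∑ j ∈ JX b r,
    om b r * pX r (∑ i, j i) * ∏ i, Real.log (((j i : ℝ) + 1) / j i) ≤ 435 / 1000

/-! ## Combinatorics of the switching -/

/-- **TSB** (medium; port of Pool/Agent/helper50/EC/TSB.lean).  From nothing.  `TL ≥ 0`, `om, pX ≥ 0` on `JX` (`H - σ - r > 0`, as `σ + j i ≤ H`, `j i ≥ 20`).  Upper bound for `m ≤ 64N³ ≤ N^9`: the tuples `p` are different `r`-tuples of prime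
divisors `≥ N^(36/232)` of `m`. -/
def TSB_stmt : Prop := ∃ C : ℝ, 0 < C ∧ ∀ N : ℕ, 2 ≤ N → ∀ m : ℕ, 0 ≤ TS N m ∧ (m ≤ 64 * N ^ 3 → TS N m ≤ C)

/-- **CM0** (medium, long; compare Pool/Agent/helper39/EC/CM0.lean; no prime factor in `[z,y)`).  From nothing.  Let `a` be the product of `k ≥ 4` different primes `≥ N^ay`, `N³ < a ≤ 3N³`.  Then `k ≤ 5` (`6 ay > 3`, `N` large).  `r = k - 1 ∈ {3, 4}`, `P` = the
largest prime, the `r!` orderings `p` of the others; `H = hX r`, `j i = ⌊H log (p i)/(3 log N)⌋ ≥ yX r` (`3 yX r/H = 120/232 ≤ ay`), `p i ∈ [N^(3 j i/H), N^(3(j i+1)/H))`.  `p i ≤ P`: `log (p i) + ∑ log p ≤ log a ≤ 3 log N + log 3`, so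
`j i + ∑ j ≤ H + H log 3/(3 log N) < H + 1`: `j ∈ JX false r`.  `m/∏ p i = P`, `Λ = log P ≥ 3 log N (1 - ∑ (j i+1)/H) = 3 log N/pX r (∑ j)`, so every tuple contributes at least `om false r = 1/r!`.  Different tuples `p` with the same cells are
different terms of `TL`, tuples with different cells belong to different `j`. -/
def CM0_stmt : Prop := ∃ N₀ : ℕ, ∀ N : ℕ, N₀ ≤ N → ∀ a : ℕ, N ^ 3 < a → a ≤ 3 * N ^ 3 → Squarefree a →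
  (∀ q ∈ a.primeFactors, (N : ℝ) ^ ay ≤ (q : ℝ)) → 4 ≤ #a.primeFactors → 1 ≤ TS N a

/-- **CM1** (medium, long; compare Pool/Agent/helper87/EC/CM1.lean; exactly one prime factor in `[z,y)`).  From nothing.  As CM0: first coordinate = the small prime `q₀` (cell in `[zX r, yX r]`: `3 zX r/H = 36/232 ≤ az`, `ay < 3 (yX r + 1)/H`;
`q₀ ≤ P` gives the condition of `JX` for it too), `k = r + 1 ≤ 6` (`az + 6 ay > 3`), `P` the largest prime, the `(r-1)!` orderings of the other large ones, `om true r = 1/2/(r-1)!`. -/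
def CM1_stmt : Prop := ∃ N₀ : ℕ, ∀ N : ℕ, N₀ ≤ N → ∀ a q₀ : ℕ, N ^ 3 < a → a ≤ 3 * N ^ 3 → Squarefree a →
  q₀ ∈ a.primeFactors → (N : ℝ) ^ az ≤ (q₀ : ℝ) → (q₀ : ℝ) < (N : ℝ) ^ ay →
  (∀ q ∈ a.primeFactors, q ≠ q₀ → (N : ℝ) ^ ay ≤ (q : ℝ)) → 4 ≤ #a.primeFactors → 1 / 2 ≤ TS N a

/-- **COM** (medium, short; port of Pool/Agent/helper78/EC/COM.lean).  From CM0, CM1, TSB.  `q^7 ≥ N^(7 az) ≥ N^(1.09) > 2N`. -/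
def COM_stmt : Prop := ∃ N₀ : ℕ, ∀ N : ℕ, N₀ ≤ N → ∀ a : ℕ, N ^ 3 < a → a ≤ 3 * N ^ 3 → Nat.Coprime a 30 →
  (∀ q : ℕ, q.Prime → (N : ℝ) ^ az ≤ (q : ℝ) → ¬ q ^ 2 ∣ a) → 0 < psi0 N a - TS N a →
  cardFactors a ≤ 3 ∧ ∀ q ∈ a.primeFactors, 2 * N < q ^ 7

/-! ## Assembly -/

open Classical in
/-- **SQ4** (short, medium; port of Pool/Agent/helper40/EC/SQ4.lean).  From WVB.  Multiples of `q²` (shifted by `6`) in an interval of length `≤ 5N²`: `≤ 5N²/q² + 1`, `q ≤ 2N^(3/2)`, `∑_{q ≥ z} 1/q² ≤ 2/z`, `z = N^az`, `az > 0.15`.  Prime powers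
`j = p^k ≤ 3N³`, `k ≥ 2`: at most `2 N^(3/2) · 6L`. -/
def SQ4_stmt : Prop := ∃ N₀ : ℕ, ∀ N : ℕ, N₀ ≤ N → ∀ v : ℝ, InB N v →
  (#((Z3 N).filter fun j : ℕ => wv N v j ≠ 0 ∧ ∃ q : ℕ, q.Prime ∧ (N : ℝ) ^ az ≤ (q : ℝ) ∧ q ^ 2 ∣ j + 6) : ℝ) ≤
    (N : ℝ) ^ (39 / 20 : ℝ) / 4 ∧
  (#((Z3 N).filter fun j : ℕ => wv N v j ≠ 0 ∧ ¬ j.Prime ∧ vonMangoldt j ≠ 0) : ℝ) ≤ (N : ℝ) ^ (39 / 20 : ℝ) / 4

open Classical in
/-- **WND** (medium, long; port of Pool/Agent/helper2/EC/WND.lean).  From COM, TSB, WVB, SQ4.  The same proof for a general window; `log j ≤ 3 log N + 1` where `wv ≠ 0` (`v + 1/N ≤ 3 log N + 1`). -/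
def WND_stmt : Prop := ∃ N₀ : ℕ, ∀ N : ℕ, N₀ ≤ N → ∀ v : ℝ, InB N v → ∀ l₁ l₂ : ℕ → ℝ,
  (∀ a : ℕ, 1 ≤ a → wt l₁ a ≤ psi0 N a) →
  (∀ a : ℕ, 1 ≤ a → (if ∃ q : ℕ, q.Prime ∧ q ∣ a ∧ 7 ≤ q ∧ (q : ℝ) < (N : ℝ) ^ a2 then (0 : ℝ) else 1) ≤ wt l₂ a) →
  ∑ j ∈ Z3 N with j % 30 = 1, vonMangoldt j * wv N v j * wt l₁ (j + 6) -
    (3 * Real.log N + 1) * ∑ m ∈ Z3 N with m % 30 = 7, TS N m * wv N v m * wt l₂ (m - 6) ≤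
    (3 * Real.log N + 1) * ((#(GX N v) : ℝ) + (N : ℝ) ^ (39 / 20 : ℝ))

/-- **SWT** (medium; port of Pool/Agent/helper73/EC/SWT.lean).  From SWI, CMW, WCT, DPR, WVB.  `AdX (aX j) (bX j)` for `j ∈ JX b r`, `3 ≤ r ≤ 5`: `aX > 0` (`j ≥ 6`); `2 j i + (others) ≤ H`, so `bX ≤ 3/2`; `∑ aX ≥ 3 · 92/232 > 1`; `∑ (j i + 1) < H`; `r = 3`: `j i + 1 + ∑ (j k + 1) ≤ H + 4`,
`3 · 4/232 = 0.0517 ≤ 3/50`.  SWI for each of the finitely many `j`, CMW for every `v ∈ V`. -/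
def SWT_stmt : Prop := ∀ ε' K : ℝ, 0 < ε' → 0 < K → ∃ N₀ : ℕ, ∀ N : ℕ, N₀ ≤ N → ∀ V : Finset ℝ, AdV N V →
  ∀ l : ℕ → ℝ, Adm K (QV N) l → (∀ a : ℕ, 1 ≤ a → 0 ≤ wt l a) → 0 ≤ mt (QV N) l → mt (QV N) l ≤ K / Real.log N →
  ∑ m ∈ Z3 N with m % 30 = 7, TS N m * fV N V m * wt l (m - 6) ≤
    1 / 8 * (435 / 1000) * (XV N V / (3 * Real.log N)) * mt (QV N) l + ε' * #V * (N : ℝ) ^ 2 / Real.log N ^ 2

/-- **FN** (medium; port of Pool/Agent/helper81/EC/FN.lean).  From PRM, SLW, SWT, WND, WVB.  WND summed over `v ∈ V`; `XV ≥ #V N²/4`. -/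
def FN_stmt : Prop := ∃ c : ℝ, 0 < c ∧ ∃ N₀ : ℕ, ∀ N : ℕ, N₀ ≤ N → ∀ V : Finset ℝ, AdV N V →
  c * #V * (N : ℝ) ^ 2 / Real.log N ^ 2 ≤ ∑ v ∈ V, (#(GX N v) : ℝ)

open Classical in
/-- **BAD** (medium).  From FN.  For `n ∈ [N, 5N/4)` let `v_n = 3 log n + 6/(5N)`.  `InB N v_n` (`3 log (5/4) = 0.6694`), spacing `3 log (1 + 1/n) ≥ 3/n - 3/(2n²) ≥ 12/(5N) - 3/(2N²) ≥ 2/N` (`n ≤ 5N/4`; `log` is increasing, so neighbours suffice).  If `wv N v_n p ≠ 0` then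
`3 log n < log p < 3 log n + 11/(5N) < 3 log (n+1) - 1/(10 N)`, so `n³ < p` and `p + 6 < (n+1)³`; `n < 2N < q^7`: `GX N v_n ⊆ G3 n`.  If at least `N^(2/3)` of these `n` had `#(G3 n) < (c/4) n²/(log n)²`, then with `V` = their `v_n` (`v` is injective): `∑ #GX < #V (c/4) (25/16) N²/(log N)²`,
contradiction. -/
def BAD_stmt : Prop := ∃ c : ℝ, 0 < c ∧ ∃ N₀ : ℕ, ∀ N : ℕ, N₀ ≤ N →
  (#((Ico N (5 * N / 4)).filter fun n : ℕ => (#(G3 n) : ℝ) < c * (n : ℝ) ^ 2 / Real.log n ^ 2) : ℝ) ≤ (N : ℝ) ^ (2 / 3 : ℝ)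

open Classical in
/-- **DYN** (short, medium).  From nothing.  Let `f N = #{n ≤ N : S n}`.  With `M = ⌈(4N + 8)/5⌉`: `[M, N] ⊆ Ico M (5M/4)`, so `f N ≤ f (M - 1) + M^(2/3)`, `M - 1 ≤ 0.81 N + 2`; `0.81^(2/3) < 0.87`; strong induction gives `f N ≤ C N^(2/3)`. -/
def DYN_stmt : Prop := ∀ (S : ℕ → Prop) (N₀ : ℕ),
  (∀ N : ℕ, N₀ ≤ N → (#((Ico N (5 * N / 4)).filter S) : ℝ) ≤ (N : ℝ) ^ (2 / 3 : ℝ)) →
  ∃ C : ℝ, ∀ N : ℕ, 1 ≤ N → (#((Icc 1 N).filter S) : ℝ) ≤ C * (N : ℝ) ^ (2 / 3 : ℝ)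

end Pool.Agent.XE
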