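import Pool.Agent.helper15.XE.SpecS

/-!
# Project XE (MP_5628fe_nt), part L: conductors `> (log N)^B`, the primes (rows `xe:XX`)

RULES as in SpecS.lean, but `import Pool.Agent.helper15.XE.SpecL` (statements of SpecS may be hypotheses).  Statements of block L of
project EC are `Pool.Agent.EC.KKD_stmt` etc. (helper62/W3/SpecA.lean), all of them are proved.  `L = log N`, `Q = QV N = N^(104/125)`.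

Conductors in `((log N)^B, N^(49/100)]`: every window.  Conductors in `[N^(49/100), 30 Q]`: all windows of `V` together,
`#V ≥ N^(2/3)`; both variables of a type II sum only have to be `≥ N^(67/200)`.
-/

set_option autoImplicit false

namespace Pool.Agent.XE

open Finset ArithmeticFunction
open Pool.Agent.EC (tri TL wt mt Adm edg mnf tI tII tyI cvl KK yN UN)
open Pool.Agent.CH (rgh Mo ClP ClB)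
open GD (kp ks)

/-! ## The weights -/

/-- **TRV** (short, medium; port of Pool/Agent/helper77/W3/TRV.lean).  From nothing.  Total variation along a monotone sequence; any `v`. -/
def TRV_stmt : Prop := ∀ N : ℕ, 1 ≤ N → ∀ v : ℝ, ∀ x : ℕ → ℕ, Monotone x → 1 ≤ x 0 → ∀ n : ℕ,
  ∑ i ∈ range n, |wv N v (x (i + 1)) - wv N v (x i)| ≤ 2

/-- **TRA** (medium; port of Pool/Agent/helper78/W3/TRA.lean).  From TRV, WVB.  (For `N < N₀` of WVB both terms are `≤ 64 N₀³ + 1`.) -/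
def TRA_stmt : Prop := ∃ C : ℝ, 0 < C ∧ ∀ N : ℕ, 4 ≤ N → ∀ v : ℝ, InB N v → ∀ q a : ℕ, 1 ≤ q →
  |∑ j ∈ Z3 N with j ≡ a [MOD q], wv N v j - Xv N v / q| ≤ C

/-- **ABL** (medium; port of Pool/Agent/helper89/W3/ABL.lean).  From WVB, TRV.  Abel summation, `F b = (log b)^h wv(kb)`. -/
def ABL_stmt : Prop := ∃ N₀ : ℕ, ∀ N : ℕ, N₀ ≤ N → ∀ v : ℝ, InB N v → ∀ (k h X : ℕ) (E : ℝ) (c : ℕ → ℝ), 1 ≤ k → h ≤ 1 →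
  X ≤ 64 * N ^ 3 → (∀ Y : ℕ, |∑ b ∈ Ioc 0 Y, c b| ≤ E) →
  |∑ b ∈ Ioc 0 X, c b * Real.log b ^ h * wv N v (k * b)| ≤ 4 * (1 + Real.log (64 * (N : ℝ) ^ 3)) * E

/-- **LCT** (short, medium; port of Pool/Agent/helper89/EC/LCT.lean).  From TRA.  (Sum over the `j` with `N³ < j` only, as `j - 6` is
truncated; `wv = 0` for `j ≤ N³`, see WVB; for `N < N₀` trivial.) -/
def LCT_stmt : Prop := ∃ C : ℝ, 0 < C ∧ ∀ N e m a : ℕ, 4 ≤ N → 1 ≤ e → 1 ≤ m → Nat.Coprime e 30 → Nat.Coprime m 30 →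
  a < 30 → ∀ v : ℝ, InB N v →
  |∑ j ∈ Z3 N with N ^ 3 < j ∧ e ∣ j ∧ m ∣ j + 6 ∧ j % 30 = a, wv N v j -
      (if Nat.Coprime m e then Xv N v / (30 * (e : ℝ) * m) else 0)| ≤ C ∧
  |∑ j ∈ Z3 N with N ^ 3 < j ∧ e ∣ j ∧ m ∣ j - 6 ∧ j % 30 = a, wv N v j -
      (if Nat.Coprime m e then Xv N v / (30 * (e : ℝ) * m) else 0)| ≤ C

open Classical in
/-- **COR** (medium, LONG; port of Pool/Agent/helper73/EC/COR.lean).  From LCT, EC.CRD, EC.UPS, WVB, EC.MTA.  The same proof: the error term is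
`O(C K Q z)`, `Q z ≤ N^(104/125 + 1/20) ≤ N^(0.883)`; `Xv ≤ 6N²`. -/
def COR_stmt : Prop := ∃ C₀ : ℝ, 0 < C₀ ∧ ∀ K : ℝ, 0 < K → ∃ N₀ : ℕ, ∀ N : ℕ, N₀ ≤ N → ∀ z : ℝ,
  yN N ≤ z → z ≤ (N : ℝ) ^ (1 / 20 : ℝ) → ∀ l : ℕ → ℝ, Adm K (QV N) l →
  (∀ a : ℕ, 1 ≤ a → 0 ≤ wt l a) → ∀ v : ℝ, InB N v → ∀ d a : ℕ, (d : ℝ) ≤ (N : ℝ) ^ (6 / 5 : ℝ) → rgh z d →
  ∑ j ∈ Z3 N with d ∣ j ∧ rgh z (j / d) ∧ j % 30 = a, wv N v j * wt l (j + 6) ≤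
      C₀ * (N : ℝ) ^ 2 / (d * Real.log z) * mt (QV N) l + (N : ℝ) ^ (9 / 10 : ℝ) ∧
  ∑ j ∈ Z3 N with d ∣ j ∧ rgh z (j / d) ∧ j % 30 = a, wv N v j * wt l (j - 6) ≤
      C₀ * (N : ℝ) ^ 2 / (d * Real.log z) * mt (QV N) l + (N : ℝ) ^ (9 / 10 : ℝ)

open Classical in
/-- **EDG** (short; port of Pool/Agent/helper83/EC/EDG.lean).  From nothing.  As there, for `N³ < j ≤ 64 N³`: if the inner sum is not empty then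
`c ≥ j/U² ≥ N/L^(2C)`; `log j ≤ 5 L`. -/
def EDG_stmt : Prop := ∀ C : ℕ, ∃ N₀ : ℕ, ∀ N : ℕ, N₀ ≤ N → ∀ j ∈ Z3 N, N ^ 3 < j →
  |edg C N j| ≤ if rgh (yN N) j then 5 * Real.log N *
    (#(j.divisors.filter fun c => (N : ℝ) / Real.log N ^ (2 * C) ≤ (c : ℝ) ∧ c ≤ UN C N) : ℝ) else 0

/-- **EDP** (medium; port of Pool/Agent/helper83/EC/EDP.lean).  From COR, EC.RCS, EDG, EC.MTA, WVB.  The same proof. -/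
def EDP_stmt : Prop := ∀ (C : ℕ) (ε' K : ℝ), 0 < ε' → 0 < K → ∃ N₀ : ℕ, ∀ N : ℕ, N₀ ≤ N →
  ∀ l : ℕ → ℝ, Adm K (QV N) l → (∀ a : ℕ, 1 ≤ a → 0 ≤ wt l a) → mt (QV N) l ≤ K / Real.log N → ∀ v : ℝ, InB N v →
  ∑ j ∈ Z3 N with j % 30 = 1, |edg C N j| * wv N v j * wt l (j + 6) ≤ ε' * (N : ℝ) ^ 2 / Real.log N ∧
  ∑ j ∈ Z3 N, |edg C N j| * wv N v j ≤ ε' * (N : ℝ) ^ 2

/-! ## The bilinear large sieve -/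

/-- **BIV** (medium, long; THE NEW POINT; compare Pool/Agent/helper75/W3/BIL.lean, BIL_stmt of helper62/W3/SpecA.lean).  From nothing (`GD.BV1`, helper20/GD/BV1.lean).  `δ = 1/N`.
As in BIL: with `x = log a`, `y = log b`: `tri v δ (ab) = (1/δ) ∫ 1[|y - u| ≤ δ/2] 1[|x - (v - u)| ≤ δ/2] du`.  Sum over `v ∈ V`, `u` fixed: the `b ∈ (K, 2K]`
with `|log b - u| ≤ δ/2` lie in an interval `(K₁, K₂]`, `K₂ - K₁ ≤ 4K/N + 1`; the `a ∈ (M, 2M]` with `|log a - (v - u)| ≤ δ/2` for some `v ∈ V`: the intervals for different `v` meet in at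
most an endpoint (`Spc`: the centres `v - u` have distances `≥ 2δ`), so `∑_v 1[..] = 1[a ∈ E_u]`, `E_u` the union.  `GD.BV1` with `Q' = ⌊30Q⌋`, class function `m' ↦ r(m'/30)`, coefficients
`α_a 1[a ∈ E_u]` on the WHOLE interval `(M, 2M]` and `β_b` on `(K₁, K₂]`; only the `m' = 30m` are kept:
`∑_m |∑∑| ≤ C (1 + log 30Q)/R · √((M + 4R²)(4K/N + 1 + 4R²) A(u) B(u))`, `A(u) = ∑_{a ∈ E_u} α_a²`, `B(u) = ∑_{b: |log b - u| ≤ δ/2} β_b²`.  `√(A B) ≤ (t A + B/t)/2` with a constant `t`,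
`∫ A(u) du ≤ δ #V ∑ α²`, `∫ B(u) du ≤ δ ∑ β²`, and the best `t` (trivial if `α` or `β` vanishes on the block or `V = ∅`).  `1 ≤ R²` absorbs the `+1`. -/
def BIV_stmt : Prop := ∃ C : ℝ, 0 < C ∧ ∀ (N : ℕ) (Q : ℝ) (V : Finset ℝ) (R : ℕ) (r : ℕ → ℕ) (α β : ℕ → ℝ) (M K : ℕ),
  1 ≤ N → 1 ≤ Q → Spc N V → 1 ≤ R → 1 ≤ M → 1 ≤ K →
  ∑ m ∈ Mo Q, |∑ a ∈ Ioc M (2 * M), ∑ b ∈ Ioc K (2 * K),
      α a * β b * (fV N V (a * b) * kp R (30 * m) (r m) (a * b))| ≤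
    C * (1 + Real.log Q) / R * √(((M : ℝ) + (R : ℝ) ^ 2) * ((K : ℝ) / N + (R : ℝ) ^ 2) * #V *
      (∑ a ∈ Ioc M (2 * M), α a ^ 2) * (∑ b ∈ Ioc K (2 * K), β b ^ 2))

/-- **BLM** (medium; large conductors; compare Pool/Agent/helper62/W3/BIM.lean).  From BIV, WVB.  For `R > 30Q` all `kp R (30m)` vanish (conductor `≤ 30m`).  `j = ab`,
`N³ < j ≤ 3N³` (support of `fV`); dyadic blocks `(2^i, 2^(i+1)]`, `(2^l, 2^(l+1)]`, at most `(6L)²` of them with `MK ≤ 3N³`, `4MK ≥ N³`, `M, K ≥ N^(67/200)/2`.  By symmetry (exchange `a`, `b`) let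
`M ≤ K`: `M ≤ 2N^(3/2)`, `K ≤ 3N³/M ≤ 6N^(3-67/200)`.  `√((M+R²)(K/N+R²))/R ≤ √(MK/N)/R + √M + √(K/N) + R ≤ 2N/R + 2N^(3/4) + 3N^(333/400) + 30N^(104/125)`,
`R ≥ N^(49/100)`, `(3-67/200-1)/2 = 0.8325`, `104/125 = 0.832`: `≤ 40 N^(333/400)`.  `∑ α² ∑ β² ≤ 4MK L^(2E) ≤ 12N³ L^(2E)`, `√#V ≤ #V N^(-1/3)`: a block is at most
`C' L^(E+1) √#V N^(3/2 + 333/400) ≤ C' L^(E+1) #V N^(3/2 + 333/400 - 1/3)`, and `3/2 + 333/400 - 1/3 = 1.99917 < 2 - 1/10000`. -/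
def BLM_stmt : Prop := ∀ E : ℕ, ∃ N₀ : ℕ, ∀ N : ℕ, N₀ ≤ N → ∀ V : Finset ℝ, AdV N V →
  ∀ (r : ℕ → ℕ) (R : ℕ), (N : ℝ) ^ (49 / 100 : ℝ) ≤ R → ∀ α β : ℕ → ℝ,
  (∀ a, α a ≠ 0 → (N : ℝ) ^ (67 / 200 : ℝ) ≤ a) → (∀ b, β b ≠ 0 → (N : ℝ) ^ (67 / 200 : ℝ) ≤ b) →
  (∀ Y : ℕ, Y ≤ 64 * N ^ 3 → ∑ a ∈ Ioc 0 Y, α a ^ 2 ≤ Y * Real.log N ^ E) →
  (∀ Y : ℕ, Y ≤ 64 * N ^ 3 → ∑ b ∈ Ioc 0 Y, β b ^ 2 ≤ Y * Real.log N ^ E) →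
  ∑ m ∈ Mo (QV N), |∑ j ∈ Z3 N, cvl α β j * fV N V j * kp R (30 * m) (r m) j| ≤
    #V * (N : ℝ) ^ (2 - 1 / 10000 : ℝ)

/-- **BIM** (medium; medium conductors, every window; port of Pool/Agent/helper62/W3/BIM.lean).  From EC.BIL, WVB.  The same proof with a general `v` (`InB`), level `Q = QV N ≤ N` (only
`1 + log Q ≤ 2L` matters) and `R ≤ N^(49/100)` as hypothesis: a block is at most `C' L^(E+1) (N²/R + N² L^(-C/2) + R N^(3/2))`. -/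
def BIM_stmt : Prop := ∀ (A E : ℕ), ∃ B C N₀ : ℕ, ∀ N : ℕ, N₀ ≤ N → ∀ v : ℝ, InB N v →
  ∀ (r : ℕ → ℕ) (R : ℕ), Real.log N ^ B ≤ R → (R : ℝ) ≤ (N : ℝ) ^ (49 / 100 : ℝ) → ∀ α β : ℕ → ℝ,
  (∀ a, α a ≠ 0 → (N : ℝ) * Real.log N ^ C ≤ a) → (∀ b, β b ≠ 0 → (N : ℝ) * Real.log N ^ C ≤ b) →
  (∀ Y : ℕ, Y ≤ 64 * N ^ 3 → ∑ a ∈ Ioc 0 Y, α a ^ 2 ≤ Y * Real.log N ^ E) →
  (∀ Y : ℕ, Y ≤ 64 * N ^ 3 → ∑ b ∈ Ioc 0 Y, β b ^ 2 ≤ Y * Real.log N ^ E) →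
  ∑ m ∈ Mo (QV N), |∑ j ∈ Z3 N, cvl α β j * wv N v j * kp R (30 * m) (r m) j| ≤
    (N : ℝ) ^ 2 / Real.log N ^ A

/-- **BIA** (short; both ranges together).  From BIM, BLM, WVB.  `R ≤ N^(49/100)`: BIM for every `v ∈ V` and the triangle inequality (`fV = ∑ wv`; exponents of BIM); otherwise BLM
(`N L^C ≥ N^(67/200)`). -/
def BIA_stmt : Prop := ∀ (A E : ℕ), ∃ B C N₀ : ℕ, ∀ N : ℕ, N₀ ≤ N → ∀ V : Finset ℝ, AdV N V →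
  ∀ (r : ℕ → ℕ) (R : ℕ), Real.log N ^ B ≤ R → ∀ α β : ℕ → ℝ,
  (∀ a, α a ≠ 0 → (N : ℝ) * Real.log N ^ C ≤ a) → (∀ b, β b ≠ 0 → (N : ℝ) * Real.log N ^ C ≤ b) →
  (∀ Y : ℕ, Y ≤ 64 * N ^ 3 → ∑ a ∈ Ioc 0 Y, α a ^ 2 ≤ Y * Real.log N ^ E) →
  (∀ Y : ℕ, Y ≤ 64 * N ^ 3 → ∑ b ∈ Ioc 0 Y, β b ^ 2 ≤ Y * Real.log N ^ E) →
  ∑ m ∈ Mo (QV N), |∑ j ∈ Z3 N, cvl α β j * fV N V j * kp R (30 * m) (r m) j| ≤
    #V * (N : ℝ) ^ 2 / Real.log N ^ A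

/-- **TII** (short; port of Pool/Agent/helper27/W3/TII.lean).  From BIA, EC.VBD.  `E = 5`, exponent `A + 1`. -/
def TII_stmt : Prop := ∀ A : ℕ, ∃ B C N₀ : ℕ, ∀ N : ℕ, N₀ ≤ N → ∀ V : Finset ℝ, AdV N V →
  ∀ (r : ℕ → ℕ) (R : ℕ), Real.log N ^ B ≤ R →
  ∑ m ∈ Mo (QV N), |∑ j ∈ Z3 N, tII C N j * fV N V j * kp R (30 * m) (r m) j| ≤
    #V * (N : ℝ) ^ 2 / Real.log N ^ A

/-- **VID** (short; port of Pool/Agent/helper27/W3/VID.lean).  From nothing.  The same proof for `N³ < j`. -/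
def VID_stmt : Prop := ∀ C : ℕ, ∃ N₀ : ℕ, ∀ N : ℕ, N₀ ≤ N → ∀ j : ℕ, N ^ 3 < j → j ≤ 64 * N ^ 3 →
  mnf C N j = tI C N j + tII C N j

/-! ## Type I -/

/-- **BV2** (medium; smooth variable, average over the moduli).  From nothing (compare `GD.BV2`, helper46/GD/BV2.lean, whose lemmas may be used or copied).  For a character `χ` modulo `M = 30m` of
conductor `f > 1`: `|∑_{g ≤ Y} χ(kg)| ≤ τ(M) f` (proved inside GD.BV2).  At most `f` characters modulo `M` have conductor `f` (they are induced by characters modulo `f`), and `f ∣ M`.  So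
`|∑_g kp| ≤ G m := (τ(M)/φ(M)) ∑_{f ∣ M, R < f ≤ 2R} f²`; `1/φ(M) ≤ τ(M)/M`, `τ(M)² ≤ C M^(η/2)` (`Pool.Agent.helper9.Tors.divisor_bound`).  Exchange the sums: for fixed `f` the `M = 30m`, `m ≤ Q`,
`f ∣ M` are multiples `f t`, `t ≤ 30Q/f`, `∑ 1/M ≤ (1/f)(1 + log (30Q))`; `∑_{R < f ≤ 2R} f² · (1/f) ≤ 4R²`. -/
def BV2_stmt : Prop := ∀ η : ℝ, 0 < η → ∃ C : ℝ, 0 < C ∧ ∀ (Q : ℝ) (R : ℕ), 1 ≤ Q → 1 ≤ R → ∃ G : ℕ → ℝ,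
  (∀ m ∈ Mo Q, 0 ≤ G m ∧ ∀ c k Y : ℕ, |∑ g ∈ Ioc 0 Y, kp R (30 * m) c (k * g)| ≤ G m) ∧
  ∑ m ∈ Mo Q, G m ≤ C * Q ^ η * (R : ℝ) ^ 2

/-- **T1A** (medium; type I with a smooth variable; compare the main part of Pool/Agent/helper62/W3/TYI.lean).  From BV2, ABL, WVB.  `Q = QV N`.  `j = d c`, `c = e g` (`e ∣ c`): the inner sum is
`∑_{d ≤ X} ∑_{e ∈ D} ξ d μ(e) ∑_g (log (eg))^h wv(deg) kp R (30m) (r m) (deg)`, `g ≤ 64N³/(de)`; `log(eg) = log e + log g`.  ABL for `k = de`, `E = G m` (BV2 with `η = 1/5000`), for every `m`; sum over `m`: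
`≤ X N^(1/5000) · L² · (1 + L) · 4(1 + log(64N³)) · C Q^η R² ≤ X R² N^(1/2000)`. -/
def T1A_stmt : Prop := ∃ N₀ : ℕ, ∀ N : ℕ, N₀ ≤ N → ∀ v : ℝ, InB N v → ∀ (r : ℕ → ℕ) (R : ℕ), 1 ≤ R →
  ∀ D : Finset ℕ, (∀ e ∈ D, 1 ≤ e ∧ (e : ℝ) ≤ (N : ℝ) ^ (1 / 5000 : ℝ)) → ∀ (h : ℕ) (X : ℝ) (ξ : ℕ → ℝ), h ≤ 1 → 1 ≤ X →
  (∀ d, |ξ d| ≤ Real.log N ^ 2) →
  ∑ m ∈ Mo (QV N), |∑ j ∈ Z3 N, (∑ d ∈ j.divisors.filter (fun d : ℕ => (d : ℝ) ≤ X),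
      ξ d * (∑ e ∈ D with e ∣ j / d, ((ArithmeticFunction.moebius e : ℤ) : ℝ)) * Real.log ((j / d : ℕ) : ℝ) ^ h) *
        wv N v j * kp R (30 * m) (r m) j| ≤ X * (R : ℝ) ^ 2 * (N : ℝ) ^ (1 / 2000 : ℝ)

/-- **T1B** (medium; the error of the sieve; compare the error part of Pool/Agent/helper62/W3/TYI.lean).  From EC.KKS, WVB, MLW.  `Q = QV N`, `U = UN C N ≤ N L^C`.  By KKS (`j > N³ ≥ 7` where `wv ≠ 0`) the sum is at most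
`∑_{d ≤ U} ∑_{e ∈ D'} (∑_{m ∈ Mo Q} #{j : wv ≠ 0, de ∣ j, m ∣ j ± 6} + C R² (1 + log Q) #{j : wv ≠ 0, de ∣ j})`; if a prime divides `m` and `de` there is no such `j` (it would divide `6`, `(m,30) = 1`),
otherwise `j` runs through one class modulo `dem` in an interval of length `≤ 5N²`: `≤ 6N²/(dem) + 1` (as MLW).  Total `≤ 6 N² (1 + 2L)² (1 + C L^(2B) 2L) ∑_{e ∈ D'} 1/e + U N^(1/5000) (Q + C L^(2B+1))`,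
`1 + 1/5000 + 104/125 < 2`; `A' = A + 2B + 6`. -/
def T1B_stmt : Prop := ∀ A B C : ℕ, ∃ A' N₀ : ℕ, ∀ N : ℕ, N₀ ≤ N → ∀ v : ℝ, InB N v → ∀ r : ℕ → ℕ, (ClP r ∨ ClB r) →
  ∀ R : ℕ, 1 ≤ R → (R : ℝ) ≤ Real.log N ^ B →
  ∀ D' : Finset ℕ, (∀ e ∈ D', 1 ≤ e ∧ (e : ℝ) ≤ (N : ℝ) ^ (1 / 5000 : ℝ)) →
  ∑ e ∈ D', 1 / (e : ℝ) ≤ 1 / Real.log N ^ A' →
  ∑ j ∈ Z3 N, (∑ d ∈ j.divisors with d ≤ UN C N, (#(D'.filter fun e => e ∣ j / d) : ℝ)) * wv N v j *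
    ∑ m ∈ Mo (QV N), |KK R (30 * m) (r m) j| ≤ (N : ℝ) ^ 2 / Real.log N ^ A

/-- **TYI** (medium, long; compare Pool/Agent/helper62/W3/TYI.lean).  From EC.BPS, T1A, T1B, BLM, EC.KKD, WVB.  `U = UN C N`, `Q = QV N`, `D, D'` from BPS (`κ = 1/5000`, exponent `A'` of T1B for `A + 4`), `ξ' d = ξ d` if `rgh (yN N) d` and `d ≤ U`, else `0`.
`j = dc` is rough iff `d`, `c` are: `tyI N U h ξ j = ∑_{d ∣ j, d ≤ U} ξ' d 1[c rough] (log c)^h = S(j) + Err(j)`, `S(j) = ∑_{d ∣ j, d ≤ U} ξ' d (∑_{e ∈ D, e ∣ c} μ(e)) (log c)^h`,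
`|Err j| ≤ L² (5L) ∑_{d ∣ j, d ≤ U} #{e ∈ D' : e ∣ j/d}`: T1B for every `v ∈ V`.  `S`: KKD, `KK R = ∑_{i < I} kp (2^i R)`, `I ≤ 3L` (the terms with `2^i R > 30Q` vanish).  `R' = 2^i R ≤ N^(49/100)`: T1A with `X = U`, every `v`:
`N L^C N^(0.98) N^(1/2000) ≤ N^(1.99)`.  `N^(49/100) < R' ≤ 30Q`: the `d ≤ X = N^(67/200)`: T1A, every `v`: `N^(67/200) 900 N^(208/125) N^(1/2000) = 900 N^(1.9995)`; the others: `cvl α β` with `α d = ξ' d` for `d > N^(67/200)`,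
`β c = (∑_{e ∈ D, e ∣ c} μ(e)) (log c)^h` for `c ≥ N^(67/200)` (`c = j/d > N³/U`; smaller `c` do not occur), `|β c| ≤ 5L τ(c)`: BLM with `E = 8` (`Pool.Agent.helper85.BVP.sum_tau_sq_le`). -/
def TYI_stmt : Prop := ∀ A B C : ℕ, ∃ N₀ : ℕ, ∀ N : ℕ, N₀ ≤ N → ∀ V : Finset ℝ, AdV N V →
  ∀ r : ℕ → ℕ, (ClP r ∨ ClB r) → ∀ R : ℕ, 1 ≤ R → (R : ℝ) ≤ Real.log N ^ B → ∀ (h : ℕ) (ξ : ℕ → ℝ), h ≤ 1 →
  (∀ d : ℕ, d ≤ UN C N → |ξ d| ≤ Real.log N ^ 2) →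
  ∑ m ∈ Mo (QV N), |∑ j ∈ Z3 N, tyI N (UN C N) h ξ j * fV N V j * KK R (30 * m) (r m) j| ≤
    #V * (N : ℝ) ^ 2 / Real.log N ^ A

/-- **LCE** (short, medium; port of Pool/Agent/helper63/W3/LCE.lean).  From VID, TYI, TII, EC.KKD, EC.VBD, WVB.  (`fV j ≠ 0` implies `N³ < j`.) -/
def LCE_stmt : Prop := ∀ A : ℕ, ∃ B C N₀ : ℕ, ∀ N : ℕ, N₀ ≤ N → ∀ V : Finset ℝ, AdV N V → ∀ r : ℕ → ℕ, ClP r →
  ∑ m ∈ Mo (QV N),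
      |∑ j ∈ Z3 N, mnf C N j * fV N V j * KK ⌈Real.log N ^ B⌉₊ (30 * m) (r m) j| ≤ #V * (N : ℝ) ^ 2 / Real.log N ^ A

/-! ## The primes -/

open Classical in
/-- **NRP** (short; port of Pool/Agent/helper27/W3/NRP.lean).  From nothing. -/
def NRP_stmt : Prop := ∃ N₀ : ℕ, ∀ N : ℕ, N₀ ≤ N → ∑ j ∈ Z3 N with ¬ rgh (yN N) j, vonMangoldt j ≤ (N : ℝ) ^ (1 / 10 : ℝ)

/-- **SMP** (short; port of Pool/Agent/helper27/W3/SMP.lean).  From SCK, ESC, NRP, EC.KKS, WVB.  SCK with `r = 0` (`TL = Λ`, `Pool.Agent.SK.TL_zero` in helper24/SK/All.lean, copy its proof). -/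
def SMP_stmt : Prop := ∀ A B C : ℕ, ∃ N₀ : ℕ, ∀ N : ℕ, N₀ ≤ N → ∀ v : ℝ, InB N v → ∀ M a R : ℕ, 0 < M → M ≤ 64 * N ^ 3 →
  Nat.Coprime a M → 1 ≤ R → (R : ℝ) ≤ Real.log N ^ B →
  |∑ j ∈ Z3 N, mnf C N j * wv N v j * ks R M a j -
      1 / (Nat.totient M : ℝ) * ∑ j ∈ Z3 N, mnf C N j * wv N v j| ≤
    1 / (Nat.totient M : ℝ) * ((N : ℝ) ^ 2 / Real.log N ^ A)

/-- **BVE** (short, medium; port of Pool/Agent/helper77/W3/BVE.lean).  From LCE, SMP.  SMP for every `v ∈ V` and the triangle inequality. -/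
def BVE_stmt : Prop := ∀ A : ℕ, ∃ C N₀ : ℕ, ∀ N : ℕ, N₀ ≤ N → ∀ V : Finset ℝ, AdV N V → ∀ r : ℕ → ℕ, ClP r →
  ∑ m ∈ Mo (QV N),
      |∑ j ∈ Z3 N with j ≡ r m [MOD 30 * m], mnf C N j * fV N V j -
        1 / (Nat.totient (30 * m) : ℝ) * ∑ j ∈ Z3 N, mnf C N j * fV N V j| ≤ #V * (N : ℝ) ^ 2 / Real.log N ^ A

/-- **PRM** (medium; port of Pool/Agent/helper11/W3/PRM.lean).  From BVE, EDP, PNT, EC.MTA, EC.EXW, NRP, WVB.  The same proof: sums over `Z3 N` with the weight `fV`; EDP, PNT for every `v ∈ V`. -/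
def PRM_stmt : Prop := ∀ ε' K : ℝ, 0 < ε' → 0 < K → ∃ N₀ : ℕ, ∀ N : ℕ, N₀ ≤ N → ∀ V : Finset ℝ, AdV N V →
  ∀ l l' : ℕ → ℝ, Adm K (QV N) l → Adm K (QV N) l' →
  (∀ a : ℕ, 1 ≤ a → |wt l a| ≤ wt l' a) → mt (QV N) l' ≤ K / Real.log N →
  1 / 8 * XV N V * mt (QV N) l - ε' * #V * (N : ℝ) ^ 2 / Real.log N ≤
    ∑ j ∈ Z3 N with j % 30 = 1, vonMangoldt j * fV N V j * wt l (j + 6)

end Pool.Agent.XE
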