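import Pool.Agent.helper15.XE.Defs

/-!
# Project XE (MP_5628fe_nt), part S: small conductors in EVERY window, products of four primes (rows `xe:XX`)

RULES.  File `Pool/Agent/<seat>/XE/XX.lean`: `import Pool.Agent.helper15.XE.SpecS`, `namespace Pool.Agent.XE`,
`theorem XX (h1 : YY_stmt) ... : XX_stmt` (hypotheses: exactly the statements named after `From`, in this order; statements of
SK, CH, EC are written `Pool.Agent.SK.TRB_stmt` etc.), auxiliary lemmas prefixed `XX_` and private where possible.  Never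
change this file.  If a statement is wrong tell helper15 at once.  No `convert`/`congr!` leaving Decidable goals, no
straight double quotes, no `sorry`.  Most rows are PORTS: copy the named file, rename, replace `Win N`, `fN N j` by
`Z3 N`, `wv N v j` and adapt.  `wv N v j = Pool.Agent.SK.tr0 v (1/N) (log j)` by definition.  `L = log N`.

Only new point: products of exactly four primes (`r = 3`), the last of them (almost) the largest.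
-/

set_option autoImplicit false

namespace Pool.Agent.XE

open Finset ArithmeticFunction MeasureTheory
open Pool.Agent.EC (tri TL wt edg)
open Pool.Agent.CH (nit DPb Tset)
open Pool.Agent.SK (uu zN YN gj tr0)
open GD (ks)

/-- **BL4** (medium; port of Pool/Agent/helper22/SK/BL4.lean).  From SK.MVP.  Exponents with respect to `N`; `m_i = log M_i/L`, `o` = any
small loss.  `P = ∏ M_i = N^(3-o)`, `c = i₀`, the short blocks have product `≤ N^(17/1000)`.  At most three other long blocks,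
`m_i ≤ m_c + 2/25`: `4 m_c ≥ 3 - o - 0.24 - 0.017`, so `0.685 - o ≤ m_c ≤ 1.01`; let `b ≠ c` be the longest of the others,
`m_b ≥ (2.983 - o - m_c)/3`, `D` = all others, `m_D = 3 - o - m_c - m_b ≥ 2.92 - o - 2 m_c`.  As in SK.BL4:
`J(T) = ∫_{|t| ≤ 2T} ‖P_b‖ ‖P_D‖ ≤ 4 ((T + M_b)(T + M_D) M_b M_D)^(1/2) L^K`; first part of the bound for `P_c`:
`(M_c/T) J(T) ≤ 8 P L^(K+c) max(1/T, 1/√T, N^(-1/2))`; second part, relative to `P`, `T ≤ N^(1.01)`, exponent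
`0.505 - m_c + max(0, 1.01 - m_b)/2 + max(0, 1.01 - m_D)/2 + o ≤ 0.505 + (0.0157 + m_c/3)/2 + max(0, m_c - 0.955) - m_c + o
≤ 0.5129 - (5/6) m_c + max(0, m_c - 0.955) + o ≤ -0.05 + o` (at `m_c = 0.685`: `-0.058`; at `m_c = 1.01`: `-0.27`). -/
def BL4_stmt : Prop := ∀ A c : ℕ, ∃ B₂ : ℕ, ∀ B₁ : ℕ, B₂ ≤ B₁ → ∃ N₀ : ℕ, ∀ N : ℕ, N₀ ≤ N → ∀ R : ℕ, R ≤ 17 →
  ∀ (M : Fin R → ℕ) (a : Fin R → ℕ → ℂ) (i₀ : Fin R), (∀ i, 1 ≤ M i) →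
  (∀ i m, m < 2 * M i → ‖a i m‖ ≤ Real.log N ^ c) →
  N ^ 3 ≤ 2 ^ (R + 4) * ∏ i, M i → ∏ i, M i ≤ 8 * N ^ 3 → (M i₀ : ℝ) ≤ (N : ℝ) ^ (101 / 100 : ℝ) →
  (∀ i, (M i : ℝ) ≤ (N : ℝ) ^ (2 / 25 : ℝ) * M i₀) →
  #(univ.filter fun i : Fin R => (N : ℝ) ^ (1 / 1000 : ℝ) ≤ M i) ≤ 4 →
  (∀ t : ℝ, 1 ≤ |t| → ‖DPb (M i₀) (a i₀) t‖ ≤ Real.log N ^ c * (M i₀ / |t| + √|t|)) →
  ∫ t in Tset (1 / 200) B₁ N, ∏ i, ‖DPb (M i) (a i) t‖ ≤ (N : ℝ) ^ 3 / Real.log N ^ A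

/-- **BLK** (medium, long; port of Pool/Agent/helper2/SK/BLK.lean).  From SK.BLK, SK.BL5, BL4, SK.SPK, SK.VDK.  `4 ≤ r`: `EC.AdT a b`, this is
SK.BLK.  `r = 3`, `R = 3 + 2i`, `M k = 2^(e k)`, `a k = uu.. k · χ`.  If a polynomial vanishes identically the integral is `0`; so
`N^(a k)/2 ≤ M k ≤ N^(b k)` for the three prime variables, `M k ≤ zN N` resp. `YN N` for the others.  All three prime variables are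
long (`η = min (1/1000) (a_j/2) ((3 - ∑ b)/16)`), and one of the other `2i ≤ 14`.  If at least five blocks are `≥ N^η`: BL5.  Otherwise
exactly one of the others, `i₀`, is `≥ N^η`, the remaining ones have product `≤ N^(13 η)`: `M i₀ N^(13 η) ≥ N^3/(2^(R+4) ∏ M k)`
(product of the prime variables) and for a prime variable `M k ≤ N^(b k) ≤ N^(3 - ∑ b + 3/50) ≤ N^(3/50) · N^3/∏_{primes} M ≤
2^(R+4) N^(3/50 + 13/1000) M i₀ ≤ N^(2/25) M i₀`.  `4` blocks have product `≥ N^(3-14/1000)/2^(R+4)`, so `M i₀ ≥ N^(0.68) > zN N`: the factor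
`i₀` is `sml`: VDK, and `M i₀ ≤ YN N ≤ N^(101/100)`.  BL4 (its `#` of long blocks with threshold `N^(1/1000) ≥ N^η`); the factor `min 1 .. ≤ 1`. -/
def BLK_stmt : Prop := ∀ (r : ℕ) (a b : Fin r → ℝ), AdX a b → ∀ A Bq : ℕ, ∃ B₁ N₀ : ℕ, ∀ N : ℕ, N₀ ≤ N → ∀ q : ℕ,
  1 ≤ q → (q : ℝ) ≤ Real.log N ^ Bq → ∀ χ : DirichletCharacter ℂ q, ∀ i ∈ Icc 1 7, ∀ e : Fin (r + 2 * i) → ℕ,
  N ^ 3 ≤ 2 ^ (r + 2 * i + 4) * ∏ k, 2 ^ e k → ∏ k, 2 ^ e k ≤ 8 * N ^ 3 →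
  ∫ t in Tset (1 / 200) B₁ N, (∏ k, ‖DPb (2 ^ e k)
      (fun m => ((uu N (zN N) (YN N) a b i k m : ℝ) : ℂ) * χ m) t‖) * min 1 (8 * (N : ℝ) ^ 2 / t ^ 2) ≤
    (N : ℝ) ^ 3 / Real.log N ^ A

/-- **SML** (medium; port of Pool/Agent/helper24/SK/SML.lean).  From SK.PRD, SK.FGB, BLK, SK.G0B.  The same proof with `AdX` in place of
`Adr`. -/
def SML_stmt : Prop := ∀ (r : ℕ) (a b : Fin r → ℝ), AdX a b → ∀ A Bq : ℕ, ∃ B₀ : ℕ, ∀ B : ℕ, B₀ ≤ B → ∃ N₀ : ℕ,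
  ∀ N : ℕ, N₀ ≤ N → ∀ v : ℝ, |v - 3 * Real.log N| ≤ 1 → ∀ q : ℕ, 1 ≤ q → (q : ℝ) ≤ Real.log N ^ Bq →
  ∀ χ : DirichletCharacter ℂ q, ∀ i ∈ Icc 1 7,
  ‖∑ m ∈ Ioc 0 (64 * N ^ 3), (((∏ k, uu N (zN N) (YN N) a b i k) m : ℝ) : ℂ) * χ m * gj B N v m‖ ≤
    (N : ℝ) ^ 2 / Real.log N ^ A

/-- **SPT** (short, medium; port of Pool/Agent/helper79/SK/SPT.lean).  From SK.SPT, SK.DEC, SML, SK.TI.  `r = 0`: SK.SPT (`Adr`, left).  `AdX`: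
the same proof as in helper79/SK/SPT.lean with SML in place of SK.SML. -/
def SPT_stmt : Prop := ∀ (r : ℕ) (a b : Fin r → ℝ), (r = 0 ∨ AdX a b) → ∀ A Bq : ℕ, ∃ B₀ : ℕ, ∀ B : ℕ, B₀ ≤ B → ∃ N₀ : ℕ,
  ∀ N : ℕ, N₀ ≤ N → ∀ v : ℝ, |v - 3 * Real.log N| ≤ 1 → ∀ q : ℕ, 1 ≤ q → (q : ℝ) ≤ Real.log N ^ Bq →
  ∀ χ : DirichletCharacter ℂ q,
  ‖∑ m ∈ Ioc 0 (64 * N ^ 3), ((TL N a b m : ℝ) : ℂ) * χ m * gj B N v m‖ ≤ (N : ℝ) ^ 2 / Real.log N ^ A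

/-- **WID** (medium; port of Pool/Agent/helper47/SK/WID.lean).  From SK.TRB, SK.ABL, SK.TLD, SK.PSR.  The same proof, `κ = min 1 ((3 - ∑ b)/2)`;
only `∑ b < 3` is used. -/
def WID_stmt : Prop := ∀ (r : ℕ) (a b : Fin r → ℝ), Wk a b → ∀ A Bq : ℕ, ∃ N₀ : ℕ, ∀ N : ℕ, N₀ ≤ N → ∀ v δ : ℝ,
  0 < δ → ∀ q : ℕ, 1 ≤ q → (q : ℝ) ≤ Real.log N ^ Bq → ∀ χ : DirichletCharacter ℂ q, χ ≠ 1 →
  ‖∑ m ∈ Ioc 0 (64 * N ^ 3), ((TL N a b m : ℝ) : ℂ) * χ m * ((tr0 v δ (Real.log m) : ℝ) : ℂ)‖ ≤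
    (N : ℝ) ^ 3 / Real.log N ^ A

/-- **SCN** (short; port of Pool/Agent/helper98/SK/SCN.lean).  From SPT, WID.  (`r = 0 ∨ AdX` implies `Wk`.) -/
def SCN_stmt : Prop := ∀ (r : ℕ) (a b : Fin r → ℝ), (r = 0 ∨ AdX a b) → ∀ A Bq : ℕ, ∃ N₀ : ℕ, ∀ N : ℕ, N₀ ≤ N → ∀ v : ℝ,
  |v - 3 * Real.log N| ≤ 1 → ∀ q : ℕ, 1 ≤ q → (q : ℝ) ≤ Real.log N ^ Bq → ∀ χ : DirichletCharacter ℂ q, χ ≠ 1 →
  ‖∑ m ∈ Ioc 0 (64 * N ^ 3), ((TL N a b m : ℝ) : ℂ) * χ m * ((tr0 v (1 / (N : ℝ)) (Real.log m) : ℝ) : ℂ)‖ ≤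
    (N : ℝ) ^ 2 / Real.log N ^ A

/-- **TLB** (short, medium; port of Pool/Agent/helper31/SK/TLB.lean).  From SK.TLD.  With `α = min a_i > 0` (`r = 0`: `Λ ≤ log`) the number of
primes `p ≥ N^α` dividing `m ≤ 64 N³` is at most `4/α`, so at most `(4/α)^r` tuples count. -/
def TLB_stmt : Prop := ∀ (r : ℕ) (a b : Fin r → ℝ), Wk a b → ∃ (C : ℝ) (N₀ : ℕ), 0 < C ∧ ∀ N : ℕ, N₀ ≤ N →
  ∀ m : ℕ, m ≤ 64 * N ^ 3 → 0 ≤ TL N a b m ∧ TL N a b m ≤ C * Real.log N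

/-- **WVB** (medium; compare Pool/Agent/helper32/EC/XNB.lean, helper17/SK/WNF.lean).  From nothing.  Basic facts of the windows.  `InB`: support
`v - 1/N < log j < v + 1/N`, so `N³ < j` and `j ≤ e^(0.9 + 1/N) N³ ≤ 2.7 N³` for `N ≥ 12`, `j + 6 ≤ 3 N³`.  (`j = 0`: Lean's `log 0 = 0`, `N v > 1`.)
Lipschitz: `|log (j+6) - log j| ≤ 6/j`.  Mass: `wv ≥ 1/2` for the `j` with `|log j - v| ≤ 1/(2N)`, an interval of length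
`≥ e^(v-1/(2N)) (e^(1/N) - 1) ≥ N²`, so `Xv ≥ (N²-1)/2`; `Xv ≤` number of `j` in the support `≤ e^v (e^(1/N) - e^(-1/N)) + 1 ≤ 6N²`.
`fV ≤ 1`: the supports of the `wv` with `v ∈ V` are disjoint (`Spc`).  `#V ≤ 2N` (a spaced set in an interval of length `9/10`). -/
def WVB_stmt : Prop := ∃ N₀ : ℕ, 12 ≤ N₀ ∧ ∀ N : ℕ, N₀ ≤ N →
  (∀ v : ℝ, InB N v → |v - 3 * Real.log N| ≤ 1 ∧ (N : ℝ) ^ 2 / 4 ≤ Xv N v ∧ Xv N v ≤ 6 * (N : ℝ) ^ 2 ∧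
    ∀ j : ℕ, 0 ≤ wv N v j ∧ wv N v j ≤ 1 ∧ (wv N v j ≠ 0 → N ^ 3 < j ∧ j + 6 ≤ 3 * N ^ 3) ∧
      (N ^ 3 ≤ j → |wv N v j - wv N v (j + 6)| ≤ 6 / (N : ℝ) ^ 2)) ∧
  ∀ V : Finset ℝ, (∀ v ∈ V, InB N v) → Spc N V → (#V : ℝ) ≤ 2 * N ∧
    ∀ j : ℕ, 0 ≤ fV N V j ∧ fV N V j ≤ 1 ∧ (fV N V j ≠ 0 → N ^ 3 < j ∧ j + 6 ≤ 3 * N ^ 3)

/-- **MLW** (short, medium).  From nothing.  Multiples of `d` in a window: they lie in an interval of length `≤ 5 N²` (see WVB); `d ≥ 1`. -/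
def MLW_stmt : Prop := ∀ N : ℕ, 12 ≤ N → ∀ v : ℝ, InB N v → ∀ d : ℕ, 1 ≤ d →
  ∀ [DecidablePred fun j : ℕ => wv N v j ≠ 0 ∧ d ∣ j],
  (#((Z3 N).filter fun j : ℕ => wv N v j ≠ 0 ∧ d ∣ j) : ℝ) ≤ 6 * (N : ℝ) ^ 2 / d + 1

/-- **GCD** (medium; port of Pool/Agent/helper37/SK/GCD.lean).  From SK.TLD, TLB, WVB, MLW.  `0 ≤ wv ≤ 1`, `TL ≤ C L`.  If `TL m ≠ 0` and
`(m, M) > 1`: `m = p_1..p_r n`, `n` a power of a prime, and a prime `p ∣ M` is one of the `p_i`, so `p ≥ N^α`, `α = min a_i`; or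
`n = p^k`, `n ≥ N³/∏ p_i ≥ N^κ`, `κ = 3 - ∑ b`.  `M ≤ 64N³` has at most `4/α` prime factors `≥ N^α` and at most `5L` prime
factors; so `m` is a multiple of one of at most `C L²` numbers `≥ N^(min(α,κ))/2`, MLW. -/
def GCD_stmt : Prop := ∀ (r : ℕ) (a b : Fin r → ℝ), Wk a b → ∀ A : ℕ, ∃ N₀ : ℕ, ∀ N : ℕ, N₀ ≤ N → ∀ v : ℝ, InB N v →
  ∀ M : ℕ, 0 < M → M ≤ 64 * N ^ 3 →
  ∑ m ∈ Z3 N with ¬ Nat.Coprime m M, TL N a b m * wv N v m ≤ (N : ℝ) ^ 2 / Real.log N ^ A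

/-- **SCK** (medium; port of Pool/Agent/helper31/SK/SCK.lean).  From SCN, GCD, WVB. -/
def SCK_stmt : Prop := ∀ (r : ℕ) (a b : Fin r → ℝ), (r = 0 ∨ AdX a b) → ∀ A Bq : ℕ, ∃ N₀ : ℕ, ∀ N : ℕ, N₀ ≤ N →
  ∀ v : ℝ, InB N v → ∀ M c R : ℕ, 0 < M → M ≤ 64 * N ^ 3 → Nat.Coprime c M → 1 ≤ R → (R : ℝ) ≤ Real.log N ^ Bq →
  |∑ m ∈ Z3 N, TL N a b m * wv N v m * ks R M c m -
      (1 / (Nat.totient M : ℝ)) * ∑ m ∈ Z3 N, TL N a b m * wv N v m| ≤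
    (1 / (Nat.totient M : ℝ)) * ((N : ℝ) ^ 2 / Real.log N ^ A)

/-- **PNT** (medium; port of Pool/Agent/helper11/SK/PNW.lean).  From SK.SPT, SK.TI1, SK.PSR, SK.ABL, SK.TRB.  The same proof with a general `v`
in place of `vN N` (no WNF needed: the sums are over `Ioc 0 (64N³)`). -/
def PNT_stmt : Prop := ∀ A : ℕ, ∃ N₀ : ℕ, ∀ N : ℕ, N₀ ≤ N → ∀ v : ℝ, InB N v →
  |∑ m ∈ Z3 N, vonMangoldt m * wv N v m - Xv N v| ≤ (N : ℝ) ^ 2 / Real.log N ^ A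

/-- **CMW** (medium, long; port of Pool/Agent/helper49/SK/CMW.lean).  From SPT, WVB, SK.TRB, TLB.  The same proof with a general `v`: `e^v ≥ N³`,
`e^v ≤ 2.46 N³`, so all the intervals `(u, u+h]` have `N³/2 ≤ u ≤ 4N³`; at the end `Xv N v ≥ e^v/N - 3 ≥ ` (difference of two
nondecreasing functions: `∑ tr0 (log m)` is within `2` of `∫ tr0(w) e^w dw ∈ [e^(v-1/N)/N, e^(v+1/N)/N]`), compare the proof of the last part of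
helper17/SK/WNF.lean. -/
def CMW_stmt : Prop := ∀ (r : ℕ) (a b : Fin r → ℝ), AdX a b → ∀ D : ℝ, 0 ≤ D →
  (∀ B : ℕ, ∃ N₀ : ℕ, ∀ N : ℕ, N₀ ≤ N → ∀ u h : ℝ, (N : ℝ) ^ 3 / 2 ≤ u → u ≤ 4 * (N : ℝ) ^ 3 →
    u / Real.log N ^ B ≤ h → h ≤ u → ∑ m ∈ Ioc ⌊u⌋₊ ⌊u + h⌋₊, TL N a b m ≤ D * h) →
  ∀ κ : ℝ, 0 < κ → ∃ N₀ : ℕ, ∀ N : ℕ, N₀ ≤ N → ∀ v : ℝ, InB N v →
    ∑ m ∈ Z3 N, TL N a b m * wv N v m ≤ (D + κ) * Xv N v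

/-- **EGC** (medium; port of Pool/Agent/helper68/SK/EGC.lean).  From WVB, MLW.  The same proof for a general window. -/
def EGC_stmt : Prop := ∀ A C : ℕ, ∃ N₀ : ℕ, ∀ N : ℕ, N₀ ≤ N → ∀ v : ℝ, InB N v → ∀ M : ℕ, 0 < M → M ≤ 64 * N ^ 3 →
  ∑ j ∈ Z3 N with ¬ Nat.Coprime j M, |edg C N j| * wv N v j ≤ (N : ℝ) ^ 2 / Real.log N ^ A

/-- **ESC** (medium; port of Pool/Agent/helper87/SK/ESC.lean).  From SK.ENW, SK.EWD, EGC, WVB.  The same proof for a general window. -/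
def ESC_stmt : Prop := ∀ A B C : ℕ, ∃ N₀ : ℕ, ∀ N : ℕ, N₀ ≤ N → ∀ v : ℝ, InB N v → ∀ M a R : ℕ, 0 < M → M ≤ 64 * N ^ 3 →
  Nat.Coprime a M → 1 ≤ R → (R : ℝ) ≤ Real.log N ^ B →
  |∑ j ∈ Z3 N, edg C N j * wv N v j * ks R M a j -
      1 / (Nat.totient M : ℝ) * ∑ j ∈ Z3 N, edg C N j * wv N v j| ≤
    1 / (Nat.totient M : ℝ) * ((N : ℝ) ^ 2 / Real.log N ^ A)

end Pool.Agent.XE
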